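import Mathlib

/-!
# The multiplicative group of the complex numbers modulo torsion, as a rational vector space
-/

set_option autoImplicit false

namespace Pool.Agent.E8helper35.ZL

open scoped TensorProduct

/-- the rational vector space `ℂˣ ⊗ ℚ` -/
abbrev E : Type := ℚ ⊗[ℤ] (Additive ℂˣ)

/-- the class of a complex number (`0` for `z = 0`) -/
noncomputable def e (z : ℂ) : E :=
  if h : z ≠ 0 then (1 : ℚ) ⊗ₜ[ℤ] Additive.ofMul (Units.mk0 z h) else 0

theorem e_of_ne {z : ℂ} (h : z ≠ 0) : e z = (1 : ℚ) ⊗ₜ[ℤ] Additive.ofMul (Units.mk0 z h) := by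
  rw [e, dif_pos h]

theorem e_mul {x y : ℂ} (hx : x ≠ 0) (hy : y ≠ 0) : e (x * y) = e x + e y := by
  rw [e_of_ne hx, e_of_ne hy, e_of_ne (mul_ne_zero hx hy), ← TensorProduct.tmul_add]
  congr 1
  rw [← ofMul_mul]
  congr 1
  ext
  rfl

theorem e_one : e 1 = 0 := by
  have h := e_mul (x := 1) (y := 1) one_ne_zero one_ne_zero
  rw [mul_one] at h
  simpa using h

theorem e_inv {x : ℂ} (hx : x ≠ 0) : e x⁻¹ = - e x := by
  have h := e_mul (x := x) (y := x⁻¹) hx (inv_ne_zero hx)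
  rw [mul_inv_cancel₀ hx, e_one] at h
  exact (neg_eq_of_add_eq_zero_right h.symm).symm

theorem e_div {x y : ℂ} (hx : x ≠ 0) (hy : y ≠ 0) : e (x / y) = e x - e y := by
  rw [div_eq_mul_inv, e_mul hx (inv_ne_zero hy), e_inv hy, sub_eq_add_neg]

theorem e_pow {x : ℂ} (hx : x ≠ 0) (n : ℕ) : e (x ^ n) = n • e x := by
  induction n with
  | zero => rw [pow_zero, e_one, zero_smul]
  | succ n ih => rw [pow_succ, e_mul (pow_ne_zero n hx) hx, ih, succ_nsmul]

theorem e_zpow {x : ℂ} (hx : x ≠ 0) (n : ℤ) : e (x ^ n) = n • e x := by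
  cases n with
  | ofNat n => rw [Int.ofNat_eq_natCast, zpow_natCast, e_pow hx, natCast_zsmul]
  | negSucc n =>
    rw [zpow_negSucc, e_inv (pow_ne_zero _ hx), e_pow hx, negSucc_zsmul]

theorem e_prod {ι : Type*} (s : Finset ι) (f : ι → ℂ) (h : ∀ i ∈ s, f i ≠ 0) :
    e (∏ i ∈ s, f i) = ∑ i ∈ s, e (f i) := by
  classical
  induction s using Finset.induction_on with
  | empty => simp [e_one]
  | insert a s ha ih =>
    rw [Finset.prod_insert ha, Finset.sum_insert ha, e_mul (h a (Finset.mem_insert_self _ _))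
      (Finset.prod_ne_zero_iff.2 fun i hi => h i (Finset.mem_insert_of_mem hi)),
      ih fun i hi => h i (Finset.mem_insert_of_mem hi)]

/-- the kernel consists of the roots of unity -/
theorem e_eq_zero {z : ℂ} (hz : z ≠ 0) (h : e z = 0) : ∃ N : ℕ, 0 < N ∧ z ^ N = 1 := by
  rw [e_of_ne hz] at h
  have hloc : IsLocalizedModule (nonZeroDivisors ℤ) (TensorProduct.mk ℤ ℚ (Additive ℂˣ) 1) :=
    (isLocalizedModule_iff_isBaseChange (nonZeroDivisors ℤ) ℚ
      (TensorProduct.mk ℤ ℚ (Additive ℂˣ) 1)).2 (TensorProduct.isBaseChange ℤ (Additive ℂˣ) ℚ)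
  have h1 : (TensorProduct.mk ℤ ℚ (Additive ℂˣ) 1) (Additive.ofMul (Units.mk0 z hz)) = 0 := h
  rw [IsLocalizedModule.eq_zero_iff (nonZeroDivisors ℤ)] at h1
  obtain ⟨⟨c, hc⟩, h2⟩ := h1
  have hc0 : c ≠ 0 := nonZeroDivisors.ne_zero hc
  have h3 : (Units.mk0 z hz) ^ c = 1 := by
    have h4 : c • Additive.ofMul (Units.mk0 z hz) = 0 := h2
    rw [← ofMul_zpow] at h4
    exact ofMul_eq_zero.1 h4
  refine ⟨c.natAbs, Int.natAbs_pos.2 hc0, ?_⟩
  have h4 : (Units.mk0 z hz) ^ c.natAbs = 1 := by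
    rcases Int.natAbs_eq c with h5 | h5
    · rw [h5, zpow_natCast] at h3
      exact h3
    · rw [h5, zpow_neg, inv_eq_one, zpow_natCast] at h3
      exact h3
  have h5 := congrArg Units.val h4
  simpa using h5

theorem e_root {z : ℂ} {N : ℕ} (hN : 0 < N) (h : z ^ N = 1) : e z = 0 := by
  have hz : z ≠ 0 := by
    rintro rfl
    rw [zero_pow hN.ne'] at h
    exact zero_ne_one h
  have h1 := e_pow hz N
  rw [h, e_one] at h1
  have h2 : (N : ℚ) • e z = 0 := by
    rw [Nat.cast_smul_eq_nsmul]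
    exact h1.symm
  rcases smul_eq_zero.1 h2 with h3 | h3
  · exact absurd (by exact_mod_cast h3) hN.ne'
  · exact h3

theorem e_neg {z : ℂ} (hz : z ≠ 0) : e (-z) = e z := by
  have h1 : e (-1) = 0 := e_root (N := 2) (by norm_num) (by norm_num)
  have h2 : (-z) = (-1) * z := by ring
  rw [h2, e_mul (by norm_num) hz, h1, zero_add]

/-- rational relations between classes are multiplicative relations -/
theorem rel_of_sum {ι : Type*} (s : Finset ι) (f : ι → ℂ) (hf : ∀ i ∈ s, f i ≠ 0) (m : ι → ℤ)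
    (h : ∑ i ∈ s, m i • e (f i) = 0) : ∃ N : ℕ, 0 < N ∧ ∏ i ∈ s, f i ^ (m i * N) = 1 := by
  have h1 : e (∏ i ∈ s, f i ^ (m i)) = 0 := by
    rw [e_prod _ _ fun i hi => zpow_ne_zero _ (hf i hi), ← h]
    exact Finset.sum_congr rfl fun i hi => e_zpow (hf i hi) _
  obtain ⟨N, hN, h2⟩ := e_eq_zero (Finset.prod_ne_zero_iff.2 fun i hi => zpow_ne_zero _ (hf i hi)) h1
  refine ⟨N, hN, ?_⟩
  rw [← h2, ← Finset.prod_pow]
  refine Finset.prod_congr rfl fun i _ => ?_
  rw [zpow_mul, zpow_natCast]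

/-- a common denominator -/
theorem exists_denom {ι : Type*} (s : Finset ι) (r : ι → ℚ) :
    ∃ (N : ℕ) (m : ι → ℤ), 0 < N ∧ ∀ i ∈ s, (m i : ℚ) = N * r i := by
  classical
  refine ⟨∏ i ∈ s, (r i).den, fun i => (r i).num * ∏ j ∈ s.erase i, ((r j).den : ℤ),
    Finset.prod_pos fun i _ => (r i).den_pos, fun i hi => ?_⟩
  have h1 : ∏ j ∈ s, (r j).den = (r i).den * ∏ j ∈ s.erase i, (r j).den :=
    (Finset.mul_prod_erase s _ hi).symm
  rw [h1]
  push_cast
  have h2 : ((r i).num : ℚ) = r i * (r i).den := (Rat.mul_den_eq_num (r i)).symm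
  rw [h2]
  ring

end Pool.Agent.E8helper35.ZL
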