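import Mathlib
import Pool.Agent.E8helper35.ZL.Evec

set_option autoImplicit false

namespace Pool.Agent.E8helper35.ZL

open Polynomial

/-- a linear functional with given values on a family -/
theorem exists_functional {V : Type*} [AddCommGroup V] [Module ℚ V] {ι : Type*} (y : ι → V)
    (r : ι → ℚ) (h : ∀ c : ι →₀ ℚ, Finsupp.linearCombination ℚ y c = 0 →
      Finsupp.linearCombination ℚ r c = 0) : ∃ v : V →ₗ[ℚ] ℚ, ∀ i, v (y i) = r i := by
  let Φ := Finsupp.linearCombination ℚ y
  let R := Finsupp.linearCombination ℚ r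
  have hker : LinearMap.ker Φ ≤ LinearMap.ker R := fun c hc => h c hc
  let w : LinearMap.range Φ →ₗ[ℚ] ℚ :=
    ((LinearMap.ker Φ).liftQ R hker).comp (Φ.quotKerEquivRange.symm : _ →ₗ[ℚ] _)
  obtain ⟨v, hv⟩ := LinearMap.exists_extend w
  refine ⟨v, fun i => ?_⟩
  have h1 : Φ (Finsupp.single i 1) = y i := by simp [Φ]
  have h2 : v (y i) = w ⟨Φ (Finsupp.single i 1), LinearMap.mem_range_self _ _⟩ := by
    rw [← hv]
    change v (y i) = v (Φ (Finsupp.single i 1))
    rw [h1]
  rw [h2]
  change (LinearMap.ker Φ).liftQ R hker (Φ.quotKerEquivRange.symm _) = _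
  have h3 : Φ.quotKerEquivRange.symm ⟨Φ (Finsupp.single i 1), LinearMap.mem_range_self _ _⟩ =
      (LinearMap.ker Φ).mkQ (Finsupp.single i 1) := by
    rw [LinearEquiv.symm_apply_eq]
    rfl
  rw [h3]
  simp [R]

theorem zpow_toNat {x : ℂ} (hx : x ≠ 0) (k : ℤ) : x ^ k * x ^ (-k).toNat = x ^ k.toNat := by
  rw [← zpow_natCast, ← zpow_natCast, ← zpow_add₀ hx]
  congr 1
  omega

/-- the order of vanishing at `c = α` -/
theorem exists_val (F : IntermediateField ℚ ℂ) {c : ℂ} (hc : Transcendental F c) (α : F) :
    ∃ v : E →ₗ[ℚ] ℚ, (∀ z : ℂ, z ∈ F → z ≠ 0 → v (e z) = 0) ∧ v (e (c - α)) = 1 ∧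
      ∀ β : F, β ≠ α → v (e (c - β)) = 0 := by
  classical
  have hne : ∀ p : Polynomial F, p ≠ 0 → aeval c p ≠ 0 := fun p hp h0 =>
    hp ((transcendental_iff.1 hc) p h0)
  obtain ⟨v, hv⟩ := exists_functional (fun p : {p : Polynomial F // p ≠ 0} => e (aeval c p.1))
    (fun p => ((p.1.rootMultiplicity α : ℕ) : ℚ)) (by
      intro q hq
      rw [Finsupp.linearCombination_apply, Finsupp.sum] at hq ⊢
      obtain ⟨N, m, hN, hm⟩ := exists_denom q.support q
      have h1 : ∑ p ∈ q.support, m p • e (aeval c p.1) = 0 := by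
        have h2 : ∑ p ∈ q.support, m p • e (aeval c p.1) =
            (N : ℚ) • ∑ p ∈ q.support, q p • e (aeval c p.1) := by
          rw [Finset.smul_sum]
          refine Finset.sum_congr rfl fun p hp => ?_
          rw [smul_smul, ← hm p hp, Int.cast_smul_eq_zsmul]
        rw [h2, hq, smul_zero]
      obtain ⟨N', hN', h2⟩ := rel_of_sum q.support (fun p => aeval c p.1)
        (fun p _ => hne p.1 p.2) m h1
      have h3 : ∏ p ∈ q.support, p.1 ^ (m p * N').toNat =
          ∏ p ∈ q.support, p.1 ^ (-(m p * N')).toNat := by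
        have h4 : aeval c (∏ p ∈ q.support, p.1 ^ (m p * N').toNat -
            ∏ p ∈ q.support, p.1 ^ (-(m p * N')).toNat) = 0 := by
          rw [map_sub, map_prod, map_prod, sub_eq_zero]
          simp only [map_pow]
          calc ∏ p ∈ q.support, aeval c p.1 ^ (m p * N').toNat
              = ∏ p ∈ q.support, (aeval c p.1 ^ (m p * N') * aeval c p.1 ^ (-(m p * N')).toNat) :=
                Finset.prod_congr rfl fun p _ => (zpow_toNat (hne p.1 p.2) _).symm
            _ = _ := by rw [Finset.prod_mul_distrib, h2, one_mul]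
        exact sub_eq_zero.1 ((transcendental_iff.1 hc) _ h4)
      have hmult : ∀ k : {p : Polynomial F // p ≠ 0} → ℕ,
          (∏ p ∈ q.support, p.1 ^ k p).rootMultiplicity α =
            ∑ p ∈ q.support, k p * p.1.rootMultiplicity α := by
        intro k
        generalize q.support = s
        induction s using Finset.induction_on with
        | empty => simp
        | insert a s ha ih =>
          rw [Finset.prod_insert ha, Finset.sum_insert ha, rootMultiplicity_mul, ih]
          · congr 1
            rw [← count_roots, Polynomial.roots_pow, Multiset.count_nsmul, count_roots]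
          · exact mul_ne_zero (pow_ne_zero _ a.2)
              (Finset.prod_ne_zero_iff.2 fun p _ => pow_ne_zero _ p.2)
      have h5 := congrArg (rootMultiplicity α) h3
      rw [hmult, hmult] at h5
      have h6 : ∑ p ∈ q.support, (m p * N') * (p.1.rootMultiplicity α : ℤ) = 0 := by
        have h7 : ((∑ p ∈ q.support, (m p * N').toNat * p.1.rootMultiplicity α : ℕ) : ℤ) =
            ((∑ p ∈ q.support, (-(m p * N')).toNat * p.1.rootMultiplicity α : ℕ) : ℤ) := by
          rw [h5]
        push_cast at h7
        rw [← sub_eq_zero, ← Finset.sum_sub_distrib] at h7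
        rw [← h7]
        refine Finset.sum_congr rfl fun p _ => ?_
        rw [← sub_mul]
        congr 1
        generalize m p * (N' : ℤ) = k
        omega
      have h8 : (N : ℚ) * N' * ∑ p ∈ q.support, q p • ((p.1.rootMultiplicity α : ℕ) : ℚ) = 0 := by
        have h9 : ((∑ p ∈ q.support, (m p * N') * (p.1.rootMultiplicity α : ℤ) : ℤ) : ℚ) = 0 := by
          rw [h6]; simp
        rw [← h9]
        push_cast
        rw [Finset.mul_sum]
        refine Finset.sum_congr rfl fun p hp => ?_
        rw [hm p hp, smul_eq_mul]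
        ring
      rcases mul_eq_zero.1 h8 with h9 | h9
      · exfalso
        rcases mul_eq_zero.1 h9 with h10 | h10
        · exact hN.ne' (by exact_mod_cast h10)
        · exact hN'.ne' (by exact_mod_cast h10)
      · exact h9)
  have hX : ∀ β : F, aeval c (X - C β) = c - β := by
    intro β
    rw [map_sub, aeval_X, aeval_C]
    rfl
  refine ⟨v, fun z hz h0 => ?_, ?_, fun β hβ => ?_⟩
  · have h1 := hv ⟨C ⟨z, hz⟩, by
      rw [Ne, C_eq_zero]
      intro h
      exact h0 (congrArg Subtype.val h)⟩
    simp only [aeval_C, rootMultiplicity_C] at h1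
    simpa using h1
  · have h1 := hv ⟨X - C α, X_sub_C_ne_zero α⟩
    simp only [hX] at h1
    rw [h1, rootMultiplicity_X_sub_C_self]
    simp
  · have h1 := hv ⟨X - C β, X_sub_C_ne_zero β⟩
    simp only [hX] at h1
    rw [h1, rootMultiplicity_eq_zero]
    · simp
    · rw [IsRoot, eval_sub, eval_X, eval_C, sub_eq_zero]
      exact fun h => hβ h.symm

/-- the dimension goes up by the number of new independent vectors -/
theorem finrank_sup {V : Type*} [AddCommGroup V] [Module ℚ V] (W : Submodule ℚ V)
    [FiniteDimensional ℚ W] {n : ℕ} (y : Fin n → V) (v : Fin n → (V →ₗ[ℚ] ℚ))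
    (h0 : ∀ i, ∀ w ∈ W, v i w = 0) (h1 : ∀ i, v i (y i) = 1) (h2 : ∀ i j, i ≠ j → v i (y j) = 0) :
    Module.finrank ℚ ↥(W ⊔ Submodule.span ℚ (Set.range y)) = Module.finrank ℚ W + n := by
  classical
  have hv : ∀ (c : Fin n → ℚ) (i : Fin n), v i (∑ j, c j • y j) = c i := by
    intro c i
    rw [map_sum, Finset.sum_eq_single i]
    · rw [map_smul, h1, smul_eq_mul, mul_one]
    · intro j _ hj
      rw [map_smul, h2 i j (Ne.symm hj), smul_zero]
    · intro h; exact absurd (Finset.mem_univ i) h
  have hli : LinearIndependent ℚ y := by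
    rw [Fintype.linearIndependent_iff]
    intro c hc i
    rw [← hv c i, hc, map_zero]
  have hd : Disjoint W (Submodule.span ℚ (Set.range y)) := by
    rw [Submodule.disjoint_def]
    intro x hx hy
    obtain ⟨c, rfl⟩ := (Submodule.mem_span_range_iff_exists_fun ℚ).1 hy
    have hc : ∀ i, c i = 0 := fun i => by rw [← hv c i]; exact h0 i _ hx
    exact Finset.sum_eq_zero fun i _ => by rw [hc, zero_smul]
  have hfs : FiniteDimensional ℚ (Submodule.span ℚ (Set.range y)) :=
    FiniteDimensional.span_of_finite ℚ (Set.finite_range y)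
  have h3 := Submodule.finrank_sup_add_finrank_inf_eq W (Submodule.span ℚ (Set.range y))
  rw [hd.eq_bot, finrank_bot, add_zero] at h3
  rw [h3, finrank_span_eq_card hli, Fintype.card_fin]

end Pool.Agent.E8helper35.ZL
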