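import Mathlib
import Pool.Agent.E8helper35.ZL.Val

set_option autoImplicit false

namespace Pool.Agent.E8helper35.ZL

open Polynomial

/-- the span of the classes of the `a` and `1 - a` -/
def Sp (l : List ℂ) : Submodule ℚ E := Submodule.span ℚ {y | ∃ a ∈ l, y = e a ∨ y = e (1 - a)}

/-- the linearisation of `a + (1 - a) = 1` -/
noncomputable def phi (ℓ : E →ₗ[ℚ] ℂ) (a : ℂ) : ℂ := a * ℓ (e a) + (1 - a) * ℓ (e (1 - a))

theorem mem_Sp {l : List ℂ} {a : ℂ} (h : a ∈ l) : e a ∈ Sp l :=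
  Submodule.subset_span ⟨a, h, Or.inl rfl⟩

theorem mem_Sp' {l : List ℂ} {a : ℂ} (h : a ∈ l) : e (1 - a) ∈ Sp l :=
  Submodule.subset_span ⟨a, h, Or.inr rfl⟩

theorem Sp_le {l : List ℂ} {W : Submodule ℚ E} (h : ∀ a ∈ l, e a ∈ W ∧ e (1 - a) ∈ W) :
    Sp l ≤ W := by
  refine Submodule.span_le.2 ?_
  rintro y ⟨a, ha, rfl | rfl⟩
  · exact (h a ha).1
  · exact (h a ha).2

theorem Sp_mono {l l' : List ℂ} (h : ∀ a ∈ l, a ∈ l') : Sp l ≤ Sp l' :=
  Sp_le fun a ha => ⟨mem_Sp (h a ha), mem_Sp' (h a ha)⟩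

instance (l : List ℂ) : FiniteDimensional ℚ (Sp l) := by
  refine FiniteDimensional.span_of_finite ℚ ?_
  refine Set.Finite.subset
    (((List.finite_toSet l).image e).union ((List.finite_toSet l).image fun a => e (1 - a))) ?_
  rintro y ⟨a, ha, rfl | rfl⟩
  · exact Or.inl ⟨a, ha, rfl⟩
  · exact Or.inr ⟨a, ha, rfl⟩

/-- tuples of elements of `F`, different from `0`, `1`, balanced and transversal -/
structure Adm (F : IntermediateField ℚ ℂ) (D : ℕ) (l : List ℂ) : Prop where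
  mem : ∀ a ∈ l, a ∈ F ∧ a ≠ 0 ∧ a ≠ 1
  good : ∃ B : Finset ℂ, B.card ≤ D ∧ ∀ ℓ : E →ₗ[ℚ] ℂ, (∀ a ∈ l, phi ℓ a = 0) →
    (∀ b ∈ B, ℓ (e b) = 0) → ∀ a ∈ l, ℓ (e a) = 0
  rank : Module.finrank ℚ (Sp l) = l.length + D

theorem kill_Sp {F : IntermediateField ℚ ℂ} {l : List ℂ} (hm : ∀ a ∈ l, a ∈ F ∧ a ≠ 0 ∧ a ≠ 1)
    {M : Type*} [AddCommGroup M] [Module ℚ M]
    (v : E →ₗ[ℚ] M) (hv : ∀ z ∈ F, z ≠ 0 → v (e z) = 0) : ∀ w ∈ Sp l, v w = 0 := by
  have h : Sp l ≤ LinearMap.ker v := Sp_le fun a ha => by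
    obtain ⟨h1, h2, h3⟩ := hm a ha
    exact ⟨hv a h1 h2, hv (1 - a) (sub_mem (one_mem F) h1) (sub_ne_zero.2 (Ne.symm h3))⟩
  exact fun w hw => h hw

theorem kill_of_phi {F : IntermediateField ℚ ℂ} {l : List ℂ}
    (hm : ∀ a ∈ l, a ∈ F ∧ a ≠ 0 ∧ a ≠ 1) (ℓ : E →ₗ[ℚ] ℂ)
    (h1 : ∀ a ∈ l, phi ℓ a = 0) (h2 : ∀ a ∈ l, ℓ (e a) = 0) : ∀ w ∈ Sp l, ℓ w = 0 := by
  have h : Sp l ≤ LinearMap.ker ℓ := Sp_le fun a ha => by
    refine ⟨h2 a ha, ?_⟩
    have h3 := h1 a ha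
    rw [phi, h2 a ha, mul_zero, zero_add] at h3
    exact (mul_eq_zero.1 h3).resolve_left (sub_ne_zero.2 (Ne.symm (hm a ha).2.2))
  exact fun w hw => h hw

theorem finrank_sup_one {V : Type*} [AddCommGroup V] [Module ℚ V] (W : Submodule ℚ V)
    [FiniteDimensional ℚ W] {y : V} (hy : y ∉ W) :
    Module.finrank ℚ ↥(W ⊔ Submodule.span ℚ {y}) = Module.finrank ℚ W + 1 := by
  obtain ⟨f, hf1, hf2⟩ := Submodule.exists_le_ker_of_notMem hy
  have h := finrank_sup W (n := 1) (fun _ => y) (fun _ => (f y)⁻¹ • f)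
    (fun i w hw => by
      have : f w = 0 := hf2 hw
      simp [this])
    (fun i => by
      rw [LinearMap.smul_apply, smul_eq_mul, inv_mul_cancel₀ hf1])
    (fun i j hij => absurd (Subsingleton.elim i j) hij)
  rw [Set.range_const] at h
  exact h

theorem Adm.add {F : IntermediateField ℚ ℂ} {D : ℕ} {l : List ℂ} (h : Adm F D l) {a : ℂ}
    (ha : a ∈ F) (h0 : a ≠ 0) (h1 : a ≠ 1) (hS : e a ∈ Sp l) :
    ∃ l', Adm F D l' ∧ Sp l ≤ Sp l' ∧ e (1 - a) ∈ Sp l' := by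
  by_cases hS' : e (1 - a) ∈ Sp l
  · exact ⟨l, h, le_rfl, hS'⟩
  have hle : Sp l ≤ Sp (a :: l) := Sp_mono fun b hb => List.mem_cons_of_mem a hb
  have heq : Sp (a :: l) = Sp l ⊔ Submodule.span ℚ {e (1 - a)} := by
    refine le_antisymm (Sp_le fun b hb => ?_) (sup_le hle ?_)
    · rcases List.mem_cons.1 hb with rfl | hb
      · exact ⟨Submodule.mem_sup_left hS,
          Submodule.mem_sup_right (Submodule.mem_span_singleton_self _)⟩
      · exact ⟨Submodule.mem_sup_left (mem_Sp hb), Submodule.mem_sup_left (mem_Sp' hb)⟩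
    · rw [Submodule.span_singleton_le_iff_mem]
      exact mem_Sp' List.mem_cons_self
  refine ⟨a :: l, ⟨?_, ?_, ?_⟩, hle, mem_Sp' List.mem_cons_self⟩
  · intro b hb
    rcases List.mem_cons.1 hb with rfl | hb
    · exact ⟨ha, h0, h1⟩
    · exact h.mem b hb
  · obtain ⟨B, hB, hg⟩ := h.good
    refine ⟨B, hB, fun ℓ hp hb => ?_⟩
    have hl := hg ℓ (fun x hx => hp x (List.mem_cons_of_mem a hx)) hb
    intro b hb'
    rcases List.mem_cons.1 hb' with rfl | hb'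
    · exact kill_of_phi h.mem ℓ (fun x hx => hp x (List.mem_cons_of_mem b hx)) hl _ hS
    · exact hl b hb'
  · rw [heq, finrank_sup_one _ hS', h.rank, List.length_cons]
    ring

/-- a tuple can be enlarged so that `z` becomes a unit -/
def Rch (F : IntermediateField ℚ ℂ) (D : ℕ) (l : List ℂ) (z : ℂ) : Prop :=
  z = 0 ∨ (z ∈ F ∧ ∀ l', Adm F D l' → Sp l ≤ Sp l' → ∃ l'', Adm F D l'' ∧ Sp l' ≤ Sp l'' ∧
    e z ∈ Sp l'')

section reach

variable {F : IntermediateField ℚ ℂ} {D : ℕ} {l : List ℂ}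

theorem Rch.mul {x y : ℂ} (hx : Rch F D l x) (hy : Rch F D l y) : Rch F D l (x * y) := by
  by_cases hx0 : x = 0
  · left; rw [hx0, zero_mul]
  by_cases hy0 : y = 0
  · left; rw [hy0, mul_zero]
  obtain ⟨hxF, hx⟩ := hx.resolve_left hx0
  obtain ⟨hyF, hy⟩ := hy.resolve_left hy0
  refine Or.inr ⟨mul_mem hxF hyF, fun l1 h1 hle => ?_⟩
  obtain ⟨l2, h2, hle2, hx2⟩ := hx l1 h1 hle
  obtain ⟨l3, h3, hle3, hy3⟩ := hy l2 h2 (hle.trans hle2)
  exact ⟨l3, h3, hle2.trans hle3, by rw [e_mul hx0 hy0]; exact add_mem (hle3 hx2) hy3⟩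

theorem Rch.inv {x : ℂ} (hx : Rch F D l x) : Rch F D l x⁻¹ := by
  by_cases hx0 : x = 0
  · left; rw [hx0, inv_zero]
  obtain ⟨hxF, hx⟩ := hx.resolve_left hx0
  refine Or.inr ⟨inv_mem hxF, fun l1 h1 hle => ?_⟩
  obtain ⟨l2, h2, hle2, hx2⟩ := hx l1 h1 hle
  exact ⟨l2, h2, hle2, by rw [e_inv hx0]; exact neg_mem hx2⟩

theorem Rch.neg {x : ℂ} (hx : Rch F D l x) : Rch F D l (-x) := by
  by_cases hx0 : x = 0
  · left; rw [hx0, neg_zero]
  obtain ⟨hxF, hx⟩ := hx.resolve_left hx0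
  refine Or.inr ⟨neg_mem hxF, fun l1 h1 hle => ?_⟩
  obtain ⟨l2, h2, hle2, hx2⟩ := hx l1 h1 hle
  exact ⟨l2, h2, hle2, by rw [e_neg hx0]; exact hx2⟩

theorem Rch.one : Rch F D l 1 :=
  Or.inr ⟨one_mem F, fun l1 h1 _ => ⟨l1, h1, le_rfl, by rw [e_one]; exact zero_mem _⟩⟩

theorem Rch.add {x y : ℂ} (hx : Rch F D l x) (hy : Rch F D l y) : Rch F D l (x + y) := by
  by_cases hx0 : x = 0
  · rw [hx0, zero_add]; exact hy
  by_cases hy0 : y = 0
  · rw [hy0, add_zero]; exact hx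
  by_cases hxy : x + y = 0
  · left; exact hxy
  obtain ⟨hxF, hx⟩ := hx.resolve_left hx0
  obtain ⟨hyF, hy⟩ := hy.resolve_left hy0
  refine Or.inr ⟨add_mem hxF hyF, fun l1 h1 hle => ?_⟩
  obtain ⟨l2, h2, hle2, hx2⟩ := hx l1 h1 hle
  obtain ⟨l3, h3, hle3, hy3⟩ := hy l2 h2 (hle.trans hle2)
  have hx3 := hle3 hx2
  have hnx : -x ≠ 0 := neg_ne_zero.2 hx0
  have hsum : 1 - (-x / y) = (x + y) / y := by
    field_simp
    ring
  obtain ⟨l4, h4, hle4, h5⟩ := h3.add (a := -x / y) (div_mem (neg_mem hxF) hyF)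
    (div_ne_zero hnx hy0) (by
      intro h
      rw [div_eq_one_iff_eq hy0] at h
      apply hxy
      rw [← h]; ring)
    (by rw [e_div hnx hy0, e_neg hx0]; exact sub_mem hx3 hy3)
  refine ⟨l4, h4, hle2.trans (hle3.trans hle4), ?_⟩
  rw [hsum, e_div hxy hy0] at h5
  have h6 := add_mem h5 (hle4 hy3)
  rwa [sub_add_cancel] at h6

theorem Rch.nat (n : ℕ) : Rch F D l (n : ℂ) := by
  induction n with
  | zero => left; simp
  | succ n ih =>
    push_cast
    exact ih.add Rch.one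

theorem Rch.rat (q : ℚ) : Rch F D l (q : ℂ) := by
  have h1 : (q : ℂ) = (q.num : ℂ) * ((q.den : ℂ))⁻¹ := by
    rw [← div_eq_mul_inv]
    exact Rat.cast_def q
  rw [h1]
  refine Rch.mul ?_ (Rch.nat _).inv
  rcases Int.eq_nat_or_neg q.num with ⟨n, h | h⟩
  · rw [h]; push_cast; exact Rch.nat n
  · rw [h]; push_cast; exact (Rch.nat n).neg

theorem rch_all (hF : F ≤ IntermediateField.adjoin ℚ {z : ℂ | z ∈ F ∧ z ≠ 0 ∧ e z ∈ Sp l})
    (z : ℂ) (hz : z ∈ F) : Rch F D l z := by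
  refine IntermediateField.adjoin_induction (F := ℚ) (p := fun x _ => Rch F D l x) ?_ ?_ ?_ ?_ ?_
    (hF hz)
  · rintro x ⟨h1, h2, h3⟩
    exact Or.inr ⟨h1, fun l1 hl1 hle => ⟨l1, hl1, le_rfl, hle h3⟩⟩
  · intro q
    exact Rch.rat q
  · intro x y _ _ hx hy
    exact hx.add hy
  · intro x _ hx
    exact hx.inv
  · intro x y _ _ hx hy
    exact hx.mul hy

theorem reach_finset (hF : F ≤ IntermediateField.adjoin ℚ {z : ℂ | z ∈ F ∧ z ≠ 0 ∧ e z ∈ Sp l})
    (hl : Adm F D l) (T : Finset ℂ) (hT : ∀ z ∈ T, z ∈ F) :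
    ∃ l', Adm F D l' ∧ Sp l ≤ Sp l' ∧ ∀ z ∈ T, e z ∈ Sp l' := by
  classical
  induction T using Finset.induction_on with
  | empty => exact ⟨l, hl, le_rfl, by simp⟩
  | insert a s ha ih =>
    obtain ⟨l1, h1, hle1, hs⟩ := ih fun z hz => hT z (Finset.mem_insert_of_mem hz)
    rcases rch_all (D := D) hF a (hT a (Finset.mem_insert_self _ _)) with h0 | ⟨-, h2⟩
    · refine ⟨l1, h1, hle1, fun z hz => ?_⟩
      rcases Finset.mem_insert.1 hz with rfl | hz
      · rw [h0, e, dif_neg (by simp)]; exact zero_mem _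
      · exact hs z hz
    · obtain ⟨l2, h3, hle2, h4⟩ := h2 l1 h1 hle1
      refine ⟨l2, h3, hle1.trans hle2, fun z hz => ?_⟩
      rcases Finset.mem_insert.1 hz with rfl | hz
      · exact h4
      · exact hle2 (hs z hz)

end reach

theorem adm_nil (F : IntermediateField ℚ ℂ) : Adm F 0 [] := by
  refine ⟨by simp, ⟨∅, le_rfl, by simp⟩, ?_⟩
  have h : Sp [] = ⊥ := by
    rw [eq_bot_iff]
    exact Sp_le (by simp)
  rw [h, finrank_bot]
  simp

theorem Adm.mono {F F' : IntermediateField ℚ ℂ} {D : ℕ} {l : List ℂ} (h : Adm F D l)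
    (hF : F ≤ F') : Adm F' D l :=
  ⟨fun a ha => ⟨hF (h.mem a ha).1, (h.mem a ha).2⟩, h.good, h.rank⟩

theorem transc_ne {F : IntermediateField ℚ ℂ} {c : ℂ} (hc : Transcendental F c) {z : ℂ}
    (hz : z ∈ F) : c ≠ z := by
  rintro rfl
  exact hc (isAlgebraic_algebraMap (⟨c, hz⟩ : F))

theorem e_one_sub {c : ℂ} (hc : c ≠ 1) : e (1 - c) = e (c - 1) := by
  rw [← e_neg (sub_ne_zero.2 hc), neg_sub]

theorem Adm.trans {F F' : IntermediateField ℚ ℂ} {D : ℕ} {l : List ℂ} (h : Adm F D l) {c : ℂ}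
    (hc : Transcendental F c) (hF : F ≤ F') (hcF : c ∈ F') : Adm F' (D + 1) (c :: l) := by
  classical
  have hc0 : c ≠ 0 := transc_ne hc (zero_mem F)
  have hc1 : c ≠ 1 := transc_ne hc (one_mem F)
  refine ⟨?_, ?_, ?_⟩
  · intro b hb
    rcases List.mem_cons.1 hb with rfl | hb
    · exact ⟨hcF, hc0, hc1⟩
    · exact ⟨hF (h.mem b hb).1, (h.mem b hb).2⟩
  · obtain ⟨B, hB, hg⟩ := h.good
    refine ⟨insert c B, (Finset.card_insert_le _ _).trans (by omega), fun ℓ hp hb a ha => ?_⟩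
    rcases List.mem_cons.1 ha with rfl | ha
    · exact hb a (Finset.mem_insert_self _ _)
    · exact hg ℓ (fun x hx => hp x (List.mem_cons_of_mem c hx))
        (fun b hb' => hb b (Finset.mem_insert_of_mem hb')) a ha
  · obtain ⟨v0, h00, h01, h02⟩ := exists_val F hc 0
    obtain ⟨v1, h10, h11, h12⟩ := exists_val F hc 1
    have h1 := finrank_sup (Sp l) (n := 2) ![e c, e (c - 1)] ![v0, v1]
      (by
        intro i
        fin_cases i
        · exact kill_Sp h.mem v0 h00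
        · exact kill_Sp h.mem v1 h10)
      (by
        intro i
        fin_cases i
        · simpa using h01
        · simpa using h11)
      (by
        intro i j hij
        fin_cases i <;> fin_cases j
        · exact absurd rfl hij
        · simpa using h02 1 one_ne_zero
        · simpa using h12 0 zero_ne_one
        · exact absurd rfl hij)
    have heq : Sp (c :: l) = Sp l ⊔ Submodule.span ℚ (Set.range ![e c, e (c - 1)]) := by
      refine le_antisymm (Sp_le fun b hb => ?_) (sup_le (Sp_mono fun b hb =>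
        List.mem_cons_of_mem c hb) (Submodule.span_le.2 ?_))
      · rcases List.mem_cons.1 hb with rfl | hb
        · refine ⟨Submodule.mem_sup_right (Submodule.subset_span ⟨0, rfl⟩), ?_⟩
          rw [e_one_sub hc1]
          exact Submodule.mem_sup_right (Submodule.subset_span ⟨1, rfl⟩)
        · exact ⟨Submodule.mem_sup_left (mem_Sp hb), Submodule.mem_sup_left (mem_Sp' hb)⟩
      · rintro _ ⟨i, rfl⟩
        fin_cases i
        · exact mem_Sp List.mem_cons_self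
        · have := mem_Sp' (l := c :: l) (a := c) List.mem_cons_self
          rw [e_one_sub hc1] at this
          exact this
    rw [heq, h1, h.rank, List.length_cons]
    ring

end Pool.Agent.E8helper35.ZL
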