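import Mathlib
import Pool.Agent.E8helper35.ZL.Tup

set_option autoImplicit false

namespace Pool.Agent.E8helper35.ZL

open Polynomial

section chain

variable {F F2 F3 : IntermediateField ℚ ℂ} {D : ℕ} {l : List ℂ} {θ c c' : ℂ}

/-- the partial sums of the minimal equation -/
noncomputable def sig (P : Polynomial F) (θ : ℂ) (i : ℕ) : ℂ :=
  ∑ j ∈ Finset.range i, ((P.coeff j : F) : ℂ) * θ ^ j

/-- the partial sums of the derivative -/
noncomputable def dsig (P : Polynomial F) (θ : ℂ) (i : ℕ) : ℂ :=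
  ∑ j ∈ Finset.range i, (j : ℂ) * (((P.coeff j : F) : ℂ) * θ ^ j)

theorem sig_ne {i i' : ℕ} (hi : i < (minpoly F θ).natDegree) (h0 : (minpoly F θ).coeff i ≠ 0)
    (hi' : i' ≤ i) : sig (minpoly F θ) θ (i + 1) ≠ sig (minpoly F θ) θ i' := by
  classical
  intro h
  let Q : Polynomial F := ∑ j ∈ Finset.Ico i' (i + 1), monomial j ((minpoly F θ).coeff j)
  have hQ : aeval θ Q = 0 := by
    have h1 : aeval θ Q = ∑ j ∈ Finset.Ico i' (i + 1), (((minpoly F θ).coeff j : F) : ℂ) * θ ^ j := by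
      rw [map_sum]
      refine Finset.sum_congr rfl fun j _ => ?_
      rw [aeval_monomial]
      rfl
    rw [h1, Finset.sum_Ico_eq_sub _ (by omega)]
    exact sub_eq_zero.2 h
  have hc : Q.coeff i = (minpoly F θ).coeff i := by
    rw [finsetSum_coeff, Finset.sum_eq_single i]
    · rw [coeff_monomial, if_pos rfl]
    · intro j _ hj
      rw [coeff_monomial, if_neg hj]
    · intro hn
      exact absurd (Finset.mem_Ico.2 ⟨hi', by omega⟩) hn
  have hQ0 : Q ≠ 0 := by
    intro hz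
    rw [hz, coeff_zero] at hc
    exact h0 hc.symm
  have hdeg : Q.natDegree ≤ i := by
    refine natDegree_sum_le_of_forall_le _ _ fun j hj => ?_
    refine (natDegree_monomial_le _).trans ?_
    have := (Finset.mem_Ico.1 hj).2
    omega
  have h2 := minpoly.degree_le_of_ne_zero F θ hQ0 hQ
  have h3 : (minpoly F θ).natDegree ≤ Q.natDegree := natDegree_le_natDegree h2
  omega

/-- the data of the construction -/
structure Dat (F F1 F2 F3 : IntermediateField ℚ ℂ) (D : ℕ) (l : List ℂ) (θ c c' : ℂ) : Prop where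
  h01 : F ≤ F1
  h12 : F1 ≤ F2
  h23 : F2 ≤ F3
  hθ : θ ∈ F1
  hθ0 : θ ≠ 0
  hc'2 : c' ∈ F2
  hc3 : c ∈ F3
  hc' : Transcendental F1 c'
  hc : Transcendental F2 c
  adm : Adm F D l
  alg : IsIntegral F θ
  coef : ∀ i, (minpoly F θ).coeff i ≠ 0 → e (((minpoly F θ).coeff i : F) : ℂ) ∈ Sp l
  nm : e θ ∉ Sp l

variable {F1 : IntermediateField ℚ ℂ}

theorem sig_mem (d : Dat F F1 F2 F3 D l θ c c') (i : ℕ) : sig (minpoly F θ) θ i ∈ F1 :=
  sum_mem fun j _ => mul_mem (d.h01 (SetLike.coe_mem _)) (pow_mem d.hθ j)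

/-- the sums with the parameters -/
noncomputable def yy (F : IntermediateField ℚ ℂ) (θ c c' : ℂ) (i : ℕ) : ℂ :=
  c + c' * sig (minpoly F θ) θ i

theorem yy_zero : yy F θ c c' 0 = c := by simp [yy, sig]

theorem yy_mem (d : Dat F F1 F2 F3 D l θ c c') (i : ℕ) : yy F θ c c' i ∈ F3 :=
  add_mem d.hc3 (d.h23 (mul_mem d.hc'2 (d.h12 (sig_mem d i))))

theorem yy_ne (d : Dat F F1 F2 F3 D l θ c c') (i : ℕ) : yy F θ c c' i ≠ 0 := by
  intro h
  refine transc_ne d.hc (z := -(c' * sig (minpoly F θ) θ i))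
    (neg_mem (mul_mem d.hc'2 (d.h12 (sig_mem d i)))) ?_
  rw [yy] at h
  linear_combination h

theorem c'_ne (d : Dat F F1 F2 F3 D l θ c c') : c' ≠ 0 := transc_ne d.hc' (zero_mem _)

theorem c_ne (d : Dat F F1 F2 F3 D l θ c c') : c ≠ 0 := transc_ne d.hc (zero_mem _)

theorem yy_succ (i : ℕ) : yy F θ c c' (i + 1) =
    yy F θ c c' i + c' * ((((minpoly F θ).coeff i : F) : ℂ) * θ ^ i) := by
  rw [yy, yy, sig, sig, Finset.sum_range_succ]
  ring

theorem dsig_succ (i : ℕ) : dsig (minpoly F θ) θ (i + 1) =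
    dsig (minpoly F θ) θ i + (i : ℂ) * ((((minpoly F θ).coeff i : F) : ℂ) * θ ^ i) := by
  rw [dsig, dsig, Finset.sum_range_succ]

/-- the properties of the lists of the chain -/
structure Inv (F F2 F3 : IntermediateField ℚ ℂ) (D : ℕ) (l : List ℂ) (θ c c' : ℂ)
    (B : Finset ℂ) (i : ℕ) (L : List ℂ) : Prop where
  mem : ∀ a ∈ L, a ∈ F3 ∧ a ≠ 0 ∧ a ≠ 1
  ymem : e (yy F θ c c' i) ∈ Sp L
  hl : ∀ a ∈ l, a ∈ L
  hθ : e θ ∈ Sp L
  hc : e c ∈ Sp L
  hc' : e c' ∈ Sp L
  good : ∀ ℓ : E →ₗ[ℚ] ℂ, (∀ a ∈ L, phi ℓ a = 0) → (∀ b ∈ B, ℓ (e b) = 0) → ℓ (e c) = 0 →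
    ℓ (e c') = 0 → yy F θ c c' i * ℓ (e (yy F θ c c' i)) =
      c' * ℓ (e θ) * dsig (minpoly F θ) θ i ∧ (ℓ (e θ) = 0 → ∀ a ∈ L, ℓ (e a) = 0)
  rank : Module.finrank ℚ (Sp L) = L.length + D + 3
  kill : ∀ v : E →ₗ[ℚ] ℚ, (∀ z ∈ F2, z ≠ 0 → v (e z) = 0) → v (e c) = 0 → v (e (c - 1)) = 0 →
    (∀ j ≤ i, v (e (yy F θ c c' j)) = 0) → ∀ w ∈ Sp L, v w = 0

theorem inv_zero (d : Dat F F1 F2 F3 D l θ c c') (B : Finset ℂ)
    (hB : ∀ ℓ : E →ₗ[ℚ] ℂ, (∀ a ∈ l, phi ℓ a = 0) → (∀ b ∈ B, ℓ (e b) = 0) →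
      ∀ a ∈ l, ℓ (e a) = 0) :
    Inv F F2 F3 D l θ c c' B 0 (θ / c' :: c :: c' :: l) := by
  classical
  have hc0 := c_ne d
  have hc'0 := c'_ne d
  have hc1 : c ≠ 1 := transc_ne d.hc (one_mem _)
  have hc'1 : c' ≠ 1 := transc_ne d.hc' (one_mem _)
  have hc'θ : c' ≠ θ := transc_ne d.hc' d.hθ
  have hθ1 : θ ≠ 1 := by
    rintro rfl
    exact d.nm (by rw [e_one]; exact zero_mem _)
  have hsub : c' - θ ≠ 0 := sub_ne_zero.2 hc'θ
  have he1 : e (θ / c') = e θ - e c' := e_div d.hθ0 hc'0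
  have he2 : e (1 - θ / c') = e (c' - θ) - e c' := by
    have h : 1 - θ / c' = (c' - θ) / c' := by field_simp
    rw [h, e_div hsub hc'0]
  -- the successive spaces
  obtain ⟨v0, h00, h01, h02⟩ := exists_val F1 d.hc' 0
  obtain ⟨v1, h10, h11, h12⟩ := exists_val F1 d.hc' 1
  obtain ⟨v2, h20, h21, h22⟩ := exists_val F1 d.hc' ⟨θ, d.hθ⟩
  have hmem1 : ∀ a ∈ l, a ∈ F1 ∧ a ≠ 0 ∧ a ≠ 1 := fun a ha =>
    ⟨d.h01 (d.adm.mem a ha).1, (d.adm.mem a ha).2⟩
  have hk1 : ∀ v : E →ₗ[ℚ] ℚ, (∀ z ∈ F1, z ≠ 0 → v (e z) = 0) →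
      ∀ w ∈ Sp l ⊔ Submodule.span ℚ {e θ}, v w = 0 := by
    intro v hv w hw
    have h : Sp l ⊔ Submodule.span ℚ {e θ} ≤ LinearMap.ker v := by
      refine sup_le (fun w hw => kill_Sp hmem1 v hv w hw) ?_
      rw [Submodule.span_singleton_le_iff_mem]
      exact hv θ d.hθ d.hθ0
    exact h hw
  have hr1 := finrank_sup_one (Sp l) d.nm
  have hθ01 : (⟨θ, d.hθ⟩ : F1) ≠ 0 := fun h => d.hθ0 (congrArg Subtype.val h)
  have hθ11 : (⟨θ, d.hθ⟩ : F1) ≠ 1 := fun h => hθ1 (congrArg Subtype.val h)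
  have hr2 := finrank_sup (Sp l ⊔ Submodule.span ℚ {e θ}) (n := 3)
    ![e c', e (c' - 1), e (c' - θ)] ![v0, v1, v2]
    (by
      intro i
      fin_cases i
      · exact hk1 v0 h00
      · exact hk1 v1 h10
      · exact hk1 v2 h20)
    (by
      intro i
      fin_cases i
      · simpa using h01
      · simpa using h11
      · simpa using h21)
    (by
      intro i j hij
      fin_cases i <;> fin_cases j
      · exact absurd rfl hij
      · simpa using h02 1 one_ne_zero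
      · simpa using h02 ⟨θ, d.hθ⟩ hθ01
      · simpa using h12 0 zero_ne_one
      · exact absurd rfl hij
      · simpa using h12 ⟨θ, d.hθ⟩ hθ11
      · simpa using h22 0 (Ne.symm hθ01)
      · simpa using h22 1 (Ne.symm hθ11)
      · exact absurd rfl hij)
  set W2 := Sp l ⊔ Submodule.span ℚ {e θ} ⊔
    Submodule.span ℚ (Set.range ![e c', e (c' - 1), e (c' - θ)]) with hW2
  haveI hfd : FiniteDimensional ℚ W2 := by
    haveI : FiniteDimensional ℚ (Submodule.span ℚ (Set.range ![e c', e (c' - 1), e (c' - θ)])) :=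
      FiniteDimensional.span_of_finite ℚ (Set.finite_range _)
    rw [hW2]
    infer_instance
  obtain ⟨u0, g00, g01, g02⟩ := exists_val F2 d.hc 0
  obtain ⟨u1, g10, g11, g12⟩ := exists_val F2 d.hc 1
  have hk2 : ∀ v : E →ₗ[ℚ] ℚ, (∀ z ∈ F2, z ≠ 0 → v (e z) = 0) → ∀ w ∈ W2, v w = 0 := by
    intro v hv w hw
    have h : W2 ≤ LinearMap.ker v := by
      refine sup_le (fun w hw => hk1 v (fun z hz => hv z (d.h12 hz)) w hw) ?_
      refine Submodule.span_le.2 ?_
      rintro _ ⟨i, rfl⟩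
      fin_cases i
      · exact hv c' d.hc'2 hc'0
      · exact hv (c' - 1) (sub_mem d.hc'2 (one_mem _)) (sub_ne_zero.2 hc'1)
      · exact hv (c' - θ) (sub_mem d.hc'2 (d.h12 d.hθ)) hsub
    exact h hw
  have hr3 := finrank_sup W2 (n := 2) ![e c, e (c - 1)] ![u0, u1]
    (by
      intro i
      fin_cases i
      · exact hk2 u0 g00
      · exact hk2 u1 g10)
    (by
      intro i
      fin_cases i
      · simpa using g01
      · simpa using g11)
    (by
      intro i j hij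
      fin_cases i <;> fin_cases j
      · exact absurd rfl hij
      · simpa using g02 1 one_ne_zero
      · simpa using g12 0 zero_ne_one
      · exact absurd rfl hij)
  -- memberships in the span of the list
  have m1 : e c ∈ Sp (θ / c' :: c :: c' :: l) := mem_Sp (by simp)
  have m2 : e (c - 1) ∈ Sp (θ / c' :: c :: c' :: l) := by
    rw [← e_one_sub hc1]; exact mem_Sp' (by simp)
  have m3 : e c' ∈ Sp (θ / c' :: c :: c' :: l) := mem_Sp (by simp)
  have m4 : e (c' - 1) ∈ Sp (θ / c' :: c :: c' :: l) := by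
    rw [← e_one_sub hc'1]; exact mem_Sp' (by simp)
  have m5 : e θ ∈ Sp (θ / c' :: c :: c' :: l) := by
    have h := mem_Sp (l := θ / c' :: c :: c' :: l) (a := θ / c') List.mem_cons_self
    rw [he1] at h
    have h' := add_mem h m3
    rwa [sub_add_cancel] at h'
  have m6 : e (c' - θ) ∈ Sp (θ / c' :: c :: c' :: l) := by
    have h := mem_Sp' (l := θ / c' :: c :: c' :: l) (a := θ / c') List.mem_cons_self
    rw [he2] at h
    have h' := add_mem h m3
    rwa [sub_add_cancel] at h'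
  have heq : Sp (θ / c' :: c :: c' :: l) =
      W2 ⊔ Submodule.span ℚ (Set.range ![e c, e (c - 1)]) := by
    have n1 : e c ∈ W2 ⊔ Submodule.span ℚ (Set.range ![e c, e (c - 1)]) :=
      Submodule.mem_sup_right (Submodule.subset_span ⟨0, rfl⟩)
    have n2 : e (c - 1) ∈ W2 ⊔ Submodule.span ℚ (Set.range ![e c, e (c - 1)]) :=
      Submodule.mem_sup_right (Submodule.subset_span ⟨1, rfl⟩)
    have n3 : e c' ∈ W2 ⊔ Submodule.span ℚ (Set.range ![e c, e (c - 1)]) :=
      Submodule.mem_sup_left (Submodule.mem_sup_right (Submodule.subset_span ⟨0, rfl⟩))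
    have n4 : e (c' - 1) ∈ W2 ⊔ Submodule.span ℚ (Set.range ![e c, e (c - 1)]) :=
      Submodule.mem_sup_left (Submodule.mem_sup_right (Submodule.subset_span ⟨1, rfl⟩))
    have n6 : e (c' - θ) ∈ W2 ⊔ Submodule.span ℚ (Set.range ![e c, e (c - 1)]) :=
      Submodule.mem_sup_left (Submodule.mem_sup_right (Submodule.subset_span ⟨2, rfl⟩))
    have n5 : e θ ∈ W2 ⊔ Submodule.span ℚ (Set.range ![e c, e (c - 1)]) :=
      Submodule.mem_sup_left (Submodule.mem_sup_left (Submodule.mem_sup_right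
        (Submodule.mem_span_singleton_self _)))
    have n7 : Sp l ≤ W2 ⊔ Submodule.span ℚ (Set.range ![e c, e (c - 1)]) :=
      (le_sup_left.trans le_sup_left).trans le_sup_left
    refine le_antisymm (Sp_le fun b hb => ?_) (sup_le (sup_le (sup_le ?_ ?_) ?_) ?_)
    · rcases List.mem_cons.1 hb with rfl | hb
      · rw [he1, he2]
        exact ⟨sub_mem n5 n3, sub_mem n6 n3⟩
      rcases List.mem_cons.1 hb with rfl | hb
      · rw [e_one_sub hc1]; exact ⟨n1, n2⟩
      rcases List.mem_cons.1 hb with rfl | hb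
      · rw [e_one_sub hc'1]; exact ⟨n3, n4⟩
      · exact ⟨n7 (mem_Sp hb), n7 (mem_Sp' hb)⟩
    · exact Sp_mono fun b hb => by simp [hb]
    · rw [Submodule.span_singleton_le_iff_mem]; exact m5
    · refine Submodule.span_le.2 ?_
      rintro _ ⟨i, rfl⟩
      fin_cases i
      · exact m3
      · exact m4
      · exact m6
    · refine Submodule.span_le.2 ?_
      rintro _ ⟨i, rfl⟩
      fin_cases i
      · exact m1
      · exact m2
  refine ⟨?_, by rw [yy_zero]; exact m1, fun a ha => by simp [ha], m5, m1, m3, ?_, ?_, ?_⟩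
  · intro a ha
    rcases List.mem_cons.1 ha with rfl | ha
    · refine ⟨d.h23 (div_mem (d.h12 d.hθ) d.hc'2), div_ne_zero d.hθ0 hc'0, fun h => ?_⟩
      rw [div_eq_one_iff_eq hc'0] at h
      exact hc'θ h.symm
    rcases List.mem_cons.1 ha with rfl | ha
    · exact ⟨d.hc3, hc0, hc1⟩
    rcases List.mem_cons.1 ha with rfl | ha
    · exact ⟨d.h23 d.hc'2, hc'0, hc'1⟩
    · exact ⟨d.h23 (d.h12 (hmem1 a ha).1), (hmem1 a ha).2⟩
  · intro ℓ hp hb hcz hc'z
    refine ⟨?_, fun hθz a ha => ?_⟩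
    · rw [yy_zero, hcz]
      simp [dsig]
    · rcases List.mem_cons.1 ha with rfl | ha
      · rw [he1, map_sub, hθz, hc'z, sub_zero]
      rcases List.mem_cons.1 ha with rfl | ha
      · exact hcz
      rcases List.mem_cons.1 ha with rfl | ha
      · exact hc'z
      · exact hB ℓ (fun x hx => hp x (by simp [hx])) hb a ha
  · rw [heq, hr3, hr2, hr1, d.adm.rank]
    simp only [List.length_cons]
    ring
  · intro v hv hvc hvc1 _ w hw
    rw [heq] at hw
    have h : W2 ⊔ Submodule.span ℚ (Set.range ![e c, e (c - 1)]) ≤ LinearMap.ker v := by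
      refine sup_le (fun w hw => hk2 v hv w hw) (Submodule.span_le.2 ?_)
      rintro _ ⟨i, rfl⟩
      fin_cases i
      · exact hvc
      · exact hvc1
    exact h hw

theorem inv_succ (d : Dat F F1 F2 F3 D l θ c c') (B : Finset ℂ)
    (hB : ∀ ℓ : E →ₗ[ℚ] ℂ, (∀ a ∈ l, phi ℓ a = 0) → (∀ b ∈ B, ℓ (e b) = 0) →
      ∀ a ∈ l, ℓ (e a) = 0) {i : ℕ} (hi : i < (minpoly F θ).natDegree) {L : List ℂ}
    (hL : Inv F F2 F3 D l θ c c' B i L) : ∃ L', Inv F F2 F3 D l θ c c' B (i + 1) L' := by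
  classical
  by_cases hp : (minpoly F θ).coeff i = 0
  · refine ⟨L, ?_⟩
    have hy : yy F θ c c' (i + 1) = yy F θ c c' i := by rw [yy_succ, hp]; simp
    have hd : dsig (minpoly F θ) θ (i + 1) = dsig (minpoly F θ) θ i := by
      rw [dsig_succ, hp]; simp
    refine ⟨hL.mem, by rw [hy]; exact hL.ymem, hL.hl, hL.hθ, hL.hc, hL.hc', ?_, hL.rank, ?_⟩
    · rw [hy, hd]; exact hL.good
    · intro v h1 h2 h3 h4
      exact hL.kill v h1 h2 h3 fun j hj => h4 j (by omega)
  set p : ℂ := (((minpoly F θ).coeff i : F) : ℂ) with hpdef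
  have hp0 : p ≠ 0 := fun h => hp (Subtype.ext h)
  have hc'0 := c'_ne d
  have hθi : θ ^ i ≠ 0 := pow_ne_zero i d.hθ0
  have hz0 : c' * (p * θ ^ i) ≠ 0 := mul_ne_zero hc'0 (mul_ne_zero hp0 hθi)
  have hy0 := yy_ne d i
  have hy1 := yy_ne d (i + 1)
  have hys : yy F θ c c' (i + 1) = yy F θ c c' i + c' * (p * θ ^ i) := yy_succ i
  set a : ℂ := -(c' * (p * θ ^ i)) / yy F θ c c' i with hadef
  have hone : 1 - a = yy F θ c c' (i + 1) / yy F θ c c' i := by
    rw [hys, hadef]; field_simp; ring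
  have hea : e a = e c' + (e p + i • e θ) - e (yy F θ c c' i) := by
    rw [hadef, e_div (neg_ne_zero.2 hz0) hy0, e_neg hz0, e_mul hc'0 (mul_ne_zero hp0 hθi),
      e_mul hp0 hθi, e_pow d.hθ0]
  have he1a : e (1 - a) = e (yy F θ c c' (i + 1)) - e (yy F θ c c' i) := by
    rw [hone, e_div hy1 hy0]
  have hlL : Sp l ≤ Sp L := Sp_mono hL.hl
  have hepl : e p ∈ Sp l := d.coef i hp
  have heaL : e a ∈ Sp L := by
    rw [hea]
    exact sub_mem (add_mem hL.hc' (add_mem (hlL hepl) (Submodule.smul_of_tower_mem _ i hL.hθ)))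
      hL.ymem
  have hle : Sp L ≤ Sp (a :: L) := Sp_mono fun b hb => List.mem_cons_of_mem a hb
  have hyL : e (yy F θ c c' (i + 1)) ∈ Sp (a :: L) := by
    have h1 := mem_Sp' (l := a :: L) (a := a) List.mem_cons_self
    rw [he1a] at h1
    have h2 := add_mem h1 (hle hL.ymem)
    rwa [sub_add_cancel] at h2
  -- the valuation
  have hαmem : ∀ j, -(c' * sig (minpoly F θ) θ j) ∈ F2 := fun j =>
    neg_mem (mul_mem d.hc'2 (d.h12 (sig_mem d j)))
  obtain ⟨v, hv0, hv1, hv2⟩ := exists_val F2 d.hc ⟨_, hαmem (i + 1)⟩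
  have hyyα : ∀ j, yy F θ c c' j = c - -(c' * sig (minpoly F θ) θ j) := fun j => by
    rw [yy]; ring
  have hsig0 : sig (minpoly F θ) θ (i + 1) ≠ 0 := by
    have h := sig_ne hi hp (Nat.zero_le i)
    simpa [sig] using h
  have hvc : v (e c) = 0 := by
    have h := hv2 0 (by
      intro h
      have h' := congrArg Subtype.val h
      have h'' : (0 : ℂ) = -(c' * sig (minpoly F θ) θ (i + 1)) := h'
      exact mul_ne_zero hc'0 hsig0 (by linear_combination h''))
    simpa using h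
  have hvc1 : v (e (c - 1)) = 0 := by
    have h := hv2 1 (by
      intro h
      have h' := congrArg Subtype.val h
      have h'' : (1 : ℂ) = -(c' * sig (minpoly F θ) θ (i + 1)) := h'
      refine transc_ne d.hc' (z := -(sig (minpoly F θ) θ (i + 1))⁻¹)
        (neg_mem (inv_mem (sig_mem d _))) ?_
      field_simp
      linear_combination h'')
    simpa using h
  have hvy : ∀ j ≤ i, v (e (yy F θ c c' j)) = 0 := by
    intro j hj
    rw [hyyα]
    refine hv2 ⟨_, hαmem j⟩ ?_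
    intro h
    have h' : -(c' * sig (minpoly F θ) θ j) = -(c' * sig (minpoly F θ) θ (i + 1)) :=
      congrArg Subtype.val h
    exact sig_ne hi hp hj (mul_left_cancel₀ hc'0 (neg_injective h')).symm
  have hkill : ∀ w ∈ Sp L, v w = 0 := hL.kill v hv0 hvc hvc1 hvy
  have hynot : e (yy F θ c c' (i + 1)) ∉ Sp L := by
    intro h
    have h1 := hkill _ h
    rw [hyyα] at h1
    rw [hv1] at h1
    exact one_ne_zero h1
  have heq : Sp (a :: L) = Sp L ⊔ Submodule.span ℚ {e (yy F θ c c' (i + 1))} := by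
    refine le_antisymm (Sp_le fun b hb => ?_) (sup_le hle ?_)
    · rcases List.mem_cons.1 hb with rfl | hb
      · refine ⟨Submodule.mem_sup_left heaL, ?_⟩
        rw [he1a]
        exact sub_mem (Submodule.mem_sup_right (Submodule.mem_span_singleton_self _))
          (Submodule.mem_sup_left hL.ymem)
      · exact ⟨Submodule.mem_sup_left (mem_Sp hb), Submodule.mem_sup_left (mem_Sp' hb)⟩
    · rw [Submodule.span_singleton_le_iff_mem]
      exact hyL
  have ha0 : a ≠ 0 := div_ne_zero (neg_ne_zero.2 hz0) hy0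
  have ha1 : a ≠ 1 := by
    intro h
    rw [h, sub_self] at hone
    exact div_ne_zero hy1 hy0 hone.symm
  refine ⟨a :: L, ⟨?_, hyL, fun b hb => List.mem_cons_of_mem a (hL.hl b hb), hle hL.hθ, hle hL.hc,
    hle hL.hc', ?_, ?_, ?_⟩⟩
  · intro b hb
    rcases List.mem_cons.1 hb with rfl | hb
    · refine ⟨div_mem (neg_mem (d.h23 (mul_mem d.hc'2 (d.h12 (mul_mem (d.h01 ?_)
        (pow_mem d.hθ i)))))) (yy_mem d i), ha0, ha1⟩
      exact SetLike.coe_mem _
    · exact hL.mem b hb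
  · intro ℓ hp' hb hcz hc'z
    have hpL : ∀ x ∈ L, phi ℓ x = 0 := fun x hx => hp' x (List.mem_cons_of_mem a hx)
    obtain ⟨h1, h2⟩ := hL.good ℓ hpL hb hcz hc'z
    have hlz : ∀ w ∈ Sp l, ℓ w = 0 := kill_of_phi d.adm.mem ℓ
      (fun x hx => hpL x (hL.hl x hx)) (hB ℓ (fun x hx => hpL x (hL.hl x hx)) hb)
    have hpz : ℓ (e p) = 0 := hlz _ hepl
    have h3 : phi ℓ a = 0 := hp' a List.mem_cons_self
    have hℓa : ℓ (e a) = i * ℓ (e θ) - ℓ (e (yy F θ c c' i)) := by
      rw [hea, map_sub, map_add, map_add, hc'z, hpz, map_nsmul, nsmul_eq_mul]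
      ring
    have hℓ1a : ℓ (e (1 - a)) = ℓ (e (yy F θ c c' (i + 1))) - ℓ (e (yy F θ c c' i)) := by
      rw [he1a, map_sub]
    refine ⟨?_, fun hθz b hb' => ?_⟩
    · rw [phi, hℓa, hℓ1a, hone] at h3
      rw [dsig_succ]
      have h4 : yy F θ c c' i * a = -(c' * (p * θ ^ i)) := by
        rw [hadef]; field_simp
      have h5 : yy F θ c c' i * (yy F θ c c' (i + 1) / yy F θ c c' i) =
          yy F θ c c' (i + 1) := by field_simp
      have h6 : -(c' * (p * θ ^ i)) * (i * ℓ (e θ) - ℓ (e (yy F θ c c' i))) +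
          yy F θ c c' (i + 1) * (ℓ (e (yy F θ c c' (i + 1))) - ℓ (e (yy F θ c c' i))) = 0 := by
        have h7 : yy F θ c c' i * a * (i * ℓ (e θ) - ℓ (e (yy F θ c c' i))) +
            (yy F θ c c' i * (yy F θ c c' (i + 1) / yy F θ c c' i)) *
              (ℓ (e (yy F θ c c' (i + 1))) - ℓ (e (yy F θ c c' i))) = 0 := by
          linear_combination (yy F θ c c' i) * h3
        rw [h4, h5] at h7
        exact h7
      have h8 : yy F θ c c' (i + 1) = yy F θ c c' i + c' * (p * θ ^ i) := hys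
      linear_combination h6 + h1 + (ℓ (e (yy F θ c c' i))) * h8
    · rcases List.mem_cons.1 hb' with rfl | hb'
      · rw [hℓa, hθz, mul_zero, zero_sub, neg_eq_zero]
        rw [hθz, mul_zero, zero_mul] at h1
        exact (mul_eq_zero.1 h1).resolve_left hy0
      · exact h2 hθz b hb'
  · rw [heq, finrank_sup_one _ hynot, hL.rank, List.length_cons]
    ring
  · intro w hw0 hwc hwc1 hwy x hx
    rw [heq] at hx
    have h : Sp L ⊔ Submodule.span ℚ {e (yy F θ c c' (i + 1))} ≤ LinearMap.ker w := by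
      refine sup_le (fun x hx => hL.kill w hw0 hwc hwc1 (fun j hj => hwy j (by omega)) x hx) ?_
      rw [Submodule.span_singleton_le_iff_mem]
      exact hwy (i + 1) le_rfl
    exact h hx

end chain

end Pool.Agent.E8helper35.ZL
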