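import Mathlib
import Pool.Agent.E8helper35.ZL.Chain

set_option autoImplicit false

namespace Pool.Agent.E8helper35.ZL

open Polynomial

variable {F F1 F2 F3 : IntermediateField ℚ ℂ} {D : ℕ} {l : List ℂ} {θ c c' : ℂ}

theorem sig_natDegree (h : IsIntegral F θ) :
    sig (minpoly F θ) θ (minpoly F θ).natDegree = - θ ^ (minpoly F θ).natDegree := by
  have h1 : sig (minpoly F θ) θ ((minpoly F θ).natDegree + 1) = 0 := by
    have h2 := minpoly.aeval F θ
    rw [aeval_eq_sum_range] at h2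
    rw [← h2, sig]
    exact Finset.sum_congr rfl fun j _ => rfl
  have h2 : (((minpoly F θ).coeff (minpoly F θ).natDegree : F) : ℂ) = 1 := by
    rw [(minpoly.monic h).coeff_natDegree]
    rfl
  rw [sig, Finset.sum_range_succ, h2, one_mul] at h1
  rw [sig]
  linear_combination h1

theorem dsig_natDegree (h : IsIntegral F θ) (h0 : θ ≠ 0) :
    dsig (minpoly F θ) θ ((minpoly F θ).natDegree + 1) ≠ 0 := by
  have h1 : dsig (minpoly F θ) θ ((minpoly F θ).natDegree + 1) =
      θ * aeval θ (derivative (minpoly F θ)) := by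
    rw [derivative_apply, sum_over_range _ (by simp), map_sum, Finset.mul_sum, dsig]
    refine Finset.sum_congr rfl fun j _ => ?_
    have h2 : aeval θ (C ((minpoly F θ).coeff j * (j : F)) * X ^ (j - 1)) =
        (((minpoly F θ).coeff j : F) : ℂ) * j * θ ^ (j - 1) := by
      rw [map_mul, map_pow, aeval_X, aeval_C, map_mul, map_natCast]
      rfl
    rw [h2]
    rcases Nat.eq_zero_or_pos j with rfl | hj
    · simp
    · obtain ⟨k, rfl⟩ := Nat.exists_eq_succ_of_ne_zero hj.ne'
      rw [Nat.succ_sub_one, pow_succ]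
      ring
  rw [h1]
  refine mul_ne_zero h0 ?_
  exact (minpoly.irreducible h).separable.aeval_derivative_ne_zero (minpoly.aeval F θ)

theorem chain_all (d : Dat F F1 F2 F3 D l θ c c') (B : Finset ℂ)
    (hB : ∀ ℓ : E →ₗ[ℚ] ℂ, (∀ a ∈ l, phi ℓ a = 0) → (∀ b ∈ B, ℓ (e b) = 0) →
      ∀ a ∈ l, ℓ (e a) = 0) (i : ℕ) (hi : i ≤ (minpoly F θ).natDegree) :
    ∃ L, Inv F F2 F3 D l θ c c' B i L := by
  induction i with
  | zero => exact ⟨_, inv_zero d B hB⟩
  | succ i ih =>
    obtain ⟨L, hL⟩ := ih (by omega)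
    exact inv_succ d B hB (by omega) hL

/-- adjoining an algebraic element and two parameters -/
theorem Adm.alg (h01 : F ≤ F1) (h12 : F1 ≤ F2) (h23 : F2 ≤ F3) (hθ : θ ∈ F1) (hθ0 : θ ≠ 0)
    (hc'2 : c' ∈ F2) (hc3 : c ∈ F3) (hc' : Transcendental F1 c') (hc : Transcendental F2 c)
    (hl : Adm F D l)
    (hgen : F ≤ IntermediateField.adjoin ℚ {z : ℂ | z ∈ F ∧ z ≠ 0 ∧ e z ∈ Sp l})
    (halg : IsIntegral F θ) :
    ∃ l', Adm F3 (D + 2) l' ∧ Sp l ≤ Sp l' ∧ e θ ∈ Sp l' ∧ e c ∈ Sp l' ∧ e c' ∈ Sp l' := by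
  classical
  obtain ⟨l1, hl1, hle1, hco⟩ := reach_finset hgen hl
    ((Finset.range ((minpoly F θ).natDegree + 1)).image
      fun i => (((minpoly F θ).coeff i : F) : ℂ)) (by
      intro z hz
      obtain ⟨i, _, rfl⟩ := Finset.mem_image.1 hz
      exact SetLike.coe_mem _)
  by_cases hnm : e θ ∈ Sp l1
  · have h1 := ((hl1.mono h01).trans hc' h12 hc'2).trans hc h23 hc3
    have hle : Sp l1 ≤ Sp (c :: c' :: l1) := Sp_mono fun a ha => by simp [ha]
    exact ⟨_, h1, hle1.trans hle, hle hnm, mem_Sp (by simp), mem_Sp (by simp)⟩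
  have d : Dat F F1 F2 F3 D l1 θ c c' := by
    refine ⟨h01, h12, h23, hθ, hθ0, hc'2, hc3, hc', hc, hl1, halg, fun i hi => ?_, hnm⟩
    refine hco _ (Finset.mem_image.2 ⟨i, Finset.mem_range.2 ?_, rfl⟩)
    exact Nat.lt_succ_of_le (le_natDegree_of_ne_zero hi)
  obtain ⟨B, hBc, hB⟩ := hl1.good
  obtain ⟨L, hL⟩ := chain_all d B hB _ le_rfl
  set m := (minpoly F θ).natDegree with hm
  have hc0 := c_ne d
  have hc'0 := c'_ne d
  have hym0 := yy_ne d m
  have hym : yy F θ c c' m = c - c' * θ ^ m := by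
    rw [yy, sig_natDegree halg]; ring
  have hθm : θ ^ m ≠ 0 := pow_ne_zero m hθ0
  have hz0 : c' * θ ^ m ≠ 0 := mul_ne_zero hc'0 hθm
  set a : ℂ := c' * θ ^ m / c with hadef
  have hone : 1 - a = yy F θ c c' m / c := by
    rw [hym, hadef]; field_simp
  have hea : e a = e c' + m • e θ - e c := by
    rw [hadef, e_div hz0 hc0, e_mul hc'0 hθm, e_pow hθ0]
  have he1a : e (1 - a) = e (yy F θ c c' m) - e c := by
    rw [hone, e_div hym0 hc0]
  have heaL : e a ∈ Sp L := by
    rw [hea]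
    exact sub_mem (add_mem hL.hc' (Submodule.smul_of_tower_mem _ m hL.hθ)) hL.hc
  have he1aL : e (1 - a) ∈ Sp L := by
    rw [he1a]
    exact sub_mem hL.ymem hL.hc
  have hle : Sp L ≤ Sp (a :: L) := Sp_mono fun b hb => List.mem_cons_of_mem a hb
  have heq : Sp (a :: L) = Sp L := by
    refine le_antisymm (Sp_le fun b hb => ?_) hle
    rcases List.mem_cons.1 hb with rfl | hb
    · exact ⟨heaL, he1aL⟩
    · exact ⟨mem_Sp hb, mem_Sp' hb⟩
  refine ⟨a :: L, ⟨?_, ?_, ?_⟩, ?_, ?_, ?_, ?_⟩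
  · intro b hb
    rcases List.mem_cons.1 hb with rfl | hb
    · refine ⟨div_mem (h23 (mul_mem hc'2 (h12 (pow_mem hθ m)))) hc3, div_ne_zero hz0 hc0, ?_⟩
      intro h
      rw [h, sub_self] at hone
      exact div_ne_zero hym0 hc0 hone.symm
    · exact hL.mem b hb
  · refine ⟨insert c (insert c' B), ?_, ?_⟩
    · have h1 := Finset.card_insert_le c (insert c' B)
      have h2 := Finset.card_insert_le c' B
      omega
    · intro ℓ hp hb
      have hpL : ∀ x ∈ L, phi ℓ x = 0 := fun x hx => hp x (List.mem_cons_of_mem a hx)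
      have hcz : ℓ (e c) = 0 := hb c (by simp)
      have hc'z : ℓ (e c') = 0 := hb c' (by simp)
      obtain ⟨h1, h2⟩ := hL.good ℓ hpL (fun b hb' => hb b (by simp [hb'])) hcz hc'z
      have h3 : phi ℓ a = 0 := hp a List.mem_cons_self
      have hℓa : ℓ (e a) = m * ℓ (e θ) := by
        rw [hea, map_sub, map_add, hc'z, hcz, map_nsmul, nsmul_eq_mul]
        ring
      have hℓ1a : ℓ (e (1 - a)) = ℓ (e (yy F θ c c' m)) := by
        rw [he1a, map_sub, hcz, sub_zero]
      rw [phi, hℓa, hℓ1a, hone] at h3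
      have h4 : c * a = c' * θ ^ m := by rw [hadef]; field_simp
      have h5 : c * (yy F θ c c' m / c) = yy F θ c c' m := by field_simp
      have h6 : c' * θ ^ m * (m * ℓ (e θ)) + yy F θ c c' m * ℓ (e (yy F θ c c' m)) = 0 := by
        have h7 : c * a * (m * ℓ (e θ)) +
            (c * (yy F θ c c' m / c)) * ℓ (e (yy F θ c c' m)) = 0 := by
          linear_combination c * h3
        rw [h4, h5] at h7
        exact h7
      have h7 : c' * ℓ (e θ) * dsig (minpoly F θ) θ (m + 1) = 0 := by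
        have h8 : (((minpoly F θ).coeff m : F) : ℂ) = 1 := by
          rw [hm, (minpoly.monic halg).coeff_natDegree]
          rfl
        rw [dsig_succ, h8, one_mul]
        linear_combination h6 - h1
      have hθz : ℓ (e θ) = 0 := by
        have h8 := dsig_natDegree halg hθ0
        rw [← hm] at h8
        rcases mul_eq_zero.1 h7 with h9 | h9
        · exact (mul_eq_zero.1 h9).resolve_left hc'0
        · exact absurd h9 h8
      intro b hb'
      rcases List.mem_cons.1 hb' with rfl | hb'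
      · rw [hℓa, hθz, mul_zero]
      · exact h2 hθz b hb'
  · rw [heq, hL.rank, List.length_cons]
    ring
  · rw [heq]; exact hle1.trans (Sp_mono hL.hl)
  · rw [heq]; exact hL.hθ
  · rw [heq]; exact hL.hc
  · rw [heq]; exact hL.hc'

end Pool.Agent.E8helper35.ZL
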