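import Mathlib
import Pool.Agent.Helper834.EC.Dim1

set_option autoImplicit false

namespace Pool.Agent.E8helper35.ZL

theorem steinitz {R A ι κ : Type*} [CommRing R] [Nontrivial R] [CommRing A] [IsDomain A]
    [Algebra R A] [Fintype ι] [Fintype κ] (v : ι → A) (hv : AlgebraicIndependent R v) (w : κ → A)
    (h : ∀ i, IsAlgebraic (Algebra.adjoin R (Set.range w)) (v i)) :
    Fintype.card ι ≤ Fintype.card κ := by
  have : FaithfulSMul R A :=
    (faithfulSMul_iff_algebraMap_injective R A).2 hv.algebraMap_injective
  let M := AlgebraicIndependent.matroid R A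
  have hI : M.Indep (Set.range v) :=
    AlgebraicIndependent.matroid_indep_iff.2 hv.to_subtype_range
  have hsub : Set.range v ⊆ M.closure (Set.range w) := by
    rintro _ ⟨i, rfl⟩
    rw [AlgebraicIndependent.matroid_closure_eq]
    exact h i
  have h1 := hI.encard_le_eRk_of_subset hsub
  rw [Matroid.eRk_closure_eq] at h1
  have h2 := h1.trans (M.eRk_le_encard _)
  have h3 : (Set.range v).encard = Fintype.card ι := by
    rw [← Set.image_univ, hv.injective.encard_image, Set.encard_univ, ENat.card_eq_coe_fintype_card]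
  have h4 : (Set.range w).encard ≤ Fintype.card κ := by
    rw [← Set.image_univ]
    refine (Set.encard_image_le _ _).trans ?_
    rw [Set.encard_univ, ENat.card_eq_coe_fintype_card]
  rw [h3] at h2
  exact_mod_cast h2.trans h4

/-- the dimension of a finitely generated domain -/
theorem dim_spec (k A : Type) [Field k] [CommRing A] [IsDomain A] [Algebra k A]
    [Algebra.FiniteType k A] : ∃ s : ℕ, ringKrullDim A = s ∧
      (∃ v : Fin s → A, AlgebraicIndependent k v) ∧
      ∀ {ι : Type} [Fintype ι] (w : ι → A), AlgebraicIndependent k w → Fintype.card ι ≤ s := by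
  obtain ⟨s, h1, h2⟩ := Pool.Agent.Helper834.EC.exists_ringKrullDim_eq_trdeg k A
  refine ⟨s, h1, ?_, ?_⟩
  · have : FaithfulSMul k A := (faithfulSMul_iff_algebraMap_injective k A).2 (algebraMap k A).injective
    obtain ⟨t, ht⟩ := exists_isTranscendenceBasis k A
    have h3 := ht.cardinalMk_eq_trdeg
    rw [h2] at h3
    have h4 : Nonempty (Fin s ≃ t) := by
      rw [← Cardinal.eq]
      simpa using h3.symm
    obtain ⟨eq⟩ := h4
    exact ⟨fun i => (eq i : A), ht.1.comp eq eq.injective⟩
  · intro ι _ w hw
    have h3 := hw.cardinalMk_le_trdeg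
    rw [h2, Cardinal.mk_fintype] at h3
    exact_mod_cast h3

theorem isAlgebraic_adjoin_field {T : Set ℂ} {z : ℂ}
    (h : IsAlgebraic (IntermediateField.adjoin ℚ T) z) : IsAlgebraic (Algebra.adjoin ℚ T) z := by
  open scoped IntermediateField.algebraAdjoinAdjoin in
  exact (IsFractionRing.isAlgebraic_iff (Algebra.adjoin ℚ T) (IntermediateField.adjoin ℚ T) ℂ).2 h

end Pool.Agent.E8helper35.ZL
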