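import Mathlib
import Pool.Agent.E8helper35.ZL.Stz

set_option autoImplicit false

namespace Pool.Agent.E8helper35.ZL

section

variable {R A : Type*} [Field R] [CommRing A] [IsDomain A] [Algebra R A]

theorem mem_cl {T : Set A} {a : A} : a ∈ (AlgebraicIndependent.matroid R A).closure T ↔
    IsAlgebraic (Algebra.adjoin R T) a := by
  rw [AlgebraicIndependent.matroid_closure_eq]
  exact Iff.rfl

theorem alg_trans {T T' : Set A} (h : ∀ b ∈ T', IsAlgebraic (Algebra.adjoin R T) b) {a : A}
    (ha : IsAlgebraic (Algebra.adjoin R T') a) : IsAlgebraic (Algebra.adjoin R T) a := by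
  rw [← mem_cl] at ha ⊢
  refine Matroid.closure_subset_closure_of_subset_closure (fun b hb => ?_) ha
  exact mem_cl.2 (h b hb)

theorem alg_mem {T : Set A} {a : A} (ha : a ∈ T) : IsAlgebraic (Algebra.adjoin R T) a :=
  isAlgebraic_algebraMap (⟨a, Algebra.subset_adjoin ha⟩ : Algebra.adjoin R T)

theorem alg_mono {T T' : Set A} (h : T ⊆ T') {a : A}
    (ha : IsAlgebraic (Algebra.adjoin R T) a) : IsAlgebraic (Algebra.adjoin R T') a :=
  alg_trans (fun _ hb => alg_mem (h hb)) ha

/-- algebraic over a subring of the closure -/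
theorem alg_flat {T : Set A} {B : Type*} [CommRing B] [Algebra B A]
    (hinj : Function.Injective (algebraMap B A))
    (hB : ∀ b : B, IsAlgebraic (Algebra.adjoin R T) (algebraMap B A b)) {a : A}
    (ha : IsAlgebraic B a) : IsAlgebraic (Algebra.adjoin R T) a := by
  have hflat := (AlgebraicIndependent.matroid R A).isFlat_closure T
  rw [AlgebraicIndependent.matroid_isFlat_iff] at hflat
  obtain ⟨S, hS1, hS2⟩ := hflat
  rw [← mem_cl]
  refine hS2 a ?_
  obtain ⟨p, hp, hpa⟩ := ha
  have hmem : ∀ b : B, algebraMap B A b ∈ S := fun b => by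
    have h1 : algebraMap B A b ∈ (AlgebraicIndependent.matroid R A).closure T := mem_cl.2 (hB b)
    rw [← hS1] at h1
    exact h1
  let ψ : B →+* S := (algebraMap B A).codRestrict S hmem
  have hcomp : (algebraMap S A).comp ψ = algebraMap B A := rfl
  have hψ : Function.Injective ψ := by
    intro x y hxy
    apply hinj
    rw [← hcomp, RingHom.comp_apply, RingHom.comp_apply, hxy]
  refine ⟨p.map ψ, (Polynomial.map_ne_zero_iff hψ).2 hp, ?_⟩
  rw [Polynomial.aeval_def, Polynomial.eval₂_map, hcomp]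
  exact hpa

theorem alg_transfer {A' : Type*} [CommRing A'] [IsDomain A'] [Algebra R A'] (g : A →ₐ[R] A')
    (hg : Function.Injective g) {T : Set A} {a : A} (ha : IsAlgebraic (Algebra.adjoin R T) a) :
    IsAlgebraic (Algebra.adjoin R (g '' T)) (g a) := by
  obtain ⟨p, hp, hpa⟩ := ha
  have hmem : ∀ b : Algebra.adjoin R T, g (b : A) ∈ Algebra.adjoin R (g '' T) := fun b => by
    rw [← AlgHom.map_adjoin]
    exact ⟨b, b.2, rfl⟩
  let ψ : Algebra.adjoin R T →+* Algebra.adjoin R (g '' T) :=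
    (g.toRingHom.comp (algebraMap (Algebra.adjoin R T) A)).codRestrict _ hmem
  have hψ : Function.Injective ψ := by
    intro x y hxy
    have h1 : g (x : A) = g (y : A) := congrArg Subtype.val hxy
    exact Subtype.ext (hg h1)
  refine ⟨p.map ψ, (Polynomial.map_ne_zero_iff hψ).2 hp, ?_⟩
  rw [Polynomial.aeval_def, Polynomial.eval₂_map]
  have hcomp : (algebraMap (Algebra.adjoin R (g '' T)) A').comp ψ =
      g.toRingHom.comp (algebraMap (Algebra.adjoin R T) A) := rfl
  rw [hcomp]
  change Polynomial.eval₂ _ (g.toRingHom a) p = 0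
  rw [← Polynomial.hom_eval₂]
  change g (Polynomial.aeval a p) = 0
  rw [hpa, map_zero]

theorem maxext {ι : Type*} (u : ι → A) (T0 U : Finset ι) (hTU : T0 ⊆ U)
    (h0 : AlgebraicIndepOn R u (T0 : Set ι)) : ∃ T : Finset ι, T0 ⊆ T ∧ T ⊆ U ∧
      AlgebraicIndepOn R u (T : Set ι) ∧
      ∀ i ∈ U, IsAlgebraic (Algebra.adjoin R (u '' (T : Set ι))) (u i) := by
  classical
  have hfin : {T : Finset ι | T0 ⊆ T ∧ T ⊆ U ∧ AlgebraicIndepOn R u (T : Set ι)}.Finite :=
    (Finset.finite_toSet U.powerset).subset fun T hT => by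
      rw [Finset.mem_coe, Finset.mem_powerset]
      exact hT.2.1
  obtain ⟨T, hT⟩ := hfin.exists_maximal ⟨T0, subset_rfl, hTU, h0⟩
  obtain ⟨⟨h1, h2, h3⟩, hmax⟩ := hT
  refine ⟨T, h1, h2, h3, fun i hi => ?_⟩
  by_contra hcon
  have h4 : AlgebraicIndepOn R u (insert i (T : Set ι)) := h3.insert hcon
  have h5 : i ∉ T := fun hiT => hcon (alg_mem ⟨i, hiT, rfl⟩)
  have h6 := hmax (y := insert i T) ⟨h1.trans (Finset.subset_insert _ _),
    Finset.insert_subset hi h2, by rw [Finset.coe_insert]; exact h4⟩ (Finset.subset_insert _ _)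
  exact h5 (h6 (Finset.mem_insert_self _ _))

end

end Pool.Agent.E8helper35.ZL
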