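import Mathlib
import Pool.Agent.E8helper35.ZL.Mat

set_option autoImplicit false

namespace Pool.Agent.E8helper35.ZL

open MvPolynomial

section mapAdd

variable {σ R R' : Type*} [CommRing R] [CommRing R'] (ρ : R →+ R')

/-- apply an additive map to the coefficients -/
noncomputable def mapAddFun (f : MvPolynomial σ R) : MvPolynomial σ R' :=
  ∑ m ∈ f.support, monomial m (ρ (coeff m f))

theorem coeff_mapAddFun (f : MvPolynomial σ R) (m : σ →₀ ℕ) :
    coeff m (mapAddFun ρ f) = ρ (coeff m f) := by
  classical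
  rw [mapAddFun, coeff_sum]
  simp only [coeff_monomial, Finset.sum_ite_eq', mem_support_iff, ne_eq, ite_not]
  split_ifs with h
  · rw [h, map_zero]
  · rfl

/-- apply an additive map to the coefficients -/
noncomputable def mapAdd : MvPolynomial σ R →+ MvPolynomial σ R' where
  toFun := mapAddFun ρ
  map_zero' := by
    ext m
    rw [coeff_mapAddFun]
    simp
  map_add' f g := by
    ext m
    rw [coeff_mapAddFun, coeff_add, coeff_add, coeff_mapAddFun, coeff_mapAddFun, map_add]

theorem coeff_mapAdd (f : MvPolynomial σ R) (m : σ →₀ ℕ) :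
    coeff m (mapAdd ρ f) = ρ (coeff m f) := coeff_mapAddFun ρ f m

theorem mapAdd_monomial (m : σ →₀ ℕ) (a : R) :
    mapAdd ρ (monomial m a) = monomial m (ρ a) := by
  classical
  ext m'
  rw [coeff_mapAdd, coeff_monomial, coeff_monomial]
  split_ifs
  · rfl
  · exact map_zero ρ

theorem mapAdd_rename {τ : Type*} (j : σ → τ) (f : MvPolynomial σ R) :
    mapAdd ρ (rename j f) = rename j (mapAdd ρ f) := by
  induction f using MvPolynomial.induction_on' with
  | monomial m a => rw [rename_monomial, mapAdd_monomial, mapAdd_monomial, rename_monomial]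
  | add p q hp hq => rw [map_add, map_add, map_add, map_add, hp, hq]

end mapAdd

theorem mapAdd_map_mul {σ : Type*} (K : IntermediateField ℚ ℂ) (ρ : ℂ →ₗ[K] K)
    (q : MvPolynomial σ K) (f : MvPolynomial σ ℂ) :
    mapAdd ρ.toAddMonoidHom (map (algebraMap K ℂ) q * f) = q * mapAdd ρ.toAddMonoidHom f := by
  classical
  ext m
  rw [coeff_mapAdd, coeff_mul, coeff_mul, map_sum]
  refine congrArg Subtype.val (Finset.sum_congr rfl fun x _ => ?_)
  rw [coeff_mapAdd, coeff_map]
  have h1 : algebraMap K ℂ (coeff x.1 q) * coeff x.2 f = (coeff x.1 q) • coeff x.2 f := by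
    rw [Algebra.smul_def]
  rw [h1]
  exact ρ.map_smul _ _

theorem mapAdd_mem {n : ℕ} (P : Ideal (MvPolynomial (Fin n) ℂ)) (K : IntermediateField ℚ ℂ)
    (G : Set (MvPolynomial (Fin n) ℂ)) (hG : Ideal.span G = P)
    (hK : ∀ g ∈ G, ∃ q : MvPolynomial (Fin n) K, map (algebraMap K ℂ) q = g)
    (ρ : ℂ →ₗ[K] K) (f : MvPolynomial (Fin n) ℂ) (hf : f ∈ P) :
    map (algebraMap K ℂ) (mapAdd ρ.toAddMonoidHom f) ∈ P := by
  have key : ∀ h : MvPolynomial (Fin n) ℂ,
      map (algebraMap K ℂ) (mapAdd ρ.toAddMonoidHom (h * f)) ∈ P := by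
    rw [← hG] at hf
    induction hf using Submodule.span_induction with
    | mem g hg =>
      intro h
      obtain ⟨q, rfl⟩ := hK g hg
      rw [mul_comm, mapAdd_map_mul, map_mul]
      refine P.mul_mem_right _ ?_
      rw [← hG]
      exact Ideal.subset_span hg
    | zero =>
      intro h
      rw [mul_zero, map_zero, map_zero]
      exact P.zero_mem
    | add x y _ _ hx hy =>
      intro h
      rw [mul_add, map_add, map_add]
      exact P.add_mem (hx h) (hy h)
    | smul a x _ hx =>
      intro h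
      rw [smul_eq_mul, ← mul_assoc]
      exact hx (h * a)
  have h1 := key 1
  rwa [one_mul] at h1

theorem indep_C {n : ℕ} (P : Ideal (MvPolynomial (Fin n) ℂ)) (K : IntermediateField ℚ ℂ)
    (G : Set (MvPolynomial (Fin n) ℂ)) (hG : Ideal.span G = P)
    (hK : ∀ g ∈ G, ∃ q : MvPolynomial (Fin n) K, map (algebraMap K ℂ) q = g)
    {S : Finset (Fin n)} (hS : AlgebraicIndependent K
      (fun j : S => (Ideal.Quotient.mk P (X (j : Fin n)) : MvPolynomial (Fin n) ℂ ⧸ P))) :
    AlgebraicIndependent ℂ
      (fun j : S => (Ideal.Quotient.mk P (X (j : Fin n)) : MvPolynomial (Fin n) ℂ ⧸ P)) := by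
  have haev : ∀ f : MvPolynomial S ℂ,
      aeval (fun j : S => (Ideal.Quotient.mk P (X (j : Fin n)) : MvPolynomial (Fin n) ℂ ⧸ P)) f =
        Ideal.Quotient.mk P (rename Subtype.val f) := by
    intro f
    induction f using MvPolynomial.induction_on with
    | C a => rw [algHom_C, rename_C]; rfl
    | add p q hp hq => rw [map_add, hp, hq, map_add, map_add]
    | mul_X p i hp => rw [map_mul, hp, aeval_X, map_mul, map_mul, rename_X]
  rw [algebraicIndependent_iff]
  intro f hf
  by_contra hf0
  obtain ⟨m, hm⟩ := ne_zero_iff.1 hf0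
  obtain ⟨ρ, hρ⟩ : ∃ ρ : ℂ →ₗ[K] K, ρ (coeff m f) ≠ 0 := by
    by_contra hcon
    push Not at hcon
    exact hm ((Module.forall_dual_apply_eq_zero_iff K _).1 hcon)
  have h1 : rename Subtype.val f ∈ P := by
    rw [haev] at hf
    exact Ideal.Quotient.eq_zero_iff_mem.1 hf
  have h2 := mapAdd_mem P K G hG hK ρ _ h1
  rw [mapAdd_rename] at h2
  have h3 : mapAdd ρ.toAddMonoidHom f = 0 := by
    rw [algebraicIndependent_iff] at hS
    refine hS _ ?_
    have h4 : aeval (fun j : S => (Ideal.Quotient.mk P (X (j : Fin n)) :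
        MvPolynomial (Fin n) ℂ ⧸ P)) (mapAdd ρ.toAddMonoidHom f) =
        Ideal.Quotient.mk P (map (algebraMap K ℂ)
          (rename Subtype.val (mapAdd ρ.toAddMonoidHom f))) := by
      generalize mapAdd ρ.toAddMonoidHom f = g
      induction g using MvPolynomial.induction_on with
      | C a => rw [algHom_C, rename_C, map_C]; rfl
      | add p q hp hq => rw [map_add, hp, hq, map_add, map_add, map_add]
      | mul_X p i hp => rw [map_mul, hp, aeval_X, map_mul, map_mul, map_mul, rename_X, map_X]
    rw [h4]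
    exact Ideal.Quotient.eq_zero_iff_mem.2 h2
  have h4 := coeff_mapAdd ρ.toAddMonoidHom f m
  rw [h3, coeff_zero] at h4
  exact hρ h4.symm

end Pool.Agent.E8helper35.ZL
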