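import Mathlib
import Pool.Agent.E8helper35.ZL.Bad

set_option autoImplicit false

namespace Pool.Agent.E8helper35.ZL

open MvPolynomial

theorem lead {n : ℕ} (P : Ideal (MvPolynomial (Fin n) ℂ)) (B : Set ℂ) (c : ℂ)
    (h : IsAlgebraic (Algebra.adjoin ℚ ((Set.range fun i : Fin n => Ideal.Quotient.mk P (X i)) ∪
      (fun b : ℂ => Ideal.Quotient.mk P (C b)) '' B)) (Ideal.Quotient.mk P (C c))) :
    ∃ G, G ∉ P ∧ ∀ s : Fin n → ℂ, (∀ g ∈ P, eval s g = 0) → eval s G ≠ 0 →
      IsAlgebraic (Algebra.adjoin ℚ (Set.range s ∪ B)) c := by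
  classical
  set T : Set (MvPolynomial (Fin n) ℂ) := (Set.range fun i : Fin n => X i) ∪ C '' B with hT
  have hset : (Set.range fun i : Fin n => Ideal.Quotient.mk P (X i)) ∪
      (fun b : ℂ => Ideal.Quotient.mk P (C b)) '' B = (Ideal.Quotient.mkₐ ℚ P) '' T := by
    rw [hT, Set.image_union, ← Set.range_comp, Set.image_image]
    rfl
  rw [hset] at h
  obtain ⟨q, hq, hqc⟩ := h
  have hlift : ∀ i, ∃ r : MvPolynomial (Fin n) ℂ, r ∈ Algebra.adjoin ℚ T ∧
      Ideal.Quotient.mk P r = (q.coeff i : MvPolynomial (Fin n) ℂ ⧸ P) := by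
    intro i
    have h1 : (q.coeff i : MvPolynomial (Fin n) ℂ ⧸ P) ∈
        (Algebra.adjoin ℚ T).map (Ideal.Quotient.mkₐ ℚ P) := by
      rw [AlgHom.map_adjoin]
      exact (q.coeff i).2
    obtain ⟨r, hr1, hr2⟩ := h1
    exact ⟨r, hr1, hr2⟩
  choose r hr1 hr2 using hlift
  have hsumP : ∑ i ∈ Finset.range (q.natDegree + 1), r i * C c ^ i ∈ P := by
    rw [← Ideal.Quotient.eq_zero_iff_mem, map_sum, ← hqc, Polynomial.aeval_eq_sum_range]
    refine Finset.sum_congr rfl fun i _ => ?_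
    rw [map_mul, map_pow, hr2, Algebra.smul_def]
    rfl
  refine ⟨r q.natDegree, fun hmem => ?_, fun s hs hG => ?_⟩
  · have h1 := hr2 q.natDegree
    rw [Ideal.Quotient.eq_zero_iff_mem.2 hmem] at h1
    exact (Polynomial.leadingCoeff_ne_zero.2 hq) (Subtype.ext h1.symm)
  · have hmem : ∀ i, eval s (r i) ∈ Algebra.adjoin ℚ (Set.range s ∪ B) := by
      intro i
      let ev : MvPolynomial (Fin n) ℂ →ₐ[ℚ] ℂ := (aeval s : MvPolynomial (Fin n) ℂ →ₐ[ℂ] ℂ).restrictScalars ℚ
      have h1 : ev (r i) ∈ (Algebra.adjoin ℚ T).map ev := ⟨r i, hr1 i, rfl⟩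
      rw [AlgHom.map_adjoin] at h1
      have h2 : ev (r i) = eval s (r i) := by
        change aeval s (r i) = _
        rw [aeval_eq_eval]
      rw [← h2]
      refine Algebra.adjoin_mono ?_ h1
      rintro _ ⟨g, (⟨i, rfl⟩ | ⟨b, hb, rfl⟩), rfl⟩
      · left
        refine ⟨i, ?_⟩
        change _ = aeval s (X i)
        rw [aeval_X]
      · right
        have : ev (C b) = b := by
          change aeval s (C b) = b
          rw [algHom_C]
          rfl
        rw [this]
        exact hb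
    refine ⟨∑ i ∈ Finset.range (q.natDegree + 1),
      Polynomial.monomial i ⟨eval s (r i), hmem i⟩, ?_, ?_⟩
    · intro h0
      have h1 := congrArg (fun p => Polynomial.coeff p q.natDegree) h0
      simp only [Polynomial.finsetSum_coeff, Polynomial.coeff_monomial, Polynomial.coeff_zero,
        Finset.sum_ite_eq', Finset.mem_range, Nat.lt_succ_self, if_true] at h1
      exact hG (congrArg Subtype.val h1)
    · rw [map_sum]
      have h1 := hs _ hsumP
      rw [map_sum] at h1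
      rw [← h1]
      refine Finset.sum_congr rfl fun i _ => ?_
      rw [Polynomial.aeval_monomial, map_mul, map_pow, eval_C]
      rfl

theorem bad {n : ℕ} (P : Ideal (MvPolynomial (Fin n) ℂ)) (hP : P.IsPrime) (d : ℕ)
    (hd : ringKrullDim (MvPolynomial (Fin n) ℂ ⧸ P) = d) (J : Finset (Fin n))
    (hJ : AlgebraicIndepOn ℚ
      (fun j : Fin n => (Ideal.Quotient.mk P (X j) : MvPolynomial (Fin n) ℂ ⧸ P))
      (J : Set (Fin n))) :
    ∃ G, G ∉ P ∧ ∀ s : Fin n → ℂ, (∀ g ∈ P, eval s g = 0) → eval s G ≠ 0 →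
      ∀ Js : Finset (Fin n), (∀ i, IsAlgebraic (Algebra.adjoin ℚ (s '' (Js : Set (Fin n)))) (s i)) →
        J.card ≤ Js.card + d := by
  classical
  set A := MvPolynomial (Fin n) ℂ ⧸ P with hA
  set π : MvPolynomial (Fin n) ℂ →+* A := Ideal.Quotient.mk P with hπ
  obtain ⟨Gs, hGs⟩ := (inferInstance : IsNoetherianRing (MvPolynomial (Fin n) ℂ)).noetherian P
  -- the coefficients
  let Cf : Finset ℂ := Gs.biUnion fun g => g.coeffs
  let K : IntermediateField ℚ ℂ := IntermediateField.adjoin ℚ (Cf : Set ℂ)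
  have hK : ∀ g ∈ (Gs : Set (MvPolynomial (Fin n) ℂ)),
      ∃ q : MvPolynomial (Fin n) K, map (algebraMap K ℂ) q = g := by
    intro g hg
    have h1 : g ∈ Set.range (map (algebraMap K ℂ) : MvPolynomial (Fin n) K → _) := by
      rw [mem_range_map_iff_coeffs_subset]
      intro c hc
      have h2 : c ∈ Cf := Finset.mem_biUnion.2 ⟨g, hg, hc⟩
      exact ⟨⟨c, IntermediateField.subset_adjoin _ _ h2⟩, rfl⟩
    exact h1
  obtain ⟨s0, hs0, -, hs1⟩ := dim_spec ℂ A
  have hs0d : s0 = d := by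
    rw [hd] at hs0
    exact_mod_cast hs0.symm
  -- S : a transcendence basis over K
  obtain ⟨S, -, -, hSind, hSalg⟩ := maxext (R := K) (fun j : Fin n => π (X j)) ∅ Finset.univ
    (Finset.empty_subset _) (by
      have : IsEmpty ((∅ : Finset (Fin n)) : Set (Fin n)) := by simp
      exact algebraicIndependent_empty_type_iff.2 (algebraMap K A).injective)
  have hScard : S.card ≤ d := by
    have h1 := indep_C P K (Gs : Set (MvPolynomial (Fin n) ℂ)) hGs hK (S := S) hSind
    have h2 := hs1 _ h1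
    rw [Fintype.card_coe] at h2
    omega
  -- C1 : a transcendence basis of the coefficients
  obtain ⟨C1, -, hC1sub, hC1ind, hC1alg⟩ := maxext (R := ℚ) (fun c : ℂ => c) ∅ Cf
    (Finset.empty_subset _) (by
      have : IsEmpty ((∅ : Finset ℂ) : Set ℂ) := by simp
      exact algebraicIndependent_empty_type_iff.2 (algebraMap ℚ ℂ).injective)
  -- J1 : a maximal independent set of coordinates
  obtain ⟨J1, hJJ1, -, hJ1ind, hJ1alg⟩ := maxext (R := ℚ) (fun j : Fin n => π (X j)) J Finset.univ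
    (Finset.subset_univ _) hJ
  let u : Fin n ⊕ ℂ → A := Sum.elim (fun j => π (X j)) (fun c => π (C c))
  let T0 : Finset (Fin n ⊕ ℂ) := J1.map Function.Embedding.inl
  let U : Finset (Fin n ⊕ ℂ) := T0 ∪ Cf.map Function.Embedding.inr
  have hT0 : AlgebraicIndepOn ℚ u (T0 : Set (Fin n ⊕ ℂ)) := by
    have h1 : ∀ i : (T0 : Set (Fin n ⊕ ℂ)), ∃ j : (J1 : Set (Fin n)),
        (Sum.inl (j : Fin n) : Fin n ⊕ ℂ) = i := by
      rintro ⟨i, hi⟩
      obtain ⟨j, hj, hji⟩ := Finset.mem_map.1 (Finset.mem_coe.1 hi)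
      exact ⟨⟨j, hj⟩, hji⟩
    choose f hf using h1
    have hinj : Function.Injective f := by
      intro a b hab
      apply Subtype.ext
      rw [← hf a, ← hf b, hab]
    have h2 := hJ1ind.comp f hinj
    have h3 : (fun i : (T0 : Set (Fin n ⊕ ℂ)) => u i) =
        (fun j : (J1 : Set (Fin n)) => π (X (j : Fin n))) ∘ f := by
      funext i
      rw [← hf i]
      rfl
    change AlgebraicIndependent ℚ (fun i : (T0 : Set (Fin n ⊕ ℂ)) => u i)
    rw [h3]
    exact h2
  obtain ⟨T, hT0T, hTU, hTind, hTalg⟩ := maxext (R := ℚ) u T0 U Finset.subset_union_left hT0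
  let B : Finset ℂ := Cf.filter fun c => Sum.inr c ∈ T
  have hTeq : T = T0 ∪ B.map Function.Embedding.inr := by
    ext x
    rw [Finset.mem_union]
    constructor
    · intro hx
      rcases Finset.mem_union.1 (hTU hx) with h | h
      · exact Or.inl h
      · right
        obtain ⟨c, hc, rfl⟩ := Finset.mem_map.1 h
        exact Finset.mem_map.2 ⟨c, Finset.mem_filter.2 ⟨hc, hx⟩, rfl⟩
    · rintro (h | h)
      · exact hT0T h
      · obtain ⟨c, hc, rfl⟩ := Finset.mem_map.1 h
        exact (Finset.mem_filter.1 hc).2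
  have hTcard : T.card = J1.card + B.card := by
    rw [hTeq, Finset.card_union_of_disjoint, Finset.card_map, Finset.card_map]
    rw [Finset.disjoint_left]
    intro x hx hx'
    obtain ⟨j, _, rfl⟩ := Finset.mem_map.1 hx
    obtain ⟨c, _, hc⟩ := Finset.mem_map.1 hx'
    exact absurd hc (by simp)
  have hdomA : IsDomain A := inferInstance
  let g : ℂ →ₐ[ℚ] A := IsScalarTower.toAlgHom ℚ ℂ A
  have hg : Function.Injective g := (algebraMap ℂ A).injective
  have hgC : ∀ c, g c = π (C c) := fun c => rfl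
  let w : C1 ⊕ S → A := Sum.elim (fun c => π (C (c : ℂ))) (fun j => π (X (j : Fin n)))
  have claim1 : ∀ c ∈ Cf, IsAlgebraic (Algebra.adjoin ℚ (Set.range w)) (π (C c)) := by
    intro c hc
    have h1 := alg_transfer g hg (hC1alg c hc)
    rw [← hgC]
    refine alg_mono ?_ h1
    rintro _ ⟨_, ⟨c', hc', rfl⟩, rfl⟩
    exact ⟨Sum.inl ⟨c', hc'⟩, rfl⟩
  have claim2 : ∀ i, IsAlgebraic (Algebra.adjoin ℚ (Set.range w)) (π (X i)) := by
    intro i
    refine alg_flat (B := Algebra.adjoin K ((fun j : Fin n => π (X j)) '' (S : Set (Fin n))))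
      Subtype.coe_injective ?_ (hSalg i (Finset.mem_univ i))
    rintro ⟨b, hb⟩
    change IsAlgebraic _ b
    induction hb using Algebra.adjoin_induction with
    | mem x hx =>
      obtain ⟨j, hj, rfl⟩ := hx
      exact alg_mem ⟨Sum.inr ⟨j, hj⟩, rfl⟩
    | algebraMap k =>
      have h1 : IsAlgebraic (IntermediateField.adjoin ℚ (Cf : Set ℂ)) (k : ℂ) :=
        isAlgebraic_algebraMap (⟨k, k.2⟩ : IntermediateField.adjoin ℚ (Cf : Set ℂ))
      have h2 := alg_transfer g hg (isAlgebraic_adjoin_field h1)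
      refine alg_trans (T' := g '' (Cf : Set ℂ)) ?_ h2
      rintro _ ⟨c, hc, rfl⟩
      exact claim1 c hc
    | add x y _ _ hx hy => exact hx.add hy
    | mul x y _ _ hx hy => exact hx.mul hy
  have hst1 : T.card ≤ C1.card + S.card := by
    have h1 := steinitz (R := ℚ) (fun i : T => u i) hTind w (by
      rintro ⟨i, hi⟩
      rcases i with i | c
      · exact claim2 i
      · refine claim1 c ?_
        have h2 := hTU hi
        rcases Finset.mem_union.1 h2 with h | h
        · obtain ⟨j, _, hj⟩ := Finset.mem_map.1 h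
          exact absurd hj (by simp)
        · obtain ⟨c', hc', hcc⟩ := Finset.mem_map.1 h
          have : c' = c := by simpa using hcc
          rwa [this] at hc')
    rw [Fintype.card_coe, Fintype.card_sum, Fintype.card_coe, Fintype.card_coe] at h1
    exact h1
  have hlead : ∀ c : ℂ, ∃ G, G ∉ P ∧ (c ∈ Cf → ∀ s : Fin n → ℂ, (∀ g ∈ P, eval s g = 0) →
      eval s G ≠ 0 → IsAlgebraic (Algebra.adjoin ℚ (Set.range s ∪ (B : Set ℂ))) c) := by
    intro c
    by_cases hc : c ∈ Cf
    · have h1 := hTalg (Sum.inr c) (Finset.mem_union_right _ (Finset.mem_map.2 ⟨c, hc, rfl⟩))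
      obtain ⟨G, hG1, hG2⟩ := lead P (B : Set ℂ) c (by
        refine alg_mono ?_ h1
        rintro _ ⟨x, hx, rfl⟩
        rw [hTeq, Finset.coe_union] at hx
        rcases hx with hx | hx
        · obtain ⟨j, _, rfl⟩ := Finset.mem_map.1 (Finset.mem_coe.1 hx)
          exact Or.inl ⟨j, rfl⟩
        · obtain ⟨c', hc', rfl⟩ := Finset.mem_map.1 (Finset.mem_coe.1 hx)
          exact Or.inr ⟨c', hc', rfl⟩)
      exact ⟨G, hG1, fun _ => hG2⟩
    · exact ⟨1, fun h => hP.ne_top ((Ideal.eq_top_iff_one P).2 h), fun h => absurd h hc⟩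
  choose G hG1 hG2 using hlead
  refine ⟨∏ c ∈ Cf, G c, ?_, fun s hs hGs Js hJs => ?_⟩
  · intro hmem
    obtain ⟨c, _, hc⟩ := hP.prod_mem_iff.1 hmem
    exact hG1 c hc
  · have hGc : ∀ c ∈ Cf, eval s (G c) ≠ 0 := by
      rw [map_prod] at hGs
      exact fun c hc => (Finset.prod_ne_zero_iff.1 hGs) c hc
    let w' : Js ⊕ B → ℂ := Sum.elim (fun j => s (j : Fin n)) (fun c => (c : ℂ))
    have h1 := steinitz (R := ℚ) (fun c : C1 => (c : ℂ)) hC1ind w' (by
      rintro ⟨c, hc⟩
      have hcf := hC1sub hc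
      refine alg_trans ?_ (hG2 c hcf s hs (hGc c hcf))
      rintro b (⟨i, rfl⟩ | hb)
      · refine alg_mono ?_ (hJs i)
        rintro _ ⟨j, hj, rfl⟩
        exact ⟨Sum.inl ⟨j, hj⟩, rfl⟩
      · exact alg_mem ⟨Sum.inr ⟨b, hb⟩, rfl⟩)
    rw [Fintype.card_coe, Fintype.card_sum, Fintype.card_coe, Fintype.card_coe] at h1
    have h2 := Finset.card_le_card hJJ1
    omega

end Pool.Agent.E8helper35.ZL
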