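import Mathlib

set_option autoImplicit false

namespace Pool.Agent.E8helper35.ZL

/-- the monomial `∏ t_i ^ a_i (1 - t_i) ^ a'_i` -/
noncomputable def mon {k : ℕ} (t : Fin k → ℂ) (a : Fin k ⊕ Fin k → ℤ) : ℂ :=
  (∏ i, t i ^ a (Sum.inl i)) * ∏ i, (1 - t i) ^ a (Sum.inr i)

/-- the algebraic points of the `k`-th power of the line whose coordinates generate a group of
rank less than `k` -/
def LowRank (k : ℕ) : Set (Fin k → ℂ) :=
  {t | (∀ i, IsAlgebraic ℚ (t i)) ∧ (∀ i, t i ≠ 0 ∧ t i ≠ 1) ∧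
    ∃ Λ : Submodule ℤ (Fin k ⊕ Fin k → ℤ), k < Module.finrank ℤ Λ ∧ ∀ a ∈ Λ, mon t a = 1}

/-- every component of the closure of the set of points of rank less than `k` is atypical -/
def LineCase : Prop :=
  ∀ (k : ℕ) (P : Ideal (MvPolynomial (Fin k) ℚ)),
    P ∈ (MvPolynomial.vanishingIdeal ℚ (LowRank k)).minimalPrimes →
    ∃ Λ : Submodule ℤ (Fin k ⊕ Fin k → ℤ),
      (k : WithBot ℕ∞) < ringKrullDim (MvPolynomial (Fin k) ℚ ⧸ P) +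
        ((Module.finrank ℤ Λ : ℕ) : WithBot ℕ∞) ∧
      ∀ a ∈ Λ, ∀ t : Fin k → ℂ, (∀ i, t i ≠ 0 ∧ t i ≠ 1) →
        (∀ f ∈ P, MvPolynomial.aeval t f = 0) → mon t a = 1

/-- Zilber's conjecture -/
def Zilber : Prop :=
  ∀ (n : ℕ) (P : Ideal (MvPolynomial (Fin n) ℂ)), P.IsPrime →
      (∏ i : Fin n, (MvPolynomial.X i : MvPolynomial (Fin n) ℂ)) ∉ P →
      (∀ f : MvPolynomial (Fin n) ℂ,
        (∀ x : Fin n → ℂ, (∀ i, x i ≠ 0) → (∀ g ∈ P, MvPolynomial.eval x g = 0) →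
          (∃ Λ : Submodule ℤ (Fin n → ℤ),
            ringKrullDim (MvPolynomial (Fin n) ℂ ⧸ P)
                + ((n - Module.finrank ℤ Λ : ℕ) : WithBot ℕ∞) + 1 ≤ (n : WithBot ℕ∞) ∧
            ∀ a ∈ Λ, ∏ i : Fin n, x i ^ a i = 1) →
          MvPolynomial.eval x f = 0) →
        ∀ x : Fin n → ℂ, (∀ i, x i ≠ 0) → (∀ g ∈ P, MvPolynomial.eval x g = 0) →
          MvPolynomial.eval x f = 0) →
      ∃ a : Fin n → ℤ, a ≠ 0 ∧
        ∀ x : Fin n → ℂ, (∀ i, x i ≠ 0) → (∀ g ∈ P, MvPolynomial.eval x g = 0) →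
          ∏ i : Fin n, x i ^ a i = 1

end Pool.Agent.E8helper35.ZL
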