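import Mathlib
import Pool.Agent.E8helper35.ZL.Val

set_option autoImplicit false

namespace Pool.Agent.E8helper35.ZL

/-- the rank of the multiplicative group generated by a family -/
noncomputable def rk {ι : Type*} (s : ι → ℂ) : ℕ :=
  Module.finrank ℚ (Submodule.span ℚ (Set.range fun i => e (s i)))

/-- the lattice of relations -/
def relL {ι : Type*} [Fintype ι] (s : ι → ℂ) (hs : ∀ i, s i ≠ 0) : Submodule ℤ (ι → ℤ) :=
  AddSubgroup.toIntSubmodule
    { carrier := {a | ∏ i, s i ^ a i = 1}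
      add_mem' := by
        intro a b ha hb
        simp only [Set.mem_ofPred_eq, Pi.add_apply] at ha hb ⊢
        rw [← one_mul (1 : ℂ)]
        nth_rewrite 1 [← ha]
        rw [← hb, ← Finset.prod_mul_distrib]
        exact Finset.prod_congr rfl fun i _ => zpow_add₀ (hs i) _ _
      zero_mem' := by simp
      neg_mem' := by
        intro a ha
        simp only [Set.mem_ofPred_eq, Pi.neg_apply, zpow_neg] at ha ⊢
        rw [Finset.prod_inv_distrib, ha, inv_one] }

theorem mem_relL {ι : Type*} [Fintype ι] (s : ι → ℂ) (hs : ∀ i, s i ≠ 0) (a : ι → ℤ) :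
    a ∈ relL s hs ↔ ∏ i, s i ^ a i = 1 := Iff.rfl

theorem sum_e_of_prod {ι : Type*} [Fintype ι] {s : ι → ℂ} (hs : ∀ i, s i ≠ 0) (a : ι → ℤ)
    (h : ∏ i, s i ^ a i = 1) : ∑ i, (a i : ℚ) • e (s i) = 0 := by
  have h1 : e (∏ i, s i ^ a i) = 0 := by rw [h, e_one]
  rw [e_prod _ _ fun i _ => zpow_ne_zero _ (hs i)] at h1
  rw [← h1]
  refine Finset.sum_congr rfl fun i _ => ?_
  rw [e_zpow (hs i), Int.cast_smul_eq_zsmul]

theorem prod_of_sum_e {ι : Type*} [Fintype ι] {s : ι → ℂ} (hs : ∀ i, s i ≠ 0) (r : ι → ℚ)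
    (h : ∑ i, r i • e (s i) = 0) :
    ∃ (a : ι → ℤ) (q : ℚ), q ≠ 0 ∧ (∀ i, (a i : ℚ) = q * r i) ∧ ∏ i, s i ^ a i = 1 := by
  obtain ⟨N, m, hN, hm⟩ := exists_denom Finset.univ r
  have h1 : ∑ i, m i • e (s i) = 0 := by
    have h2 : (N : ℚ) • ∑ i, r i • e (s i) = 0 := by rw [h, smul_zero]
    rw [Finset.smul_sum] at h2
    rw [← h2]
    refine Finset.sum_congr rfl fun i hi => ?_
    rw [smul_smul, ← hm i hi, Int.cast_smul_eq_zsmul]
  obtain ⟨M, hM, h3⟩ := rel_of_sum Finset.univ s (fun i _ => hs i) m h1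
  refine ⟨fun i => m i * M, M * N, ?_, fun i => ?_, h3⟩
  · positivity
  · push_cast
    rw [hm i (Finset.mem_univ i)]
    ring

theorem range_lc {ι : Type*} [Fintype ι] (s : ι → ℂ) :
    LinearMap.range (Fintype.linearCombination ℚ fun i => e (s i)) =
      Submodule.span ℚ (Set.range fun i => e (s i)) := by
  exact Fintype.range_linearCombination ℚ _

theorem rk_add_finrank_ker {ι : Type*} [Fintype ι] (s : ι → ℂ) :
    rk s + Module.finrank ℚ (LinearMap.ker (Fintype.linearCombination ℚ fun i => e (s i))) =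
      Fintype.card ι := by
  have h := LinearMap.finrank_range_add_finrank_ker
    (Fintype.linearCombination ℚ fun i => e (s i))
  rw [range_lc, Module.finrank_fintype_fun_eq_card] at h
  exact h

theorem rk_add_le {ι : Type*} [Fintype ι] (s : ι → ℂ) (hs : ∀ i, s i ≠ 0)
    (Λ : Submodule ℤ (ι → ℤ)) (h : ∀ a ∈ Λ, ∏ i, s i ^ a i = 1) :
    rk s + Module.finrank ℤ Λ ≤ Fintype.card ι := by
  rw [← rk_add_finrank_ker s]
  refine Nat.add_le_add_left ?_ _
  let b := Module.finBasis ℤ Λ
  let f : (ι → ℤ) →ₗ[ℤ] (ι → ℚ) :=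
    { toFun := fun a i => (a i : ℚ)
      map_add' := fun a b => by ext i; simp
      map_smul' := fun c a => by ext i; simp }
  have hf : Function.Injective f := by
    intro a a' haa
    ext i
    have h0 : (a i : ℚ) = a' i := congrFun haa i
    exact_mod_cast h0
  have h1 : LinearIndependent ℤ (fun j => f (b j : ι → ℤ)) := by
    have h2 : LinearIndependent ℤ (fun j => (b j : ι → ℤ)) :=
      b.linearIndependent.map' Λ.subtype (Submodule.ker_subtype _)
    exact h2.map' f (LinearMap.ker_eq_bot.2 hf)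
  have h2 : LinearIndependent ℚ (fun j => f (b j : ι → ℤ)) :=
    (LinearIndependent.iff_fractionRing ℤ ℚ).1 h1
  have h3 : ∀ j, f (b j : ι → ℤ) ∈
      LinearMap.ker (Fintype.linearCombination ℚ fun i => e (s i)) := by
    intro j
    rw [LinearMap.mem_ker, Fintype.linearCombination_apply]
    exact sum_e_of_prod hs _ (h _ (b j).2)
  have h4 : LinearIndependent ℚ (fun j => (⟨f (b j : ι → ℤ), h3 j⟩ :
      LinearMap.ker (Fintype.linearCombination ℚ fun i => e (s i)))) :=
    LinearIndependent.of_comp (Submodule.subtype _) h2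
  have h5 := h4.fintype_card_le_finrank
  rwa [Fintype.card_fin] at h5

theorem le_rk_add {ι : Type*} [Fintype ι] (s : ι → ℂ) (hs : ∀ i, s i ≠ 0) :
    Fintype.card ι ≤ rk s + Module.finrank ℤ (relL s hs) := by
  rw [← rk_add_finrank_ker s]
  refine Nat.add_le_add_left ?_ _
  let b := Module.finBasis ℚ (LinearMap.ker (Fintype.linearCombination ℚ fun i => e (s i)))
  have h1 : ∀ j, ∃ (a : ι → ℤ) (q : ℚ), q ≠ 0 ∧ (∀ i, (a i : ℚ) = q * (b j : ι → ℚ) i) ∧
      ∏ i, s i ^ a i = 1 := fun j => by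
    refine prod_of_sum_e hs _ ?_
    have := (b j).2
    rwa [LinearMap.mem_ker, Fintype.linearCombination_apply] at this
  choose a q hq ha hprod using h1
  have h2 : LinearIndependent ℚ (fun j => (b j : ι → ℚ)) :=
    b.linearIndependent.map' (Submodule.subtype _) (Submodule.ker_subtype _)
  have h3 := h2.units_smul (fun j => Units.mk0 (q j) (hq j))
  have h4 : LinearIndependent ℤ (fun j => (fun i => (a j i : ℚ))) := by
    have h5 : LinearIndependent ℚ (fun j => (fun i => (a j i : ℚ))) := by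
      have h6 : (fun j => (fun i => (a j i : ℚ))) =
          (fun j => Units.mk0 (q j) (hq j)) • fun j => (b j : ι → ℚ) := by
        funext j i
        exact ha j i
      rw [h6]
      exact h3
    exact h5.restrict_scalars (by
      intro x y hxy
      simpa using hxy)
  let f : (ι → ℤ) →ₗ[ℤ] (ι → ℚ) :=
    { toFun := fun a i => (a i : ℚ)
      map_add' := fun a b => by ext i; simp
      map_smul' := fun c a => by ext i; simp }
  have h6 : LinearIndependent ℤ (fun j => a j) := LinearIndependent.of_comp f h4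
  have h7 : LinearIndependent ℤ (fun j => (⟨a j, hprod j⟩ : relL s hs)) :=
    LinearIndependent.of_comp (Submodule.subtype _) h6
  have h8 := h7.fintype_card_le_finrank
  rwa [Fintype.card_fin] at h8

theorem exists_Phi (R : Subring ℂ) (φ : R →+* ℂ) : ∃ Φ : E →ₗ[ℚ] E,
    ∀ (u : ℂ) (hu : u ∈ R), u⁻¹ ∈ R → u ≠ 0 → Φ (e u) = e (φ ⟨u, hu⟩) := by
  let f : Additive Rˣ →ₗ[ℤ] Additive ℂˣ :=
    (MonoidHom.toAdditive (Units.map (R.subtype : R →* ℂ))).toIntLinearMap
  let g : Additive Rˣ →ₗ[ℤ] Additive ℂˣ :=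
    (MonoidHom.toAdditive (Units.map (φ : R →* ℂ))).toIntLinearMap
  have hf : Function.Injective f := by
    intro a b hab
    have h1 : Units.map (R.subtype : R →* ℂ) a.toMul = Units.map (R.subtype : R →* ℂ) b.toMul := hab
    have h2 : a.toMul = b.toMul := by
      ext
      have := congrArg Units.val h1
      exact this
    exact h2
  have hf' : Function.Injective (f.baseChange ℚ) :=
    Module.Flat.lTensor_preserves_injective_linearMap (M := ℚ) f hf
  obtain ⟨r, hr⟩ := LinearMap.exists_leftInverse_of_injective (f.baseChange ℚ)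
    (LinearMap.ker_eq_bot.2 hf')
  refine ⟨(g.baseChange ℚ) ∘ₗ r, fun u hu hu' h0 => ?_⟩
  let U : Rˣ := ⟨⟨u, hu⟩, ⟨u⁻¹, hu'⟩, Subtype.ext (mul_inv_cancel₀ h0),
    Subtype.ext (inv_mul_cancel₀ h0)⟩
  have h1 : e u = f.baseChange ℚ ((1 : ℚ) ⊗ₜ[ℤ] Additive.ofMul U) := by
    rw [LinearMap.baseChange_tmul, e_of_ne h0]
    congr 1
  have h2 : r (f.baseChange ℚ ((1 : ℚ) ⊗ₜ[ℤ] Additive.ofMul U)) =
      (1 : ℚ) ⊗ₜ[ℤ] Additive.ofMul U := LinearMap.congr_fun hr _
  have h3 : φ ⟨u, hu⟩ ≠ 0 := by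
    have := (Units.map (φ : R →* ℂ) U).ne_zero
    exact this
  rw [LinearMap.comp_apply, h1, h2, LinearMap.baseChange_tmul, e_of_ne h3]
  congr 1
  change Additive.ofMul (Units.map (φ : R →* ℂ) U) = Additive.ofMul (Units.mk0 _ h3)
  congr 1
  ext
  rfl

theorem finrank_map_add {V W : Type*} [AddCommGroup V] [Module ℚ V] [AddCommGroup W] [Module ℚ W]
    (Φ : V →ₗ[ℚ] W) (X T : Submodule ℚ V) [FiniteDimensional ℚ T] (h : X ≤ T) :
    Module.finrank ℚ (T.map Φ) + Module.finrank ℚ X ≤
      Module.finrank ℚ T + Module.finrank ℚ (X.map Φ) := by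
  have hX : FiniteDimensional ℚ X := Submodule.finiteDimensional_of_le h
  have h1 := LinearMap.finrank_range_add_finrank_ker (Φ.domRestrict T)
  have h2 := LinearMap.finrank_range_add_finrank_ker (Φ.domRestrict X)
  rw [LinearMap.range_domRestrict] at h1 h2
  have h3 : Module.finrank ℚ (LinearMap.ker (Φ.domRestrict X)) ≤
      Module.finrank ℚ (LinearMap.ker (Φ.domRestrict T)) := by
    let ψ : LinearMap.ker (Φ.domRestrict X) →ₗ[ℚ] LinearMap.ker (Φ.domRestrict T) :=
      LinearMap.codRestrict _ ((Submodule.inclusion h).comp (Submodule.subtype _)) (fun x => by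
        have := x.2
        exact this)
    refine LinearMap.finrank_le_finrank_of_injective (f := ψ) ?_
    intro a b hab
    have h4 : ((ψ a : T) : V) = ((ψ b : T) : V) := by rw [hab]
    exact Subtype.ext (Subtype.ext h4)
  omega

theorem mono_eq {K : Type*} [Field K] [Algebra K ℂ] {ι : Type*} [Fintype ι] {c : ι → ℂ}
    (hc : AlgebraicIndependent K c) (b : ι → ℤ) (κ : K)
    (h : ∏ i, c i ^ b i = algebraMap K ℂ κ) : b = 0 := by
  classical
  have hc0 : ∀ i, c i ≠ 0 := fun i h0 => by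
    have := hc.transcendental i
    rw [h0] at this
    exact this isAlgebraic_zero
  let p : ι →₀ ℕ := Finsupp.equivFunOnFinite.symm fun i => (b i).toNat
  let m : ι →₀ ℕ := Finsupp.equivFunOnFinite.symm fun i => (-(b i)).toNat
  have h1 : MvPolynomial.aeval c (MvPolynomial.monomial p (1 : K)) =
      MvPolynomial.aeval c (MvPolynomial.monomial m κ) := by
    rw [MvPolynomial.aeval_monomial, MvPolynomial.aeval_monomial, map_one, one_mul, ← h,
      Finsupp.prod_fintype _ _ (by simp), Finsupp.prod_fintype _ _ (by simp),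
      ← Finset.prod_mul_distrib]
    refine Finset.prod_congr rfl fun i _ => ?_
    exact (zpow_toNat (hc0 i) (b i)).symm
  have h2 := hc h1
  rw [MvPolynomial.monomial_eq_monomial_iff] at h2
  rcases h2 with ⟨h2, -⟩ | ⟨h2, -⟩
  · funext i
    have h3 := DFunLike.congr_fun h2 i
    simp only [p, m, Finsupp.equivFunOnFinite_symm_apply_apply] at h3
    simp only [Pi.zero_apply]
    omega
  · exact absurd h2 one_ne_zero

theorem li_of_rel {ι : Type*} [Fintype ι] {s : ι → ℂ} (hs : ∀ i, s i ≠ 0)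
    (h : ∀ a : ι → ℤ, ∏ i, s i ^ a i = 1 → a = 0) : LinearIndependent ℚ fun i => e (s i) := by
  rw [Fintype.linearIndependent_iff]
  intro g hg i
  obtain ⟨a, q, hq, ha, hp⟩ := prod_of_sum_e hs g hg
  have h1 := congrFun (h a hp) i
  have h2 := ha i
  rw [h1] at h2
  simp only [Pi.zero_apply, Int.cast_zero, zero_eq_mul] at h2
  exact h2.resolve_left hq

end Pool.Agent.E8helper35.ZL
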