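import Mathlib
import Pool.Agent.E8helper35.ZL.Lin
import Pool.Agent.E8helper35.ZL.Tup

set_option autoImplicit false

namespace Pool.Agent.E8helper35.ZL

/-- the point of the power of the line `x + y = 1` -/
def tt {k : ℕ} (t : Fin k → ℂ) : Fin k ⊕ Fin k → ℂ := Sum.elim t fun i => 1 - t i

/-- the span of the classes -/
def TS {k : ℕ} (t : Fin k → ℂ) : Submodule ℚ E := Submodule.span ℚ (Set.range fun i => e (tt t i))

instance {k : ℕ} (t : Fin k → ℂ) : FiniteDimensional ℚ (TS t) :=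
  FiniteDimensional.span_of_finite ℚ (Set.finite_range _)

theorem tt_ne {k : ℕ} {t : Fin k → ℂ} (h0 : ∀ i, t i ≠ 0) (h1 : ∀ i, t i ≠ 1) (i : Fin k ⊕ Fin k) :
    tt t i ≠ 0 := by
  rcases i with i | i
  · exact h0 i
  · exact sub_ne_zero.2 (Ne.symm (h1 i))

theorem phi_indep {k D : ℕ} (t : Fin k → ℂ) (h1 : ∀ i, t i ≠ 1)
    (hgood : ∃ B : Finset ℂ, B.card ≤ D ∧ ∀ ℓ : E →ₗ[ℚ] ℂ, (∀ i, phi ℓ (t i) = 0) →
      (∀ b ∈ B, ℓ (e b) = 0) → ∀ i, ℓ (e (t i)) = 0)
    (hrank : rk (tt t) = k + D) (μ : Fin k → ℂ)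
    (hμ : ∀ ℓ : E →ₗ[ℚ] ℂ, ∑ i, μ i * phi ℓ (t i) = 0) : μ = 0 := by
  classical
  obtain ⟨B, hBD, hB⟩ := hgood
  obtain ⟨π, hπ⟩ := LinearMap.exists_leftInverse_of_injective (TS t).subtype
    (Submodule.ker_subtype _)
  let Ψ : (TS t →ₗ[ℚ] ℂ) →ₗ[ℂ] ((Fin k → ℂ) × (B → ℂ)) :=
    { toFun := fun ℓ => (fun i => phi (ℓ ∘ₗ π) (t i), fun b => (ℓ ∘ₗ π) (e b))
      map_add' := fun ℓ ℓ' => by
        refine Prod.ext (funext fun i => ?_) (funext fun b => ?_)
        · simp only [phi, LinearMap.comp_apply, LinearMap.add_apply, Prod.fst_add, Pi.add_apply]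
          ring
        · simp only [LinearMap.comp_apply, LinearMap.add_apply, Prod.snd_add, Pi.add_apply]
      map_smul' := fun c ℓ => by
        refine Prod.ext (funext fun i => ?_) (funext fun b => ?_)
        · simp only [phi, LinearMap.comp_apply, LinearMap.smul_apply, Prod.smul_fst,
            Pi.smul_apply, smul_eq_mul, RingHom.id_apply]
          ring
        · simp only [LinearMap.comp_apply, LinearMap.smul_apply, Prod.smul_snd, Pi.smul_apply,
            RingHom.id_apply] }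
  have hinj : Function.Injective Ψ := by
    rw [← LinearMap.ker_eq_bot, LinearMap.ker_eq_bot']
    intro ℓ hℓ
    have hp : ∀ i, phi (ℓ ∘ₗ π) (t i) = 0 := fun i => congrFun (congrArg Prod.fst hℓ) i
    have hb : ∀ b ∈ B, (ℓ ∘ₗ π) (e b) = 0 := fun b hb =>
      congrFun (congrArg Prod.snd hℓ) ⟨b, hb⟩
    have ha := hB (ℓ ∘ₗ π) hp hb
    have h2 : TS t ≤ LinearMap.ker (ℓ ∘ₗ π) := by
      refine Submodule.span_le.2 ?_
      rintro _ ⟨i | i, rfl⟩
      · exact ha i
      · have h3 := hp i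
        rw [phi, ha i, mul_zero, zero_add] at h3
        exact (mul_eq_zero.1 h3).resolve_left (sub_ne_zero.2 (Ne.symm (h1 i)))
    ext w
    have h3 : (ℓ ∘ₗ π) (w : E) = 0 := h2 w.2
    have h4 : π (w : E) = w := LinearMap.congr_fun hπ w
    rw [LinearMap.comp_apply, h4] at h3
    exact h3
  have hf1 : Module.finrank ℂ (TS t →ₗ[ℚ] ℂ) = k + D := by
    rw [← hrank]
    exact Module.finrank_linearMap_self ℚ ℂ (TS t)
  have hf2 : Module.finrank ℂ ((Fin k → ℂ) × (B → ℂ)) = k + B.card := by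
    rw [Module.finrank_prod, Module.finrank_fintype_fun_eq_card,
      Module.finrank_fintype_fun_eq_card, Fintype.card_fin, Fintype.card_coe]
  have hle := LinearMap.finrank_le_finrank_of_injective hinj
  have heq : Module.finrank ℂ (TS t →ₗ[ℚ] ℂ) = Module.finrank ℂ ((Fin k → ℂ) × (B → ℂ)) := by
    omega
  have hfd : FiniteDimensional ℂ (TS t →ₗ[ℚ] ℂ) := inferInstance
  have hsurj := (LinearMap.injective_iff_surjective_of_finrank_eq_finrank heq).1 hinj
  funext i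
  obtain ⟨ℓ, hℓ⟩ := hsurj (Pi.single i 1, 0)
  have h2 := hμ (ℓ ∘ₗ π)
  have h3 : ∀ j, phi (ℓ ∘ₗ π) (t j) = (Pi.single i 1 : Fin k → ℂ) j := fun j =>
    congrFun (congrArg Prod.fst hℓ) j
  simp only [h3, Pi.single_apply, mul_ite, mul_one, mul_zero, Finset.sum_ite_eq',
    Finset.mem_univ, if_true] at h2
  exact h2

/-- the logarithmic Jacobian of the monomials, multiplied by `t (1 - t)` -/
def jac {k : ℕ} {ι : Type*} (lam : ι → (Fin k ⊕ Fin k → ℤ)) (t : Fin k → ℂ) : Matrix ι (Fin k) ℂ :=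
  Matrix.of fun j i => (lam j (Sum.inl i) : ℂ) * (1 - t i) - lam j (Sum.inr i) * t i

theorem rows_indep {k D : ℕ} (t : Fin k → ℂ) (h0 : ∀ i, t i ≠ 0) (h1 : ∀ i, t i ≠ 1)
    (hgood : ∃ B : Finset ℂ, B.card ≤ D ∧ ∀ ℓ : E →ₗ[ℚ] ℂ, (∀ i, phi ℓ (t i) = 0) →
      (∀ b ∈ B, ℓ (e b) = 0) → ∀ i, ℓ (e (t i)) = 0)
    (hrank : rk (tt t) = k + D) {ι : Type*} [Fintype ι] (lam : ι → (Fin k ⊕ Fin k → ℤ))
    (hlam : LinearIndependent ℤ lam) (hrel : ∀ j, ∏ i, tt t i ^ lam j i = 1) :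
    LinearIndependent ℂ (jac lam t).row := by
  classical
  rw [Fintype.linearIndependent_iff]
  intro γ hγ
  have hγ' : ∀ i, (∑ j, γ j * lam j (Sum.inl i)) * (1 - t i) =
      (∑ j, γ j * lam j (Sum.inr i)) * t i := by
    intro i
    have h2 := congrFun hγ i
    simp only [Finset.sum_apply, Pi.smul_apply, Matrix.row, jac, Matrix.of_apply, smul_eq_mul,
      Pi.zero_apply] at h2
    rw [← sub_eq_zero, ← h2, Finset.sum_mul, Finset.sum_mul, ← Finset.sum_sub_distrib]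
    exact Finset.sum_congr rfl fun j _ => by ring
  set μ : Fin k → ℂ := fun i => (∑ j, γ j * lam j (Sum.inl i)) / t i with hμdef
  have hμ1 : ∀ i, ∑ j, γ j * lam j (Sum.inl i) = μ i * t i := fun i => by
    rw [hμdef]; field_simp [h0 i]
  have hμ2 : ∀ i, ∑ j, γ j * lam j (Sum.inr i) = μ i * (1 - t i) := fun i => by
    have h2 := hγ' i
    rw [hμ1 i] at h2
    refine mul_right_cancel₀ (h0 i) ?_
    rw [← h2]; ring
  have hμ0 : μ = 0 := by
    refine phi_indep t h1 hgood hrank μ fun ℓ => ?_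
    have h2 : ∀ j, ∑ i, (lam j i : ℂ) * ℓ (e (tt t i)) = 0 := fun j => by
      have h3 := congrArg ℓ (sum_e_of_prod (tt_ne h0 h1) _ (hrel j))
      rw [map_sum, map_zero] at h3
      rw [← h3]
      refine Finset.sum_congr rfl fun i _ => ?_
      rw [map_smul, Rat.smul_def]
      push_cast
      rfl
    have h3 : ∑ i, μ i * phi ℓ (t i) = ∑ j, γ j * ∑ i, (lam j i : ℂ) * ℓ (e (tt t i)) := by
      have h4 : ∀ i, μ i * phi ℓ (t i) = (∑ j, γ j * lam j (Sum.inl i)) * ℓ (e (t i)) +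
          (∑ j, γ j * lam j (Sum.inr i)) * ℓ (e (1 - t i)) := fun i => by
        rw [hμ1, hμ2, phi]; ring
      simp only [h4, Finset.mul_sum, Fintype.sum_sum_type, Finset.sum_mul, tt, Sum.elim_inl,
        Sum.elim_inr, Finset.sum_add_distrib]
      rw [Finset.sum_comm]
      nth_rewrite 2 [Finset.sum_comm]
      simp only [mul_add, Finset.sum_add_distrib, mul_assoc, Finset.mul_sum]
    rw [h3]
    simp [h2]
  have hsum : ∀ i, ∑ j, γ j * lam j i = 0 := by
    rintro (i | i)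
    · rw [hμ1, hμ0]; simp
    · rw [hμ2, hμ0]; simp
  have hlamQ : LinearIndependent ℚ (fun j => (fun i => (lam j i : ℚ))) := by
    let f : (Fin k ⊕ Fin k → ℤ) →ₗ[ℤ] (Fin k ⊕ Fin k → ℚ) :=
      { toFun := fun a i => (a i : ℚ)
        map_add' := fun a b => by ext i; simp
        map_smul' := fun c a => by ext i; simp }
    have hf : Function.Injective f := by
      intro a a' haa
      ext i
      have h0 : (a i : ℚ) = a' i := congrFun haa i
      exact_mod_cast h0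
    have h5 : LinearIndependent ℤ (fun j => f (lam j)) := hlam.map' f (LinearMap.ker_eq_bot.2 hf)
    exact (LinearIndependent.iff_fractionRing ℤ ℚ).1 h5
  intro j
  rw [← Module.forall_dual_apply_eq_zero_iff ℚ]
  intro ρ
  rw [Fintype.linearIndependent_iff] at hlamQ
  refine hlamQ (fun j => ρ (γ j)) ?_ j
  funext i
  have h5 := congrArg ρ (hsum i)
  rw [map_sum, map_zero] at h5
  rw [Finset.sum_apply, Pi.zero_apply, ← h5]
  refine Finset.sum_congr rfl fun j _ => ?_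
  have h6 : γ j * (lam j i : ℂ) = (lam j i : ℚ) • γ j := by
    rw [Rat.smul_def]; push_cast; ring
  rw [h6, map_smul, Pi.smul_apply, smul_eq_mul, smul_eq_mul, mul_comm]

end Pool.Agent.E8helper35.ZL
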