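import Mathlib
import Pool.Agent.E8helper35.ZL.Ind
import Pool.Agent.E8helper35.ZL.Stz
import Pool.Agent.TH504.CB.DerK
import Pool.Agent.R723.EmbedC

set_option autoImplicit false

namespace Pool.Agent.E8helper35.ZL

open MvPolynomial

theorem dlog_prod (δ : Derivation ℚ ℂ ℂ) {ι : Type*} (s : Finset ι) (f : ι → ℂ) (a : ι → ℤ)
    (hf : ∀ i ∈ s, f i ≠ 0) :
    δ (∏ i ∈ s, f i ^ a i) = (∏ i ∈ s, f i ^ a i) * ∑ i ∈ s, (a i : ℂ) * (δ (f i) / f i) := by
  classical
  induction s using Finset.induction_on with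
  | empty => simp
  | insert j s hj ih =>
    rw [Finset.prod_insert hj, Finset.sum_insert hj, Derivation.leibniz,
      ih fun i hi => hf i (Finset.mem_insert_of_mem hi), Derivation.leibniz_zpow]
    have h0 := hf j (Finset.mem_insert_self _ _)
    rw [zpow_sub_one₀ h0]
    simp only [smul_eq_mul, zsmul_eq_mul]
    field_simp
    ring

theorem exists_minor {K : Type*} [Field K] {m k : ℕ} (M : Matrix (Fin m) (Fin k) K)
    (h : LinearIndependent K M.row) : ∃ σ : Fin m → Fin k, (M.submatrix id σ).det ≠ 0 := by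
  classical
  have h1 : M.rank = m := by
    have := LinearIndependent.rank_matrix h
    simpa using this
  rw [Matrix.rank_eq_finrank_span_cols] at h1
  obtain ⟨f, hf1, -, hf3⟩ := Submodule.exists_fun_fin_finrank_span_eq K (Set.range M.col)
  choose τ hτ using hf1
  refine ⟨fun j => τ (Fin.cast h1.symm j), ?_⟩
  have h2 : LinearIndependent K (M.submatrix id (fun j => τ (Fin.cast h1.symm j))).col := by
    have h3 : (M.submatrix id (fun j => τ (Fin.cast h1.symm j))).col =
        fun j => f (Fin.cast h1.symm j) := by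
      funext j
      rw [← hτ (Fin.cast h1.symm j)]
      rfl
    rw [h3]
    exact hf3.comp _ (Fin.cast_injective _)
  rw [Matrix.linearIndependent_cols_iff_isUnit] at h2
  exact ((Matrix.isUnit_iff_isUnit_det _).1 h2).ne_zero

theorem algebraic_of_jac {k m : ℕ} (t : Fin k → ℂ) (h0 : ∀ i, t i ≠ 0) (h1 : ∀ i, t i ≠ 1)
    (lam : Fin m → (Fin k ⊕ Fin k → ℤ)) (hrel : ∀ j, ∏ i, tt t i ^ lam j i = 1)
    (σ : Fin m → Fin k) (hdet : ((jac lam t).submatrix id σ).det ≠ 0) (i : Fin k) :
    IsAlgebraic (IntermediateField.adjoin ℚ (t '' (Set.range σ)ᶜ)) (t i) := by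
  classical
  by_contra hcon
  set K := IntermediateField.adjoin ℚ (t '' (Set.range σ)ᶜ) with hK
  have hind : AlgebraicIndependent K (fun _ : Unit => t i) := by
    rw [algebraicIndependent_unique_type_iff]
    exact hcon
  obtain ⟨δ, hδK, hδ⟩ := Pool.Agent.TH504.CB.exists_derivationK hind (fun _ => 1)
  have hσ : Function.Injective σ := by
    intro a b hab
    by_contra hne
    exact hdet (Matrix.det_zero_of_column_eq hne fun j => by
      simp only [Matrix.submatrix_apply, id, hab])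
  have hw0 : ∀ l, l ∉ Set.range σ → δ (t l) = 0 := fun l hl =>
    hδK ⟨t l, IntermediateField.subset_adjoin _ _ ⟨l, hl, rfl⟩⟩
  set w : Fin k → ℂ := fun l => δ (t l) / (t l * (1 - t l)) with hw
  have h1' : ∀ i, 1 - t i ≠ 0 := fun i => sub_ne_zero.2 (Ne.symm (h1 i))
  have hsum : ∀ j, ∑ l, jac lam t j l * w l = 0 := by
    intro j
    have h2 := dlog_prod δ Finset.univ (tt t) (lam j) (fun i _ => tt_ne h0 h1 i)
    rw [hrel j, one_mul] at h2
    have h3 : δ 1 = 0 := by
      have := δ.map_one_eq_zero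
      exact this
    rw [h3, Fintype.sum_sum_type, ← Finset.sum_add_distrib] at h2
    rw [h2]
    refine Finset.sum_congr rfl fun l _ => ?_
    have h4 : δ (1 - t l) = - δ (t l) := by rw [map_sub, h3, zero_sub]
    simp only [tt, Sum.elim_inl, Sum.elim_inr, h4, jac, Matrix.of_apply, hw]
    have := h0 l
    have := h1' l
    field_simp
    ring
  have hmul : ((jac lam t).submatrix id σ).mulVec (w ∘ σ) = 0 := by
    funext j
    rw [Matrix.mulVec, dotProduct, Pi.zero_apply, ← hsum j]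
    have h2 : ∑ x, (jac lam t).submatrix id σ j x * (w ∘ σ) x =
        ∑ l ∈ Finset.univ.map ⟨σ, hσ⟩, jac lam t j l * w l := by
      rw [Finset.sum_map]
      rfl
    rw [h2]
    refine Finset.sum_subset (Finset.subset_univ _) fun l _ hl => ?_
    have h3 : l ∉ Set.range σ := by
      rintro ⟨a, rfl⟩
      exact hl (by simp)
    rw [hw]
    simp only [hw0 l h3, zero_div, mul_zero]
  have hz := Matrix.eq_zero_of_mulVec_eq_zero hdet hmul
  have h5 : δ (t i) = 1 := hδ ()
  have h6 : w i = 0 := by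
    by_cases hi : i ∈ Set.range σ
    · obtain ⟨a, rfl⟩ := hi
      exact congrFun hz a
    · simp only [hw, hw0 i hi, zero_div]
  rw [hw] at h6
  simp only [h5, div_eq_zero_iff, one_ne_zero, mul_eq_zero, h0 i, h1' i, or_self] at h6

/-- a generic zero of a prime ideal over the rationals -/
theorem exists_generic {σ : Type} [Finite σ] (P : Ideal (MvPolynomial σ ℚ)) (hP : P.IsPrime) :
    ∃ x : σ → ℂ, ∀ f : MvPolynomial σ ℚ, aeval x f = 0 ↔ f ∈ P := by
  have hcount : Countable (MvPolynomial σ ℚ) := by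
    rw [← Cardinal.mk_le_aleph0_iff]
    refine MvPolynomial.cardinalMk_le_max.trans ?_
    simp
  have : Countable (MvPolynomial σ ℚ ⧸ P) := Quotient.countable
  have : Countable (FractionRing (MvPolynomial σ ℚ ⧸ P)) := by
    have hs : Function.Surjective (fun p : (MvPolynomial σ ℚ ⧸ P) × (MvPolynomial σ ℚ ⧸ P) =>
        algebraMap _ (FractionRing (MvPolynomial σ ℚ ⧸ P)) p.1 / algebraMap _ _ p.2) := by
      intro z
      obtain ⟨a, b, -, hab⟩ := IsFractionRing.div_surjective (A := MvPolynomial σ ℚ ⧸ P) z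
      exact ⟨(a, b), hab⟩
    exact hs.countable
  have : CharZero (FractionRing (MvPolynomial σ ℚ ⧸ P)) := by
    exact charZero_of_injective_algebraMap
      (algebraMap ℚ (FractionRing (MvPolynomial σ ℚ ⧸ P))).injective
  obtain ⟨ρ⟩ := Pool.Agent.R723.exists_ringHom_complex (FractionRing (MvPolynomial σ ℚ ⧸ P))
  let θ : MvPolynomial σ ℚ →+* ℂ :=
    (ρ.comp (algebraMap (MvPolynomial σ ℚ ⧸ P) (FractionRing (MvPolynomial σ ℚ ⧸ P)))).comp
      (Ideal.Quotient.mk P)
  refine ⟨fun i => θ (X i), fun f => ?_⟩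
  have h1 : aeval (fun i => θ (X i)) f = θ f := by
    have : (aeval (fun i => θ (X i)) : MvPolynomial σ ℚ →ₐ[ℚ] ℂ).toRingHom = θ := by
      refine MvPolynomial.ringHom_ext (fun r => ?_) (fun i => ?_)
      · have h2 : (aeval (fun i => θ (X i)) : MvPolynomial σ ℚ →ₐ[ℚ] ℂ).toRingHom (C r) =
            (r : ℂ) := by simp
        rw [h2]
        exact (eq_ratCast (θ.comp C) r).symm
      · simp
    exact RingHom.congr_fun this f
  rw [h1]
  change ρ (algebraMap _ _ (Ideal.Quotient.mk P f)) = 0 ↔ _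
  rw [map_eq_zero_iff ρ ρ.injective, map_eq_zero_iff _ (IsFractionRing.injective _ _),
    Ideal.Quotient.eq_zero_iff_mem]

/-- the polynomial version of the matrix -/
noncomputable def jacP {k : ℕ} {ι : Type*} (lam : ι → (Fin k ⊕ Fin k → ℤ)) :
    Matrix ι (Fin k) (MvPolynomial (Fin k) ℚ) :=
  Matrix.of fun j i => (lam j (Sum.inl i) : MvPolynomial (Fin k) ℚ) * (1 - X i) -
    (lam j (Sum.inr i) : MvPolynomial (Fin k) ℚ) * X i

theorem jacP_map {k m : ℕ} (lam : Fin m → (Fin k ⊕ Fin k → ℤ)) (t : Fin k → ℂ)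
    (σ : Fin m → Fin k) : aeval t ((jacP lam).submatrix id σ).det =
      ((jac lam t).submatrix id σ).det := by
  rw [AlgHom.map_det]
  congr 1
  ext a b
  simp [jacP, jac]

theorem alg_aeval {A : Type*} [CommRing A] [IsDomain A] [Algebra ℚ A] (B : Subalgebra ℚ A)
    {σ : Type*} (x : σ → A)
    (h : ∀ i, IsAlgebraic B (x i)) (f : MvPolynomial σ ℚ) : IsAlgebraic B (aeval x f) := by
  induction f using MvPolynomial.induction_on with
  | C r =>
    rw [algHom_C]
    exact isAlgebraic_algebraMap (algebraMap ℚ B r)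
  | add p q hp hq => rw [map_add]; exact hp.add hq
  | mul_X p i hp => rw [map_mul, aeval_X]; exact hp.mul (h i)

theorem dim_jac {k m : ℕ} (P : Ideal (MvPolynomial (Fin k) ℚ)) (hP : P.IsPrime) (t : Fin k → ℂ)
    (h0 : ∀ i, t i ≠ 0) (h1 : ∀ i, t i ≠ 1) (ht : ∀ f ∈ P, aeval t f = 0)
    (lam : Fin m → (Fin k ⊕ Fin k → ℤ))
    (hrel : ∀ j, ∀ t' : Fin k → ℂ, (∀ i, t' i ≠ 0 ∧ t' i ≠ 1) → (∀ f ∈ P, aeval t' f = 0) →
      ∏ i, tt t' i ^ lam j i = 1)
    (hind : LinearIndependent ℂ (jac lam t).row) :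
    ringKrullDim (MvPolynomial (Fin k) ℚ ⧸ P) + (m : ℕ) ≤ (k : WithBot ℕ∞) := by
  classical
  obtain ⟨σ, hσ⟩ := exists_minor _ hind
  obtain ⟨x, hx⟩ := exists_generic P hP
  have hx0 : ∀ i, x i ≠ 0 := fun i h => by
    have h2 : aeval x (X i : MvPolynomial (Fin k) ℚ) = 0 := by rw [aeval_X, h]
    have h3 := ht _ ((hx _).1 h2)
    rw [aeval_X] at h3
    exact h0 i h3
  have hx1 : ∀ i, x i ≠ 1 := fun i h => by
    have h2 : aeval x (X i - 1 : MvPolynomial (Fin k) ℚ) = 0 := by
      rw [map_sub, aeval_X, map_one, h, sub_self]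
    have h3 := ht _ ((hx _).1 h2)
    rw [map_sub, aeval_X, map_one, sub_eq_zero] at h3
    exact h1 i h3
  have hdet : ((jac lam x).submatrix id σ).det ≠ 0 := by
    rw [← jacP_map] at hσ ⊢
    intro h
    exact hσ (ht _ ((hx _).1 h))
  have hσi : Function.Injective σ := by
    intro a b hab
    by_contra hne
    exact hdet (Matrix.det_zero_of_column_eq hne fun j => by
      simp only [Matrix.submatrix_apply, id, hab])
  have halg := algebraic_of_jac x hx0 hx1 lam
    (fun j => hrel j x (fun i => ⟨hx0 i, hx1 i⟩) fun f hf => (hx f).2 hf) σ hdet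
  obtain ⟨s, hs, ⟨v, hv⟩, -⟩ := dim_spec ℚ (MvPolynomial (Fin k) ℚ ⧸ P)
  let θ : (MvPolynomial (Fin k) ℚ ⧸ P) →ₐ[ℚ] ℂ :=
    Ideal.Quotient.liftₐ P (aeval x) fun f hf => (hx f).2 hf
  have hθ : Function.Injective θ := by
    rw [injective_iff_map_eq_zero]
    intro a ha
    obtain ⟨f, rfl⟩ := Ideal.Quotient.mk_surjective a
    have h2 : aeval x f = 0 := ha
    exact Ideal.Quotient.eq_zero_iff_mem.2 ((hx f).1 h2)
  have hv' : AlgebraicIndependent ℚ (θ ∘ v) := hv.map' hθ
  have hle := steinitz (κ := ((Set.range σ)ᶜ : Set (Fin k))) (θ ∘ v) hv' (fun i => x i) (by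
    intro i
    obtain ⟨f, hf⟩ := Ideal.Quotient.mk_surjective (v i)
    have h2 : (θ ∘ v) i = aeval x f := by
      rw [Function.comp_apply, ← hf]
      rfl
    rw [h2]
    have h3 : Set.range (fun i : ((Set.range σ)ᶜ : Set (Fin k)) => x i) =
        x '' (Set.range σ)ᶜ := by
      rw [Set.image_eq_range]
    rw [h3]
    have h4 : ∀ i, IsAlgebraic (Algebra.adjoin ℚ (x '' (Set.range σ)ᶜ)) (x i) := fun i =>
      isAlgebraic_adjoin_field (halg i)
    exact alg_aeval _ x h4 f)
  rw [hs]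
  have hc : Fintype.card ((Set.range σ)ᶜ : Set (Fin k)) = k - m := by
    rw [Fintype.card_compl_set, Set.card_range_of_injective hσi]
    simp
  have hmk : m ≤ k := by
    have := Fintype.card_le_of_injective σ hσi
    simpa using this
  rw [hc, Fintype.card_fin] at hle
  have : s + m ≤ k := by omega
  exact_mod_cast this

end Pool.Agent.E8helper35.ZL
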