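import Mathlib
import Pool.Agent.E8helper35.ZL.Stz

set_option autoImplicit false

namespace Pool.Agent.E8helper35.ZL

open MvPolynomial

theorem exists_hom {ι : Type*} (w w' : ι → ℂ)
    (h : ∀ f : MvPolynomial ι ℚ, aeval w f = 0 → aeval w' f = 0) :
    ∃ ψ : (aeval w : MvPolynomial ι ℚ →ₐ[ℚ] ℂ).toRingHom.range →+* ℂ,
      ∀ (f : MvPolynomial ι ℚ) (hf : aeval w f ∈ (aeval w : MvPolynomial ι ℚ →ₐ[ℚ] ℂ).toRingHom.range),
        ψ ⟨aeval w f, hf⟩ = aeval w' f := by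
  let p := (aeval w : MvPolynomial ι ℚ →ₐ[ℚ] ℂ).toRingHom
  let q := (aeval w' : MvPolynomial ι ℚ →ₐ[ℚ] ℂ).toRingHom
  have hs : Function.Surjective p.rangeRestrict := p.rangeRestrict_surjective
  have hk : RingHom.ker p.rangeRestrict ≤ RingHom.ker q := by
    intro f hf
    rw [RingHom.mem_ker] at hf ⊢
    exact h f (congrArg Subtype.val hf)
  refine ⟨p.rangeRestrict.liftOfSurjective hs ⟨q, hk⟩, fun f hf => ?_⟩
  exact RingHom.liftOfSurjective_comp_apply p.rangeRestrict hs ⟨q, hk⟩ f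

theorem exists_loc (B : Subring ℂ) (ψ : B →+* ℂ) (g : ℂ) (hg : g ∈ B) (hψ : ψ ⟨g, hg⟩ ≠ 0) :
    ∃ (B' : Subring ℂ) (ψ' : B' →+* ℂ), g⁻¹ ∈ B' ∧ (∀ (b : ℂ) (hb : b ∈ B), ∃ hb' : b ∈ B',
      ψ' ⟨b, hb'⟩ = ψ ⟨b, hb⟩) ∧ ∀ z : B', ∃ u v : B, ψ' z = ψ u / ψ v := by
  have hg0 : g ≠ 0 := by
    rintro rfl
    exact hψ (map_zero ψ)
  let B' : Subring ℂ :=
    { carrier := {z | ∃ N : ℕ, g ^ N * z ∈ B}
      mul_mem' := by
        rintro a b ⟨N, hN⟩ ⟨M, hM⟩
        refine ⟨N + M, ?_⟩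
        have : g ^ (N + M) * (a * b) = (g ^ N * a) * (g ^ M * b) := by ring
        rw [this]
        exact mul_mem hN hM
      one_mem' := ⟨0, by simp⟩
      add_mem' := by
        rintro a b ⟨N, hN⟩ ⟨M, hM⟩
        refine ⟨N + M, ?_⟩
        have : g ^ (N + M) * (a + b) = g ^ M * (g ^ N * a) + g ^ N * (g ^ M * b) := by ring
        rw [this]
        exact add_mem (mul_mem (pow_mem hg M) hN) (mul_mem (pow_mem hg N) hM)
      zero_mem' := ⟨0, by simp⟩
      neg_mem' := by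
        rintro a ⟨N, hN⟩
        refine ⟨N, ?_⟩
        rw [mul_neg]
        exact neg_mem hN }
  have hex : ∀ z : B', ∃ N : ℕ, g ^ N * (z : ℂ) ∈ B := fun z => z.2
  choose N hN using hex
  let F : B' → ℂ := fun z => ψ ⟨g ^ N z * z, hN z⟩ / ψ ⟨g, hg⟩ ^ N z
  have hpow : ∀ (M : ℕ) (h : g ^ M ∈ B), ψ ⟨g ^ M, h⟩ = ψ ⟨g, hg⟩ ^ M := by
    intro M h
    rw [← map_pow]
    rfl
  have key : ∀ (z : B') (M : ℕ) (h : g ^ M * (z : ℂ) ∈ B),
      ψ ⟨g ^ M * z, h⟩ = F z * ψ ⟨g, hg⟩ ^ M := by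
    intro z M h
    have h1 : ψ ⟨g ^ M, pow_mem hg M⟩ * ψ ⟨g ^ N z * z, hN z⟩ =
        ψ ⟨g ^ N z, pow_mem hg _⟩ * ψ ⟨g ^ M * z, h⟩ := by
      rw [← map_mul, ← map_mul]
      congr 1
      ext
      change g ^ M * (g ^ N z * (z : ℂ)) = g ^ N z * (g ^ M * z)
      ring
    rw [hpow, hpow] at h1
    have h2 : ψ ⟨g, hg⟩ ^ N z ≠ 0 := pow_ne_zero _ hψ
    change _ = ψ ⟨g ^ N z * z, hN z⟩ / ψ ⟨g, hg⟩ ^ N z * _
    rw [div_mul_eq_mul_div, eq_div_iff h2]
    linear_combination -h1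
  have key' : ∀ (z : B') (M : ℕ) (y : ℂ) (hy : y ∈ B), y = g ^ M * (z : ℂ) →
      ψ ⟨y, hy⟩ = F z * ψ ⟨g, hg⟩ ^ M := by
    rintro z M y hy rfl
    exact key z M hy
  have hne : ∀ M : ℕ, ψ ⟨g, hg⟩ ^ M ≠ 0 := fun M => pow_ne_zero _ hψ
  refine ⟨B', { toFun := F
                map_one' := ?_
                map_mul' := ?_
                map_zero' := ?_
                map_add' := ?_ }, ⟨1, ?_⟩, fun b hb => ⟨⟨0, by simpa using hb⟩, ?_⟩,
    fun z => ⟨⟨g ^ N z * z, hN z⟩, ⟨g, hg⟩ ^ N z, by rw [map_pow]; rfl⟩⟩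
  · have h1 := key' 1 0 1 (one_mem B) (by simp)
    rw [pow_zero, mul_one] at h1
    rw [← h1]
    exact map_one ψ
  · intro a b
    have h : g ^ (N a + N b) * ((a * b : B') : ℂ) ∈ B := by
      have : g ^ (N a + N b) * ((a * b : B') : ℂ) = (g ^ N a * a) * (g ^ N b * b) := by
        push_cast; ring
      rw [this]
      exact mul_mem (hN a) (hN b)
    have h1 := key (a * b) _ h
    have h2 : ψ ⟨g ^ (N a + N b) * ((a * b : B') : ℂ), h⟩ =
        ψ ⟨g ^ N a * a, hN a⟩ * ψ ⟨g ^ N b * b, hN b⟩ := by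
      rw [← map_mul]
      congr 1
      ext
      change g ^ (N a + N b) * ((a * b : B') : ℂ) = (g ^ N a * a) * (g ^ N b * b)
      push_cast; ring
    rw [h2, key a, key b] at h1
    refine mul_right_cancel₀ (hne (N a + N b)) ?_
    rw [← h1, pow_add]
    ring
  · have h1 := key' 0 0 0 (zero_mem B) (by simp)
    rw [pow_zero, mul_one] at h1
    rw [← h1]
    exact map_zero ψ
  · intro a b
    have h : g ^ (N a + N b) * ((a + b : B') : ℂ) ∈ B := by
      have : g ^ (N a + N b) * ((a + b : B') : ℂ) = g ^ N b * (g ^ N a * a) +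
          g ^ N a * (g ^ N b * b) := by
        push_cast; ring
      rw [this]
      exact add_mem (mul_mem (pow_mem hg _) (hN a)) (mul_mem (pow_mem hg _) (hN b))
    have h1 := key (a + b) _ h
    have h2 : ψ ⟨g ^ (N a + N b) * ((a + b : B') : ℂ), h⟩ =
        ψ ⟨g ^ N b, pow_mem hg _⟩ * ψ ⟨g ^ N a * a, hN a⟩ +
        ψ ⟨g ^ N a, pow_mem hg _⟩ * ψ ⟨g ^ N b * b, hN b⟩ := by
      rw [← map_mul, ← map_mul, ← map_add]
      congr 1
      ext
      change g ^ (N a + N b) * ((a + b : B') : ℂ) = g ^ N b * (g ^ N a * a) +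
          g ^ N a * (g ^ N b * b)
      push_cast; ring
    rw [h2, key a, key b, hpow, hpow] at h1
    refine mul_right_cancel₀ (hne (N a + N b)) ?_
    rw [← h1, pow_add]
    ring
  · rw [pow_one, mul_inv_cancel₀ hg0]
    exact one_mem B
  · have h1 := key' ⟨b, ⟨0, by simpa using hb⟩⟩ 0 b hb (by simp)
    have h3 : ψ ⟨g, hg⟩ ^ 0 = 1 := pow_zero _
    rw [h3, mul_one] at h1
    exact h1.symm

theorem exists_intext {R S : Type} [CommRing R] [CommRing S] [IsDomain S] [Algebra R S]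
    [Algebra.IsIntegral R S] (hinj : Function.Injective (algebraMap R S)) (ψ : R →+* ℂ) :
    ∃ ψ' : S →+* ℂ, ψ'.comp (algebraMap R S) = ψ := by
  have hp : (RingHom.ker ψ).IsPrime := RingHom.ker_isPrime ψ
  obtain ⟨Q, hQ, hQ2⟩ := Ideal.exists_ideal_over_prime_of_isIntegral_of_isDomain (S := S)
    (RingHom.ker ψ) (by
      rw [(RingHom.injective_iff_ker_eq_bot _).1 hinj]
      exact bot_le)
  have : IsDomain (S ⧸ Q) := inferInstance
  let R' := R ⧸ RingHom.ker ψ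
  let f : R' →+* ℂ := RingHom.kerLift ψ
  have hf : Function.Injective f := RingHom.kerLift_injective ψ
  let g : R' →+* S ⧸ Q := Ideal.quotientMap Q (algebraMap R S) (by rw [hQ2])
  have hg : Function.Injective g := Ideal.quotientMap_injective' (by rw [hQ2])
  let : Algebra R' ℂ := f.toAlgebra
  let : Algebra R' (S ⧸ Q) := g.toAlgebra
  have hint : Algebra.IsIntegral R' (S ⧸ Q) := by
    constructor
    intro z
    obtain ⟨s, rfl⟩ := Ideal.Quotient.mk_surjective z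
    obtain ⟨p, hp1, hp2⟩ := Algebra.IsIntegral.isIntegral (R := R) s
    refine ⟨p.map (Ideal.Quotient.mk (RingHom.ker ψ)), hp1.map _, ?_⟩
    rw [Polynomial.eval₂_map]
    have h1 : (algebraMap R' (S ⧸ Q)).comp (Ideal.Quotient.mk (RingHom.ker ψ)) =
        (Ideal.Quotient.mk Q).comp (algebraMap R S) := by
      ext r
      rfl
    rw [h1, ← Polynomial.hom_eval₂, hp2, map_zero]
  have : FaithfulSMul R' ℂ := (faithfulSMul_iff_algebraMap_injective R' ℂ).2 hf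
  have : FaithfulSMul R' (S ⧸ Q) := (faithfulSMul_iff_algebraMap_injective R' (S ⧸ Q)).2 hg
  have : Algebra.IsAlgebraic R' (S ⧸ Q) := inferInstance
  let L : S ⧸ Q →ₐ[R'] ℂ := IsAlgClosed.lift
  refine ⟨L.toRingHom.comp (Ideal.Quotient.mk Q), ?_⟩
  ext r
  have h1 : Ideal.Quotient.mk Q (algebraMap R S r) =
      algebraMap R' (S ⧸ Q) (Ideal.Quotient.mk (RingHom.ker ψ) r) := rfl
  change L (Ideal.Quotient.mk Q (algebraMap R S r)) = ψ r
  rw [h1, L.commutes]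
  rfl

theorem exists_intext' (B : Subring ℂ) (ψ : B →+* ℂ) :
    ∃ (R : Subring ℂ) (φ : R →+* ℂ), (∀ z : ℂ, IsIntegral B z → z ∈ R) ∧
      (∀ (b : ℂ) (hb : b ∈ B), ∃ hb' : b ∈ R, φ ⟨b, hb'⟩ = ψ ⟨b, hb⟩) ∧
      ((∀ b : B, IsAlgebraic ℚ (ψ b)) → ∀ z : R, IsAlgebraic ℚ (φ z)) := by
  let S := integralClosure B ℂ
  have hinj : Function.Injective (algebraMap B S) := by
    intro a b hab
    have h1 : ((algebraMap B S a : S) : ℂ) = (algebraMap B S b : S) := by rw [hab]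
    exact Subtype.ext h1
  obtain ⟨φ, hφ⟩ := exists_intext (R := B) (S := S) hinj ψ
  refine ⟨S.toSubring, φ, fun z hz => hz, fun b hb => ?_, fun hB z => ?_⟩
  · refine ⟨(algebraMap B S ⟨b, hb⟩).2, ?_⟩
    exact RingHom.congr_fun hφ ⟨b, hb⟩
  · let z' : S := ⟨z.1, z.2⟩
    obtain ⟨p, hp1, hp2⟩ := Algebra.IsIntegral.isIntegral (R := B) (A := S) z'
    let A0 := integralClosure ℚ ℂ
    let j : B →+* A0 := ψ.codRestrict A0.toSubring (fun b => (hB b).isIntegral)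
    have h1 : IsIntegral A0 (φ z) := by
      refine ⟨p.map j, hp1.map _, ?_⟩
      rw [Polynomial.eval₂_map]
      have h2 : (algebraMap A0 ℂ).comp j = φ.comp (algebraMap B S) := by
        rw [hφ]
        rfl
      rw [h2]
      change Polynomial.eval₂ _ (φ z') p = 0
      rw [← Polynomial.hom_eval₂, hp2, map_zero]
    have h2 : Algebra.IsIntegral ℚ A0 := inferInstance
    exact (isIntegral_trans (R := ℚ) (A := A0) _ h1).isAlgebraic

/-- specialization of finitely many numbers which are algebraic over the field generated by `w` -/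
theorem spec {ι : Type*} (w : ι → ℂ) (Z : Finset ℂ)
    (hZ : ∀ z ∈ Z, IsAlgebraic (IntermediateField.adjoin ℚ (Set.range w)) z) :
    ∃ g : MvPolynomial ι ℚ, aeval w g ≠ 0 ∧ ∀ w' : ι → ℂ,
      (∀ f : MvPolynomial ι ℚ, aeval w f = 0 → aeval w' f = 0) → aeval w' g ≠ 0 →
      ∃ (R : Subring ℂ) (φ : R →+* ℂ), (∀ q : ℚ, (q : ℂ) ∈ R) ∧ (∀ z ∈ Z, z ∈ R) ∧
        (∀ i, ∃ h : w i ∈ R, φ ⟨w i, h⟩ = w' i) ∧
        ((∀ i, IsAlgebraic ℚ (w' i)) → ∀ z : R, IsAlgebraic ℚ (φ z)) := by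
  classical
  set A := (aeval w : MvPolynomial ι ℚ →ₐ[ℚ] ℂ).range with hA
  have hadj : Algebra.adjoin ℚ (Set.range w) = A := Algebra.adjoin_range_eq_range_aeval ℚ w
  have h1 : ∀ z : ℂ, ∃ y : ℂ, z ∈ Z → y ∈ A ∧ y ≠ 0 ∧
      IsIntegral (Algebra.adjoin ℚ (Set.range w)) (y * z) := by
    intro z
    by_cases hz : z ∈ Z
    · obtain ⟨y, hy0, hy⟩ := (isAlgebraic_adjoin_field (hZ z hz)).exists_integral_multiple
      refine ⟨y, fun _ => ⟨hadj ▸ y.2, fun h => hy0 (Subtype.ext h), ?_⟩⟩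
      have : (y : ℂ) * z = y • z := by rw [Algebra.smul_def]; rfl
      rw [this]
      exact hy
    · exact ⟨0, fun h => absurd h hz⟩
  choose y hy using h1
  have hgA : ∏ z ∈ Z, y z ∈ A := prod_mem fun z hz => (hy z hz).1
  obtain ⟨g, hg⟩ := hgA
  have hg' : aeval w g = ∏ z ∈ Z, y z := hg
  refine ⟨g, ?_, fun w' hw' hgw' => ?_⟩
  · rw [hg']
    exact Finset.prod_ne_zero_iff.2 fun z hz => (hy z hz).2.1
  obtain ⟨ψ, hψ⟩ := exists_hom w w' hw'
  obtain ⟨B, ψ1, hinv, hB, hBalg⟩ := exists_loc _ ψ (aeval w g) ⟨g, rfl⟩ (by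
    rw [hψ]; exact hgw')
  obtain ⟨R, φ, hR, hφ, hφalg⟩ := exists_intext' B ψ1
  have hmemB : ∀ f : MvPolynomial ι ℚ, aeval w f ∈ B := fun f => (hB _ ⟨f, rfl⟩).1
  have hmemR : ∀ b ∈ B, b ∈ R := fun b hb => (hφ b hb).1
  refine ⟨R, φ, fun q => ?_, fun z hz => ?_, fun i => ?_, fun hw'alg => hφalg fun b => ?_⟩
  · have h2 := hmemR _ (hmemB (C q))
    rw [algHom_C] at h2
    exact h2
  · obtain ⟨hyA, hy0, hyint⟩ := hy z hz
    have h2 : y z * z ∈ R := by
      refine hR _ ?_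
      obtain ⟨p, hp1, hp2⟩ := hyint
      let j : Algebra.adjoin ℚ (Set.range w) →+* B :=
        (algebraMap (Algebra.adjoin ℚ (Set.range w)) ℂ).codRestrict B (fun a => by
          have h3 : (a : ℂ) ∈ A := hadj ▸ a.2
          obtain ⟨f, hf⟩ := h3
          have h4 := hmemB f
          have h5 : aeval w f = (a : ℂ) := hf
          rw [h5] at h4
          exact h4)
      refine ⟨p.map j, hp1.map _, ?_⟩
      rw [Polynomial.eval₂_map]
      exact hp2
    have h3 : (y z)⁻¹ ∈ R := by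
      have h4 : (y z)⁻¹ = (aeval w g)⁻¹ * ∏ z' ∈ Z.erase z, y z' := by
        rw [hg', ← Finset.mul_prod_erase Z y hz, mul_inv, mul_assoc, inv_mul_cancel₀, mul_one]
        exact Finset.prod_ne_zero_iff.2 fun z' hz' => (hy z' (Finset.mem_of_mem_erase hz')).2.1
      rw [h4]
      refine mul_mem (hmemR _ hinv) ?_
      have h5 : ∏ z' ∈ Z.erase z, y z' ∈ A :=
        prod_mem fun z' hz' => (hy z' (Finset.mem_of_mem_erase hz')).1
      obtain ⟨f, hf⟩ := h5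
      have h6 : aeval w f = ∏ z' ∈ Z.erase z, y z' := hf
      rw [← h6]
      exact hmemR _ (hmemB f)
    have h4 : z = (y z)⁻¹ * (y z * z) := by
      rw [← mul_assoc, inv_mul_cancel₀ hy0, one_mul]
    rw [h4]
    exact mul_mem h3 h2
  · have h2 : aeval w (X i : MvPolynomial ι ℚ) = w i := aeval_X _ _
    have h3 : w i ∈ (aeval w : MvPolynomial ι ℚ →ₐ[ℚ] ℂ).toRingHom.range := ⟨X i, h2⟩
    obtain ⟨hb1, hb2⟩ := hB (w i) h3
    obtain ⟨hr1, hr2⟩ := hφ (w i) hb1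
    refine ⟨hr1, ?_⟩
    rw [hr2, hb2]
    have h4 := hψ (X i) (by rw [h2]; exact h3)
    have h5 : aeval w' (X i : MvPolynomial ι ℚ) = w' i := aeval_X _ _
    rw [← h5, ← h4]
    congr 1
    ext
    exact h2.symm
  · have hall : ∀ u : (aeval w : MvPolynomial ι ℚ →ₐ[ℚ] ℂ).toRingHom.range,
        IsAlgebraic ℚ (ψ u) := by
      rintro ⟨_, f, rfl⟩
      have h1 := hψ f ⟨f, rfl⟩
      change IsAlgebraic ℚ (ψ ⟨aeval w f, _⟩)
      rw [h1]
      induction f using MvPolynomial.induction_on with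
      | C r => rw [algHom_C]; exact isAlgebraic_algebraMap r
      | add p q hp hq =>
        rw [map_add]
        exact (hp (hψ p ⟨p, rfl⟩)).add (hq (hψ q ⟨q, rfl⟩))
      | mul_X p i hp =>
        rw [map_mul, aeval_X]
        exact (hp (hψ p ⟨p, rfl⟩)).mul (hw'alg i)
    obtain ⟨u, v, huv⟩ := hBalg b
    rw [huv, div_eq_mul_inv]
    exact (hall u).mul (hall v).inv

/-- ring homomorphisms commute with rational polynomials -/
theorem phi_aeval {σ : Type*} (R : Subring ℂ) (hR : ∀ q : ℚ, (q : ℂ) ∈ R) (φ : R →+* ℂ)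
    (z : σ → ℂ) (hz : ∀ i, z i ∈ R) (f : MvPolynomial σ ℚ) : ∃ h : aeval z f ∈ R,
      φ ⟨aeval z f, h⟩ = aeval (fun i => φ ⟨z i, hz i⟩) f := by
  induction f using MvPolynomial.induction_on with
  | C q =>
    have h1 : aeval z (C q) = (q : ℂ) := algHom_C _ _
    refine ⟨h1 ▸ hR q, ?_⟩
    have h2 : aeval (fun i => φ ⟨z i, hz i⟩) (C q) = (q : ℂ) := algHom_C _ _
    rw [h2]
    let j : ℚ →+* R := (algebraMap ℚ ℂ).codRestrict R hR
    have h3 := eq_ratCast (φ.comp j) q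
    refine Eq.trans ?_ h3
    change φ _ = φ (j q)
    congr 1
    ext
    exact h1
  | add p q hp hq =>
    obtain ⟨hp1, hp2⟩ := hp
    obtain ⟨hq1, hq2⟩ := hq
    have h1 : aeval z (p + q) = aeval z p + aeval z q := map_add _ _ _
    refine ⟨h1 ▸ add_mem hp1 hq1, ?_⟩
    have h2 : aeval (fun i => φ ⟨z i, hz i⟩) (p + q) = aeval (fun i => φ ⟨z i, hz i⟩) p +
        aeval (fun i => φ ⟨z i, hz i⟩) q := map_add _ _ _
    rw [h2, ← hp2, ← hq2, ← map_add φ]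
    congr 1
    ext
    exact h1
  | mul_X p i hp =>
    obtain ⟨hp1, hp2⟩ := hp
    have h1 : aeval z (p * X i) = aeval z p * z i := by rw [map_mul, aeval_X]
    refine ⟨h1 ▸ mul_mem hp1 (hz i), ?_⟩
    have h2 : aeval (fun i => φ ⟨z i, hz i⟩) (p * X i) = aeval (fun i => φ ⟨z i, hz i⟩) p *
        φ ⟨z i, hz i⟩ := by rw [map_mul, aeval_X]
    rw [h2, ← hp2, ← map_mul φ]
    congr 1
    ext
    exact h1

end Pool.Agent.E8helper35.ZL
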