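import Mathlib
import Pool.Agent.E8helper35.ZL.Spec
import Pool.Agent.E8helper35.ZL.Lin

set_option autoImplicit false

namespace Pool.Agent.E8helper35.ZL

open MvPolynomial

theorem infinite_roots : {z : ℂ | ∃ N : ℕ, 0 < N ∧ z ^ N = 1}.Infinite := by
  refine Set.infinite_of_injective_forall_mem
    (f := fun n : ℕ => Complex.exp (2 * Real.pi * Complex.I / ((n + 1 : ℕ) : ℂ))) ?_ ?_
  · intro a b hab
    have ha := Complex.isPrimitiveRoot_exp (a + 1) (Nat.succ_ne_zero a)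
    have hb := Complex.isPrimitiveRoot_exp (b + 1) (Nat.succ_ne_zero b)
    simp only at hab
    rw [hab] at ha
    have := ha.unique hb
    omega
  · intro n
    exact ⟨n + 1, Nat.succ_pos n, (Complex.isPrimitiveRoot_exp (n + 1) (Nat.succ_ne_zero n)).pow_eq_one⟩

theorem exists_roots {σ : Type*} (g : MvPolynomial σ ℂ) (hg : g ≠ 0) :
    ∃ ζ : σ → ℂ, (∀ i, ∃ N : ℕ, 0 < N ∧ ζ i ^ N = 1) ∧ eval ζ g ≠ 0 := by
  by_contra hcon
  push Not at hcon
  refine hg (funext_set (fun _ => {z : ℂ | ∃ N : ℕ, 0 < N ∧ z ^ N = 1})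
    (fun _ => infinite_roots) fun x hx => ?_)
  rw [map_zero]
  exact hcon x fun i => hx i (Set.mem_univ i)

theorem exists_rootsQ {σ : Type*} (g : MvPolynomial σ ℚ) (hg : g ≠ 0) :
    ∃ ζ : σ → ℂ, (∀ i, ∃ N : ℕ, 0 < N ∧ ζ i ^ N = 1) ∧ aeval ζ g ≠ 0 := by
  obtain ⟨ζ, h1, h2⟩ := exists_roots (map (algebraMap ℚ ℂ) g)
    ((map_ne_zero_iff _ (map_injective _ (algebraMap ℚ ℂ).injective)).2 hg)
  refine ⟨ζ, h1, ?_⟩
  rw [eval_map] at h2
  exact h2

theorem root_alg {z : ℂ} {N : ℕ} (hN : 0 < N) (h : z ^ N = 1) : IsAlgebraic ℚ z := by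
  refine ⟨Polynomial.X ^ N - 1, Polynomial.X_pow_sub_C_ne_zero hN 1, ?_⟩
  rw [map_sub, map_pow, Polynomial.aeval_X, map_one, h, sub_self]

theorem li_of_indep {ι : Type*} [Fintype ι] {s : ι → ℂ} (h : AlgebraicIndependent ℚ s) :
    LinearIndependent ℚ fun i => e (s i) := by
  have h0 : ∀ i, s i ≠ 0 := fun i hi => by
    have := h.transcendental i
    rw [hi] at this
    exact this isAlgebraic_zero
  exact li_of_rel h0 fun a ha => mono_eq h a 1 (by rw [ha, map_one])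

theorem algF_aeval (K : IntermediateField ℚ ℂ) {σ : Type*} (x : σ → ℂ)
    (h : ∀ i, IsAlgebraic K (x i)) (f : MvPolynomial σ ℚ) : IsAlgebraic K (aeval x f) := by
  induction f using MvPolynomial.induction_on with
  | C r =>
    rw [algHom_C]
    exact isAlgebraic_algebraMap (algebraMap ℚ K r)
  | add p q hp hq => rw [map_add]; exact hp.add hq
  | mul_X p i hp => rw [map_mul, aeval_X]; exact hp.mul (h i)

theorem td_spec {n : ℕ} (s : Fin n → ℂ) (hs : ∀ i, s i ≠ 0) (J : Finset (Fin n))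
    (hJ : AlgebraicIndependent ℚ (fun j : J => s j))
    (hmax : ∀ i, IsAlgebraic (IntermediateField.adjoin ℚ (Set.range fun j : J => s j)) (s i))
    (H : MvPolynomial (Fin n) ℚ) (hH : aeval s H ≠ 0) :
    ∃ s' : Fin n → ℂ, (∀ i, s' i ≠ 0) ∧ (∀ f : MvPolynomial (Fin n) ℚ, aeval s f = 0 →
      aeval s' f = 0) ∧ aeval s' H ≠ 0 ∧ rk s' + J.card ≤ rk s ∧ ∀ i, IsAlgebraic ℚ (s' i) := by
  classical
  obtain ⟨g, hg, hspec⟩ := spec (fun j : J => s j)
    (insert (aeval s H)⁻¹ (Finset.univ.image s ∪ Finset.univ.image fun i => (s i)⁻¹)) (by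
      intro z hz
      rw [Finset.mem_insert, Finset.mem_union, Finset.mem_image, Finset.mem_image] at hz
      rcases hz with rfl | ⟨i, -, rfl⟩ | ⟨i, -, rfl⟩
      · exact (algF_aeval _ s hmax H).inv
      · exact hmax i
      · exact (hmax i).inv)
  have hg0 : g ≠ 0 := by
    rintro rfl
    exact hg (map_zero _)
  obtain ⟨ζ, hζ, hgζ⟩ := exists_rootsQ g hg0
  obtain ⟨R, φ, hRQ, hRZ, hφ, hφalg⟩ := hspec ζ (fun f hf => by
    have : f = 0 := hJ (by rw [hf, map_zero])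
    rw [this, map_zero]) hgζ
  have hsR : ∀ i, s i ∈ R := fun i => hRZ _ (by simp)
  have hsR' : ∀ i, (s i)⁻¹ ∈ R := fun i => hRZ _ (by simp)
  obtain ⟨Φ, hΦ⟩ := exists_Phi R φ
  have hunit : ∀ (u : ℂ) (hu : u ∈ R), u⁻¹ ∈ R → u ≠ 0 → φ ⟨u, hu⟩ ≠ 0 := by
    intro u hu hu' h0 h
    have h1 : φ ⟨u, hu⟩ * φ ⟨u⁻¹, hu'⟩ = 1 := by
      rw [← map_mul, ← map_one φ]
      congr 1
      ext
      exact mul_inv_cancel₀ h0
    rw [h, zero_mul] at h1
    exact zero_ne_one h1
  have hζalg : ∀ i, IsAlgebraic ℚ (ζ i) := fun i => by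
    obtain ⟨N, hN, hN'⟩ := hζ i
    exact root_alg hN hN'
  refine ⟨fun i => φ ⟨s i, hsR i⟩, fun i => hunit _ _ (hsR' i) (hs i), fun f hf => ?_, ?_, ?_,
    fun i => hφalg hζalg _⟩
  · obtain ⟨h1, h2⟩ := phi_aeval R hRQ φ s hsR f
    rw [← h2, ← map_zero φ]
    congr 1
    ext
    exact hf
  · obtain ⟨h1, h2⟩ := phi_aeval R hRQ φ s hsR H
    rw [← h2]
    exact hunit _ _ (hRZ _ (by simp)) hH
  · have hfd : FiniteDimensional ℚ (Submodule.span ℚ (Set.range fun i => e (s i))) :=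
      FiniteDimensional.span_of_finite ℚ (Set.finite_range _)
    have h1 := finrank_map_add Φ (Submodule.span ℚ (Set.range fun j : J => e (s j)))
      (Submodule.span ℚ (Set.range fun i => e (s i))) (by
        refine Submodule.span_mono ?_
        rintro _ ⟨j, rfl⟩
        exact ⟨j, rfl⟩)
    have h2 : (Submodule.span ℚ (Set.range fun i => e (s i))).map Φ =
        Submodule.span ℚ (Set.range fun i => e (φ ⟨s i, hsR i⟩)) := by
      rw [Submodule.map_span, ← Set.range_comp]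
      congr 2
      funext i
      exact hΦ _ (hsR i) (hsR' i) (hs i)
    have h3 : (Submodule.span ℚ (Set.range fun j : J => e (s j))).map Φ = ⊥ := by
      rw [Submodule.map_span, ← Set.range_comp, Submodule.span_eq_bot]
      rintro _ ⟨j, rfl⟩
      rw [Function.comp_apply, hΦ _ (hsR j) (hsR' j) (hs j)]
      obtain ⟨h4, h5⟩ := hφ j
      rw [h5]
      obtain ⟨N, hN, hN'⟩ := hζ j
      exact e_root hN hN'
    have h4 : Module.finrank ℚ (Submodule.span ℚ (Set.range fun j : J => e (s j))) = J.card := by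
      rw [finrank_span_eq_card (li_of_indep hJ), Fintype.card_coe]
    rw [h2, h3, h4, finrank_bot, add_zero] at h1
    exact h1

end Pool.Agent.E8helper35.ZL
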