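import Mathlib
import Pool.Agent.E8helper35.ZL.Bad2
import Pool.Agent.E8helper35.ZL.TD

set_option autoImplicit false

namespace Pool.Agent.E8helper35.ZL

open MvPolynomial

/-- the density hypothesis of the conjecture -/
def Dens {n : ℕ} (P : Ideal (MvPolynomial (Fin n) ℂ)) : Prop :=
  ∀ f : MvPolynomial (Fin n) ℂ,
    (∀ x : Fin n → ℂ, (∀ i, x i ≠ 0) → (∀ g ∈ P, MvPolynomial.eval x g = 0) →
      (∃ Λ : Submodule ℤ (Fin n → ℤ),
        ringKrullDim (MvPolynomial (Fin n) ℂ ⧸ P)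
            + ((n - Module.finrank ℤ Λ : ℕ) : WithBot ℕ∞) + 1 ≤ (n : WithBot ℕ∞) ∧
        ∀ a ∈ Λ, ∏ i : Fin n, x i ^ a i = 1) →
      MvPolynomial.eval x f = 0) →
    ∀ x : Fin n → ℂ, (∀ i, x i ≠ 0) → (∀ g ∈ P, MvPolynomial.eval x g = 0) →
      MvPolynomial.eval x f = 0

theorem mem_of_torus {n : ℕ} (P : Ideal (MvPolynomial (Fin n) ℂ)) (hP : P.IsPrime)
    (hX : (∏ i : Fin n, (X i : MvPolynomial (Fin n) ℂ)) ∉ P) (f : MvPolynomial (Fin n) ℂ)
    (h : ∀ x : Fin n → ℂ, (∀ i, x i ≠ 0) → (∀ g ∈ P, eval x g = 0) → eval x f = 0) : f ∈ P := by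
  have h1 : f * ∏ i : Fin n, (X i : MvPolynomial (Fin n) ℂ) ∈ P := by
    rw [← IsPrime.vanishingIdeal_zeroLocus (K := ℂ) P]
    rw [mem_vanishingIdeal_iff]
    intro x hx
    rw [mem_zeroLocus_iff] at hx
    rw [aeval_eq_eval]
    change eval x (f * ∏ i : Fin n, (X i : MvPolynomial (Fin n) ℂ)) = 0
    rw [map_mul, map_prod]
    by_cases h0 : ∀ i, x i ≠ 0
    · rw [h x h0 fun g hg => ?_, zero_mul]
      have := hx g hg
      rw [aeval_eq_eval] at this
      exact this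
    · push Not at h0
      obtain ⟨i, hi⟩ := h0
      rw [Finset.prod_eq_zero (Finset.mem_univ i) (by rw [eval_X, hi]), mul_zero]
  exact (hP.mem_or_mem h1).resolve_right hX

theorem alg_field_of_adjoin {T : Set ℂ} {z : ℂ}
    (h : IsAlgebraic (Algebra.adjoin ℚ T) z) : IsAlgebraic (IntermediateField.adjoin ℚ T) z := by
  open scoped IntermediateField.algebraAdjoinAdjoin in
  exact (IsFractionRing.isAlgebraic_iff (Algebra.adjoin ℚ T) (IntermediateField.adjoin ℚ T) ℂ).1 h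

theorem step_A {n : ℕ} (P : Ideal (MvPolynomial (Fin n) ℂ)) (hP : P.IsPrime)
    (hX : (∏ i : Fin n, (X i : MvPolynomial (Fin n) ℂ)) ∉ P) (hdens : Dens P) (x : Fin n → ℂ)
    (hx : ∀ f : MvPolynomial (Fin n) ℚ, aeval x f = 0 ↔ map (algebraMap ℚ ℂ) f ∈ P)
    (J : Finset (Fin n)) (hJ : AlgebraicIndepOn ℚ x (J : Set (Fin n)))
    (H : MvPolynomial (Fin n) ℚ) (hH : aeval x H ≠ 0) :
    ∃ s' : Fin n → ℂ, (∀ i, s' i ≠ 0) ∧ (∀ f : MvPolynomial (Fin n) ℚ, aeval x f = 0 →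
      aeval s' f = 0) ∧ aeval s' H ≠ 0 ∧ rk s' + J.card + 1 ≤ n ∧
      ∀ i, IsAlgebraic ℚ (s' i) := by
  classical
  obtain ⟨d, hd, -, -⟩ := dim_spec ℂ (MvPolynomial (Fin n) ℂ ⧸ P)
  have hJ' : AlgebraicIndepOn ℚ
      (fun j : Fin n => (Ideal.Quotient.mk P (X j) : MvPolynomial (Fin n) ℂ ⧸ P))
      (J : Set (Fin n)) := by
    change AlgebraicIndependent ℚ _
    rw [algebraicIndependent_iff]
    intro f hf
    have hJi : AlgebraicIndependent ℚ (fun j : (J : Set (Fin n)) => x j) := hJ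
    rw [algebraicIndependent_iff] at hJi
    refine hJi f ?_
    have h1 : aeval (fun j : (J : Set (Fin n)) => x j) f = aeval x (rename Subtype.val f) := by
      rw [aeval_rename]
      rfl
    have h2 : aeval (fun j : (J : Set (Fin n)) =>
        (Ideal.Quotient.mk P (X (j : Fin n)) : MvPolynomial (Fin n) ℂ ⧸ P)) f =
        Ideal.Quotient.mk P (map (algebraMap ℚ ℂ) (rename Subtype.val f)) := by
      clear hf h1
      induction f using MvPolynomial.induction_on with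
      | C a => rw [algHom_C, rename_C, map_C]; rfl
      | add p q hp hq => rw [map_add, hp, hq, map_add, map_add, map_add]
      | mul_X p i hp => rw [map_mul, hp, aeval_X, map_mul, map_mul, map_mul, rename_X, map_X]
    rw [h1, hx, ← Ideal.Quotient.eq_zero_iff_mem, ← h2]
    exact hf
  obtain ⟨G, hG, hbad⟩ := bad P hP d hd J hJ'
  have hHP : map (algebraMap ℚ ℂ) H ∉ P := fun h => hH ((hx H).2 h)
  have hex : ∃ s : Fin n → ℂ, (∀ i, s i ≠ 0) ∧ (∀ g ∈ P, eval s g = 0) ∧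
      (∃ Λ : Submodule ℤ (Fin n → ℤ), ringKrullDim (MvPolynomial (Fin n) ℂ ⧸ P)
            + ((n - Module.finrank ℤ Λ : ℕ) : WithBot ℕ∞) + 1 ≤ (n : WithBot ℕ∞) ∧
        ∀ a ∈ Λ, ∏ i : Fin n, s i ^ a i = 1) ∧ eval s (G * map (algebraMap ℚ ℂ) H) ≠ 0 := by
    by_contra hcon
    push Not at hcon
    have h1 := mem_of_torus P hP hX (G * map (algebraMap ℚ ℂ) H)
      (hdens _ fun s hs0 hsP ⟨Λ, hΛ1, hΛ2⟩ => hcon s hs0 hsP ⟨Λ, hΛ1, hΛ2⟩)
    exact (hP.mem_or_mem h1).elim hG hHP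
  obtain ⟨s, hs0, hsP, ⟨Λ, hΛ1, hΛ2⟩, hsGH⟩ := hex
  rw [map_mul] at hsGH
  have hsG : eval s G ≠ 0 := left_ne_zero_of_mul hsGH
  have hsH : aeval s H ≠ 0 := by
    have := right_ne_zero_of_mul hsGH
    rwa [eval_map] at this
  have hxs : ∀ f : MvPolynomial (Fin n) ℚ, aeval x f = 0 → aeval s f = 0 := by
    intro f hf
    have := hsP _ ((hx f).1 hf)
    rwa [eval_map] at this
  have hrk := rk_add_le s hs0 Λ hΛ2
  rw [Fintype.card_fin] at hrk
  rw [hd] at hΛ1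
  have hΛ3 : d + (n - Module.finrank ℤ Λ) + 1 ≤ n := by exact_mod_cast hΛ1
  obtain ⟨Js, -, -, hJs, hJsalg⟩ := maxext (R := ℚ) s ∅ Finset.univ
    (Finset.empty_subset _) (by
      have : IsEmpty ((∅ : Finset (Fin n)) : Set (Fin n)) := by simp
      exact algebraicIndependent_empty_type_iff.2 (algebraMap ℚ ℂ).injective)
  have hle := hbad s hsP hsG Js fun i => hJsalg i (Finset.mem_univ i)
  have hJs' : AlgebraicIndependent ℚ (fun j : Js => s j) := hJs
  obtain ⟨s', hs'0, hs's, hs'H, hs'rk, hs'alg⟩ := td_spec s hs0 Js hJs' (fun i => by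
    have h1 := hJsalg i (Finset.mem_univ i)
    have h2 : s '' (Js : Set (Fin n)) = Set.range fun j : Js => s j := by
      rw [Set.image_eq_range]
      rfl
    rw [h2] at h1
    exact alg_field_of_adjoin h1) H hsH
  exact ⟨s', hs'0, fun f hf => hs's f (hxs f hf), hs'H, by omega, hs'alg⟩

end Pool.Agent.E8helper35.ZL
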