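import Mathlib
import Pool.Agent.E8helper35.ZL.Alg

set_option autoImplicit false

namespace Pool.Agent.E8helper35.ZL

open Polynomial

theorem transc_of {R : Type*} [CommRing R] [Algebra R ℂ]
    (hinj : Function.Injective (algebraMap R ℂ)) (M : IntermediateField ℚ ℂ)
    (h : ∀ r : R, algebraMap R ℂ r ∈ M) {c : ℂ} (hc : Transcendental M c) :
    Transcendental R c := by
  rintro ⟨p, hp, hpc⟩
  let ψ : R →+* M := (algebraMap R ℂ).codRestrict M.toSubring h
  have hcomp : (algebraMap M ℂ).comp ψ = algebraMap R ℂ := rfl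
  have hψ : Function.Injective ψ := by
    intro a b hab
    apply hinj
    rw [← hcomp, RingHom.comp_apply, RingHom.comp_apply, hab]
  refine hc ⟨p.map ψ, (Polynomial.map_ne_zero_iff hψ).2 hp, ?_⟩
  rw [Polynomial.aeval_def, Polynomial.eval₂_map, hcomp]
  exact hpc

theorem transc_mono {F M : IntermediateField ℚ ℂ} (h : F ≤ M) {c : ℂ}
    (hc : Transcendental M c) : Transcendental F c :=
  transc_of (algebraMap F ℂ).injective M (fun r => h r.2) hc

theorem exists_transc (T : Set ℂ) (hT : T.Finite) :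
    ∃ c : ℂ, Transcendental (IntermediateField.adjoin ℚ T) c := by
  have h1 : Countable (IntermediateField.adjoin ℚ T) := by
    rw [← Cardinal.mk_le_aleph0_iff]
    refine (IntermediateField.cardinalMk_adjoin_le ℚ T).trans ?_
    have := hT.countable.le_aleph0
    simp [this]
  have h2 := Algebraic.countable (IntermediateField.adjoin ℚ T) ℂ
  by_contra hcon
  push Not at hcon
  refine not_countable_complex ?_
  refine h2.mono fun c _ => ?_
  have h3 := hcon c
  rw [Transcendental, not_not] at h3
  exact h3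

variable {n : ℕ}

/-- the field generated by the coordinates before `j` and the parameters -/
noncomputable def Fj (x : Fin n → ℂ) (j : ℕ) (S : Finset ℂ) : IntermediateField ℚ ℂ :=
  IntermediateField.adjoin ℚ ({z | ∃ i : Fin n, (i : ℕ) < j ∧ z = x i} ∪ (S : Set ℂ))

structure TInv (x : Fin n → ℂ) (j : ℕ) (S : Finset ℂ) (J : Finset (Fin n)) (l : List ℂ) :
    Prop where
  scard : S.card = 2 * j
  sind : AlgebraicIndepOn (IntermediateField.adjoin ℚ (Set.range x)) id (S : Set ℂ)
  jlt : ∀ i ∈ J, (i : ℕ) < j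
  jind : AlgebraicIndepOn ℚ x (J : Set (Fin n))
  adm : Adm (Fj x j S) (J.card + 2 * j) l
  xmem : ∀ i : Fin n, (i : ℕ) < j → e (x i) ∈ Sp l
  smem : ∀ s ∈ S, e s ∈ Sp l

theorem tuple_zero (x : Fin n → ℂ) : TInv x 0 ∅ ∅ [] := by
  refine ⟨rfl, ?_, by simp, ?_, adm_nil _, fun i hi => absurd hi (by omega), by simp⟩
  · have : IsEmpty ((∅ : Finset ℂ) : Set ℂ) := by simp
    exact algebraicIndependent_empty_type_iff.2 (algebraMap (IntermediateField.adjoin ℚ (Set.range x)) ℂ).injective
  · have : IsEmpty ((∅ : Finset (Fin n)) : Set (Fin n)) := by simp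
    exact algebraicIndependent_empty_type_iff.2 (algebraMap ℚ ℂ).injective

theorem indep_insert {x : Fin n → ℂ} {S : Finset ℂ} 
    (hS : AlgebraicIndepOn (IntermediateField.adjoin ℚ (Set.range x)) id (S : Set ℂ)) {c : ℂ}
    (hc : Transcendental (IntermediateField.adjoin ℚ (Set.range x ∪ (S : Set ℂ))) c) :
    AlgebraicIndepOn (IntermediateField.adjoin ℚ (Set.range x)) id (insert c (S : Set ℂ)) ∧
      c ∉ S := by
  constructor
  · refine hS.insert ?_
    refine transc_of Subtype.coe_injective _ ?_ hc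
    rintro ⟨r, hr⟩
    change r ∈ IntermediateField.adjoin ℚ (Set.range x ∪ (S : Set ℂ))
    rw [Set.image_id] at hr
    induction hr using Algebra.adjoin_induction with
    | mem y hy => exact IntermediateField.subset_adjoin _ _ (Or.inr hy)
    | algebraMap r => 
      exact IntermediateField.adjoin.mono _ _ _ Set.subset_union_left r.2
    | add a b _ _ ha hb => exact add_mem ha hb
    | mul a b _ _ ha hb => exact mul_mem ha hb
  · intro h
    exact transc_ne hc (IntermediateField.subset_adjoin _ _ (Or.inr h)) rfl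

theorem tuple_succ (x : Fin n → ℂ) (hx : ∀ i, x i ≠ 0) {j : ℕ} (hj : j < n) {S : Finset ℂ}
    {J : Finset (Fin n)} {l : List ℂ} (h : TInv x j S J l) :
    ∃ S' J' l', TInv x (j + 1) S' J' l' := by
  classical
  set K := IntermediateField.adjoin ℚ (Set.range x) with hK
  obtain ⟨c', hc'⟩ := exists_transc (Set.range x ∪ (S : Set ℂ))
    ((Set.finite_range x).union S.finite_toSet)
  obtain ⟨c, hc⟩ := exists_transc (Set.range x ∪ ((insert c' S : Finset ℂ) : Set ℂ))
    ((Set.finite_range x).union (Finset.finite_toSet _))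
  obtain ⟨hi1, hn1⟩ := indep_insert h.sind hc'
  have hi1' : AlgebraicIndepOn K id ((insert c' S : Finset ℂ) : Set ℂ) := by
    rw [Finset.coe_insert]; exact hi1
  obtain ⟨hi2, hn2⟩ := indep_insert hi1' hc
  have hi2' : AlgebraicIndepOn K id ((insert c (insert c' S) : Finset ℂ) : Set ℂ) := by
    rw [Finset.coe_insert]; exact hi2
  set θ := x ⟨j, hj⟩ with hθdef
  set gens : Set ℂ := {z | ∃ i : Fin n, (i : ℕ) < j ∧ z = x i} ∪ (S : Set ℂ) with hgens
  have hgsub : gens ⊆ Set.range x ∪ (S : Set ℂ) := by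
    rintro z (⟨i, _, rfl⟩ | hz)
    · exact Or.inl ⟨i, rfl⟩
    · exact Or.inr hz
  set F := Fj x j S with hF
  set F1 := IntermediateField.adjoin ℚ (insert θ gens) with hF1
  set F2 := IntermediateField.adjoin ℚ (insert c' (insert θ gens)) with hF2
  set F3 := Fj x (j + 1) (insert c (insert c' S)) with hF3
  have hFgens : F = IntermediateField.adjoin ℚ gens := rfl
  have h01 : F ≤ F1 := IntermediateField.adjoin.mono _ _ _ (Set.subset_insert _ _)
  have h12 : F1 ≤ F2 := IntermediateField.adjoin.mono _ _ _ (Set.subset_insert _ _)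
  have h23 : F2 ≤ F3 := by
    refine IntermediateField.adjoin.mono _ _ _ ?_
    rintro z (rfl | rfl | ⟨i, hi, rfl⟩ | hz)
    · exact Or.inr (by simp)
    · exact Or.inl ⟨⟨j, hj⟩, Nat.lt_succ_self j, rfl⟩
    · exact Or.inl ⟨i, by omega, rfl⟩
    · exact Or.inr (by simp [Finset.mem_coe.1 hz])
  have h1M : F1 ≤ IntermediateField.adjoin ℚ (Set.range x ∪ (S : Set ℂ)) := by
    refine IntermediateField.adjoin.mono _ _ _ ?_
    rintro z (rfl | hz)
    · exact Or.inl ⟨_, rfl⟩
    · exact hgsub hz
  have h2M : F2 ≤ IntermediateField.adjoin ℚ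
      (Set.range x ∪ ((insert c' S : Finset ℂ) : Set ℂ)) := by
    refine IntermediateField.adjoin.mono _ _ _ ?_
    rintro z (rfl | rfl | hz)
    · exact Or.inr (by simp)
    · exact Or.inl ⟨_, rfl⟩
    · rcases hgsub hz with h | h
      · exact Or.inl h
      · exact Or.inr (by simp [Finset.mem_coe.1 h])
  have hcF1 : Transcendental F1 c' := transc_mono h1M hc'
  have hcF2 : Transcendental F2 c := transc_mono h2M hc
  have hθ1 : θ ∈ F1 := IntermediateField.subset_adjoin _ _ (Set.mem_insert _ _)
  have hc'2 : c' ∈ F2 := IntermediateField.subset_adjoin _ _ (Set.mem_insert _ _)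
  have hc3 : c ∈ F3 := IntermediateField.subset_adjoin _ _ (Or.inr (by simp))
  have hcard : (insert c (insert c' S)).card = 2 * (j + 1) := by
    rw [Finset.card_insert_of_notMem hn2, Finset.card_insert_of_notMem hn1, h.scard]
    ring
  have hgen : F ≤ IntermediateField.adjoin ℚ {z : ℂ | z ∈ F ∧ z ≠ 0 ∧ e z ∈ Sp l} := by
    rw [hFgens]
    refine IntermediateField.adjoin.mono _ _ _ ?_
    intro z hz
    refine ⟨IntermediateField.subset_adjoin _ _ hz, ?_⟩
    rcases hz with ⟨i, hi, rfl⟩ | hz
    · exact ⟨hx i, h.xmem i hi⟩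
    · refine ⟨?_, h.smem z hz⟩
      have h1 := h.sind.transcendental ⟨z, hz⟩
      rintro rfl
      exact h1 isAlgebraic_zero
  by_cases halg : IsAlgebraic F θ
  · obtain ⟨l', hl', hle, hθl, hcl, hc'l⟩ := Adm.alg h01 h12 h23 hθ1 (hx _) hc'2 hc3 hcF1 hcF2
      h.adm hgen halg.isIntegral
    refine ⟨insert c (insert c' S), J, l', hcard, hi2', fun i hi => ?_, h.jind, ?_, ?_, ?_⟩
    · have := h.jlt i hi; omega
    · have : J.card + 2 * (j + 1) = J.card + 2 * j + 2 := by ring
      rw [this]
      exact hl'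
    · intro i hi
      rcases Nat.lt_succ_iff_lt_or_eq.1 hi with hi | hi
      · exact hle (h.xmem i hi)
      · have : i = ⟨j, hj⟩ := Fin.ext hi
        rw [this]
        exact hθl
    · intro s hs
      rcases Finset.mem_insert.1 hs with rfl | hs
      · exact hcl
      · rcases Finset.mem_insert.1 hs with rfl | hs
        · exact hc'l
        · exact hle (h.smem s hs)
  · have hnj : (⟨j, hj⟩ : Fin n) ∉ J := fun hmem => by
      have := h.jlt _ hmem
      simp at this
    have h1 := ((h.adm.trans halg h01 hθ1).trans hcF1 h12 hc'2).trans hcF2 h23 hc3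
    refine ⟨insert c (insert c' S), insert ⟨j, hj⟩ J, c :: c' :: θ :: l, hcard, hi2', ?_, ?_,
      ?_, ?_, ?_⟩
    · intro i hi
      rcases Finset.mem_insert.1 hi with rfl | hi
      · exact Nat.lt_succ_self j
      · have := h.jlt i hi; omega
    · rw [Finset.coe_insert]
      refine h.jind.insert ?_
      refine transc_of Subtype.coe_injective F ?_ halg
      rintro ⟨r, hr⟩
      change r ∈ F
      have h2 : Algebra.adjoin ℚ (x '' (J : Set (Fin n))) ≤ F.toSubalgebra := by
        refine Algebra.adjoin_le ?_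
        rintro _ ⟨i, hi, rfl⟩
        exact IntermediateField.subset_adjoin _ _ (Or.inl ⟨i, h.jlt i hi, rfl⟩)
      exact h2 hr
    · have : (insert (⟨j, hj⟩ : Fin n) J).card + 2 * (j + 1) = J.card + 2 * j + 1 + 1 + 1 := by
        rw [Finset.card_insert_of_notMem hnj]
        ring
      rw [this]
      exact h1
    · intro i hi
      rcases Nat.lt_succ_iff_lt_or_eq.1 hi with hi | hi
      · exact Sp_mono (fun b hb => by simp [hb]) (h.xmem i hi)
      · have : i = ⟨j, hj⟩ := Fin.ext hi
        rw [this]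
        exact mem_Sp (by simp [hθdef])
    · intro s hs
      rcases Finset.mem_insert.1 hs with rfl | hs
      · exact mem_Sp (by simp)
      · rcases Finset.mem_insert.1 hs with rfl | hs
        · exact mem_Sp (by simp)
        · exact Sp_mono (fun b hb => by simp [hb]) (h.smem s hs)

theorem exists_tuple (x : Fin n → ℂ) (hx : ∀ i, x i ≠ 0) (j : ℕ) (hj : j ≤ n) :
    ∃ S J l, TInv x j S J l := by
  induction j with
  | zero => exact ⟨_, _, _, tuple_zero x⟩
  | succ j ih =>
    obtain ⟨S, J, l, h⟩ := ih (by omega)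
    exact tuple_succ x hx (by omega) h

end Pool.Agent.E8helper35.ZL
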