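import Mathlib
import Pool.Agent.E8helper35.ZL.Defs
import Pool.Agent.E8helper35.ZL.StepA
import Pool.Agent.E8helper35.ZL.Jac
import Pool.Agent.E8helper35.ZL.Tuple

set_option autoImplicit false

namespace Pool.Agent.E8helper35.ZL

open MvPolynomial

theorem mon_eq {k : ℕ} (t : Fin k → ℂ) (a : Fin k ⊕ Fin k → ℤ) :
    mon t a = ∏ i, tt t i ^ a i := by
  rw [Fintype.prod_sum_type]
  rfl

theorem eval_sum {S τ : Type*} (c : S → ℂ) (y : τ → ℂ) (h : MvPolynomial (S ⊕ τ) ℚ) :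
    aeval (Sum.elim c y) h =
      eval c (map (aeval y : MvPolynomial τ ℚ →ₐ[ℚ] ℂ).toRingHom (sumAlgEquiv ℚ S τ h)) := by
  have hC : ∀ a : ℚ, (aeval y : MvPolynomial τ ℚ →ₐ[ℚ] ℂ).toRingHom (C a) = algebraMap ℚ ℂ a :=
    fun a => algHom_C (aeval y : MvPolynomial τ ℚ →ₐ[ℚ] ℂ) a
  have hXi : ∀ i, (aeval y : MvPolynomial τ ℚ →ₐ[ℚ] ℂ).toRingHom (X i) = y i :=
    fun i => aeval_X y i
  induction h using MvPolynomial.induction_on with
  | C a => rw [algHom_C, sumAlgEquiv_C_inl, map_C, eval_C, hC]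
  | add p q hp hq => rw [map_add, hp, hq, map_add, map_add, map_add]
  | mul_X p i hp =>
    rw [map_mul, hp, map_mul, map_mul, map_mul]
    congr 1
    rcases i with i | i
    · rw [sumAlgEquiv_X_inl, aeval_X, map_X, eval_X, Sum.elim_inl]
    · rw [sumAlgEquiv_X_inr, aeval_X, map_C, eval_C, Sum.elim_inr, hXi]

/-- relations which hold at a point hold at its specializations -/
theorem rel_spec {n : ℕ} {x s : Fin n → ℂ} (hx : ∀ i, x i ≠ 0) (hs : ∀ i, s i ≠ 0)
    (h : ∀ f : MvPolynomial (Fin n) ℚ, aeval x f = 0 → aeval s f = 0) (a : Fin n → ℤ)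
    (ha : ∏ i, x i ^ a i = 1) : ∏ i, s i ^ a i = 1 := by
  classical
  let p : MvPolynomial (Fin n) ℚ := ∏ i, X i ^ (a i).toNat
  let q : MvPolynomial (Fin n) ℚ := ∏ i, X i ^ (-(a i)).toNat
  have hp : ∀ y : Fin n → ℂ, aeval y p = ∏ i, y i ^ (a i).toNat := fun y => by
    simp [p, map_prod]
  have hq : ∀ y : Fin n → ℂ, aeval y q = ∏ i, y i ^ (-(a i)).toNat := fun y => by
    simp [q, map_prod]
  have hmul : ∀ y : Fin n → ℂ, (∀ i, y i ≠ 0) → (∏ i, y i ^ a i) * aeval y q = aeval y p := by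
    intro y hy
    rw [hp, hq, ← Finset.prod_mul_distrib]
    exact Finset.prod_congr rfl fun i _ => zpow_toNat (hy i) _
  have h1 : aeval x (q - p) = 0 := by
    have := hmul x hx
    rw [ha, one_mul] at this
    rw [map_sub, this, sub_self]
  have h2 := h _ h1
  rw [map_sub, sub_eq_zero] at h2
  have h3 := hmul s hs
  rw [← h2] at h3
  have h4 : aeval s q ≠ 0 := by
    rw [hq]
    exact Finset.prod_ne_zero_iff.2 fun i _ => pow_ne_zero _ (hs i)
  exact mul_right_cancel₀ h4 (by rw [h3, one_mul])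

theorem TS_eq_Sp (l : List ℂ) : TS (fun i : Fin l.length => l.get i) = Sp l := by
  refine le_antisymm (Submodule.span_le.2 ?_) (Sp_le fun a ha => ?_)
  · rintro _ ⟨i | i, rfl⟩
    · exact mem_Sp (List.get_mem _ _)
    · exact mem_Sp' (List.get_mem _ _)
  · obtain ⟨i, rfl⟩ := List.get_of_mem ha
    exact ⟨Submodule.subset_span ⟨Sum.inl i, rfl⟩, Submodule.subset_span ⟨Sum.inr i, rfl⟩⟩

theorem closure_claim {n : ℕ} (x : Fin n → ℂ) (hx0 : ∀ i, x i ≠ 0)
    (hrel : ∀ a : Fin n → ℤ, ∏ i, x i ^ a i = 1 → a = 0) {S : Finset ℂ} {J : Finset (Fin n)}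
    {l : List ℂ} (hT : TInv x n S J l)
    (hA : ∀ H : MvPolynomial (Fin n) ℚ, aeval x H ≠ 0 → ∃ s' : Fin n → ℂ, (∀ i, s' i ≠ 0) ∧
      (∀ f : MvPolynomial (Fin n) ℚ, aeval x f = 0 → aeval s' f = 0) ∧ aeval s' H ≠ 0 ∧
        rk s' + J.card + 1 ≤ n ∧ ∀ i, IsAlgebraic ℚ (s' i))
    (f : MvPolynomial (Fin l.length) ℚ) (hf : f ∈ vanishingIdeal ℚ (LowRank l.length)) :
    aeval (fun i => l.get i) f = 0 := by
  classical
  by_contra hft
  set t : Fin l.length → ℂ := fun i => l.get i with ht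
  have ht0 : ∀ i, t i ≠ 0 := fun i => (hT.adm.mem _ (List.get_mem _ _)).2.1
  have ht1 : ∀ i, t i ≠ 1 := fun i => (hT.adm.mem _ (List.get_mem _ _)).2.2
  have h1t : ∀ i, 1 - t i ≠ 0 := fun i => sub_ne_zero.2 (Ne.symm (ht1 i))
  set w : S ⊕ Fin n → ℂ := Sum.elim (fun c => (c : ℂ)) x with hw
  set K' := IntermediateField.adjoin ℚ (Set.range w) with hK'
  have hFK : Fj x n S ≤ K' := by
    refine IntermediateField.adjoin.mono _ _ _ ?_
    rintro z (⟨i, _, rfl⟩ | hz)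
    · exact ⟨Sum.inr i, rfl⟩
    · exact ⟨Sum.inl ⟨z, hz⟩, rfl⟩
  have htK : ∀ i, t i ∈ K' := fun i => hFK (hT.adm.mem _ (List.get_mem _ _)).1
  have hwK : ∀ i, w i ∈ K' := fun i => IntermediateField.subset_adjoin _ _ ⟨i, rfl⟩
  have hfK : aeval t f ∈ K' := by
    obtain ⟨h, -⟩ := phi_aeval K'.toSubring (fun q => K'.algebraMap_mem q)
      (algebraMap K' ℂ) t htK f
    exact h
  let Z : Finset ℂ := insert (aeval t f)⁻¹ (Finset.univ.image w ∪ Finset.univ.image (fun i => (w i)⁻¹)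
    ∪ Finset.univ.image t ∪ Finset.univ.image (fun i => (t i)⁻¹) ∪
      Finset.univ.image (fun i => (1 - t i)⁻¹))
  obtain ⟨g, hg, hspec⟩ := spec w Z (by
    intro z hz
    have hzK : z ∈ K' := by
      simp only [Z, Finset.mem_insert, Finset.mem_union, Finset.mem_image, Finset.mem_univ,
        true_and] at hz
      rcases hz with rfl | ((((⟨i, rfl⟩ | ⟨i, rfl⟩) | ⟨i, rfl⟩) | ⟨i, rfl⟩) | ⟨i, rfl⟩)
      · exact inv_mem hfK
      · exact hwK i
      · exact inv_mem (hwK i)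
      · exact htK i
      · exact inv_mem (htK i)
      · exact inv_mem (sub_mem (one_mem _) (htK i))
    exact isAlgebraic_algebraMap (⟨z, hzK⟩ : K'))
  rw [hw, eval_sum] at hg
  have hgx : map (aeval x : MvPolynomial (Fin n) ℚ →ₐ[ℚ] ℂ).toRingHom
      (sumAlgEquiv ℚ S (Fin n) g) ≠ 0 := by
    intro h
    rw [h, map_zero] at hg
    exact hg rfl
  obtain ⟨m, hm⟩ := ne_zero_iff.1 hgx
  rw [coeff_map] at hm
  obtain ⟨s', hs'0, hxs', hs'H, hs'rk, hs'alg⟩ := hA (coeff m (sumAlgEquiv ℚ S (Fin n) g)) hm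
  have hgs' : map (aeval s' : MvPolynomial (Fin n) ℚ →ₐ[ℚ] ℂ).toRingHom
      (sumAlgEquiv ℚ S (Fin n) g) ≠ 0 := by
    intro h
    have h1 := coeff_map (aeval s' : MvPolynomial (Fin n) ℚ →ₐ[ℚ] ℂ).toRingHom
      (sumAlgEquiv ℚ S (Fin n) g) m
    rw [h, coeff_zero] at h1
    exact hs'H h1.symm
  obtain ⟨ζ, hζ, hgζ⟩ := exists_roots _ hgs'
  rw [← eval_sum] at hgζ
  have hker : ∀ h : MvPolynomial (S ⊕ Fin n) ℚ, aeval w h = 0 →
      aeval (Sum.elim ζ s') h = 0 := by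
    intro h hh
    rw [hw, eval_sum] at hh
    rw [eval_sum]
    let K := IntermediateField.adjoin ℚ (Set.range x)
    let x' : Fin n → K := fun i => ⟨x i, IntermediateField.subset_adjoin _ _ ⟨i, rfl⟩⟩
    have hcomp : (algebraMap K ℂ).comp (aeval x' : MvPolynomial (Fin n) ℚ →ₐ[ℚ] K).toRingHom =
        (aeval x : MvPolynomial (Fin n) ℚ →ₐ[ℚ] ℂ).toRingHom := by
      refine ringHom_ext (fun r => ?_) (fun i => ?_)
      · have h1 : (aeval x' : MvPolynomial (Fin n) ℚ →ₐ[ℚ] K).toRingHom (C r) =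
            algebraMap ℚ K r := algHom_C _ _
        have h2 : (aeval x : MvPolynomial (Fin n) ℚ →ₐ[ℚ] ℂ).toRingHom (C r) =
            algebraMap ℚ ℂ r := algHom_C _ _
        rw [RingHom.comp_apply, h1, h2]
        rfl
      · have h1 : (aeval x' : MvPolynomial (Fin n) ℚ →ₐ[ℚ] K).toRingHom (X i) = x' i :=
          aeval_X _ _
        have h2 : (aeval x : MvPolynomial (Fin n) ℚ →ₐ[ℚ] ℂ).toRingHom (X i) = x i :=
          aeval_X _ _
        rw [RingHom.comp_apply, h1, h2]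
        rfl
    have hind : AlgebraicIndependent K (fun c : S => (c : ℂ)) := hT.sind
    have h1 : aeval (fun c : S => (c : ℂ)) (map (aeval x' : MvPolynomial (Fin n) ℚ →ₐ[ℚ] K).toRingHom
        (sumAlgEquiv ℚ S (Fin n) h)) = 0 := by
      rw [aeval_def, eval₂_map, hcomp, ← eval_map]
      exact hh
    have h2 := (algebraicIndependent_iff.1 hind) _ h1
    have h3 : map (aeval s' : MvPolynomial (Fin n) ℚ →ₐ[ℚ] ℂ).toRingHom
        (sumAlgEquiv ℚ S (Fin n) h) = 0 := by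
      ext m
      rw [coeff_map, coeff_zero]
      refine hxs' _ ?_
      have h4 := coeff_map (aeval x' : MvPolynomial (Fin n) ℚ →ₐ[ℚ] K).toRingHom
        (sumAlgEquiv ℚ S (Fin n) h) m
      rw [h2, coeff_zero] at h4
      have h5 : (aeval x : MvPolynomial (Fin n) ℚ →ₐ[ℚ] ℂ).toRingHom
          (coeff m (sumAlgEquiv ℚ S (Fin n) h)) = 0 := by
        rw [← hcomp, RingHom.comp_apply, ← h4, map_zero]
      exact h5
    rw [h3, map_zero]
  obtain ⟨R, φ, hRQ, hRZ, hφ, hφalg⟩ := hspec (Sum.elim ζ s') hker hgζ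
  have hRalg : ∀ z : R, IsAlgebraic ℚ (φ z) := hφalg (by
    rintro (i | i)
    · obtain ⟨N, hN, hN'⟩ := hζ i
      exact root_alg hN hN'
    · exact hs'alg i)
  have hwR : ∀ i, w i ∈ R := fun i => hRZ _ (by simp [Z])
  have hwR' : ∀ i, (w i)⁻¹ ∈ R := fun i => hRZ _ (by simp [Z])
  have htR : ∀ i, t i ∈ R := fun i => hRZ _ (by simp [Z])
  have htR' : ∀ i, (t i)⁻¹ ∈ R := fun i => hRZ _ (by simp [Z])
  have h1tR : ∀ i, 1 - t i ∈ R := fun i => sub_mem (one_mem _) (htR i)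
  have h1tR' : ∀ i, (1 - t i)⁻¹ ∈ R := fun i => hRZ _ (by simp [Z])
  have hfR' : (aeval t f)⁻¹ ∈ R := hRZ _ (by simp [Z])
  have hunit : ∀ (u : ℂ) (hu : u ∈ R), u⁻¹ ∈ R → u ≠ 0 → φ ⟨u, hu⟩ ≠ 0 := by
    intro u hu hu' h0 h
    have h1 : φ ⟨u, hu⟩ * φ ⟨u⁻¹, hu'⟩ = 1 := by
      rw [← map_mul, ← map_one φ]
      congr 1
      ext
      exact mul_inv_cancel₀ h0
    rw [h, zero_mul] at h1
    exact zero_ne_one h1
  set t' : Fin l.length → ℂ := fun i => φ ⟨t i, htR i⟩ with ht'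
  have ht'1 : ∀ i, φ ⟨1 - t i, h1tR i⟩ = 1 - t' i := by
    intro i
    have h := map_sub φ (1 : R) ⟨t i, htR i⟩
    rw [map_one] at h
    exact h
  have ht'0 : ∀ i, t' i ≠ 0 := fun i => hunit _ _ (htR' i) (ht0 i)
  have h1t'0 : ∀ i, 1 - t' i ≠ 0 := fun i => by
    rw [← ht'1]
    exact hunit _ _ (h1tR' i) (h1t i)
  have ht'ne1 : ∀ i, t' i ≠ 1 := fun i h => h1t'0 i (by rw [h, sub_self])
  obtain ⟨Φ, hΦ⟩ := exists_Phi R φ
  have hw0 : ∀ i, w i ≠ 0 := by
    rintro (c | i)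
    · have h1 := hT.sind.transcendental c
      intro h
      have h2 : (id (c : ℂ)) = 0 := h
      rw [h2] at h1
      exact h1 isAlgebraic_zero
    · exact hx0 i
  have hφw : ∀ i, φ ⟨w i, hwR i⟩ = (Sum.elim ζ s' : S ⊕ Fin n → ℂ) i := fun i => (hφ i).2
  -- the span of the classes of `x` and of the parameters
  let Xs : Submodule ℚ E := Submodule.span ℚ (Set.range fun i => e (w i))
  have hXT : Xs ≤ TS t := by
    refine Submodule.span_le.2 ?_
    rw [ht, TS_eq_Sp]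
    rintro _ ⟨c | i, rfl⟩
    · exact hT.smem c c.2
    · exact hT.xmem i i.2
  have hli : LinearIndependent ℚ fun i => e (w i) := by
    refine li_of_rel hw0 fun a ha => ?_
    rw [Fintype.prod_sum_type] at ha
    have hb : (fun c : S => a (Sum.inl c)) = 0 := by
      let K := IntermediateField.adjoin ℚ (Set.range x)
      have hind : AlgebraicIndependent K (fun c : S => (c : ℂ)) := hT.sind
      have hxK : ∀ i, x i ∈ K := fun i => IntermediateField.subset_adjoin _ _ ⟨i, rfl⟩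
      have hpK : (∏ i, x i ^ a (Sum.inr i))⁻¹ ∈ K :=
        inv_mem (prod_mem fun i _ => zpow_mem (hxK i) _)
      refine mono_eq hind _ ⟨_, hpK⟩ ?_
      exact eq_inv_of_mul_eq_one_left ha
    have hc1 : ∏ c : S, w (Sum.inl c) ^ a (Sum.inl c) = 1 := by
      refine Finset.prod_eq_one fun c _ => ?_
      have : a (Sum.inl c) = 0 := congrFun hb c
      rw [this, zpow_zero]
    rw [hc1, one_mul] at ha
    have hc2 := hrel _ ha
    funext i
    rcases i with c | i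
    · exact congrFun hb c
    · exact congrFun hc2 i
  have hXcard : Module.finrank ℚ Xs = 2 * n + n := by
    have h1 : Module.finrank ℚ Xs = Fintype.card (S ⊕ Fin n) := finrank_span_eq_card hli
    rw [h1, Fintype.card_sum, Fintype.card_coe, Fintype.card_fin, hT.scard]
  have hTcard : Module.finrank ℚ (TS t) = l.length + (J.card + 2 * n) := by
    rw [ht, TS_eq_Sp]
    exact hT.adm.rank
  have hTmap : (TS t).map Φ = TS t' := by
    rw [TS, TS, Submodule.map_span, ← Set.range_comp]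
    congr 2
    funext i
    rcases i with i | i
    · exact hΦ _ (htR i) (htR' i) (ht0 i)
    · change Φ (e (1 - t i)) = e (1 - t' i)
      rw [hΦ _ (h1tR i) (h1tR' i) (h1t i), ht'1]
  have hXmap : Xs.map Φ ≤ Submodule.span ℚ (Set.range fun i => e (s' i)) := by
    rw [Submodule.map_span, ← Set.range_comp]
    refine Submodule.span_le.2 ?_
    rintro _ ⟨i, rfl⟩
    rw [Function.comp_apply, hΦ _ (hwR i) (hwR' i) (hw0 i), hφw]
    rcases i with c | i
    · obtain ⟨N, hN, hN'⟩ := hζ c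
      rw [Sum.elim_inl, e_root hN hN']
      exact zero_mem _
    · exact Submodule.subset_span ⟨i, rfl⟩
  have hfd : FiniteDimensional ℚ (Submodule.span ℚ (Set.range fun i => e (s' i))) :=
    FiniteDimensional.span_of_finite ℚ (Set.finite_range _)
  have hXmap' : Module.finrank ℚ (Xs.map Φ) ≤ rk s' := Submodule.finrank_mono hXmap
  have hmain := finrank_map_add Φ Xs (TS t) hXT
  rw [hTmap, hXcard, hTcard] at hmain
  have hrkt' : rk (tt t') + 1 ≤ l.length := by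
    have h1 : rk (tt t') = Module.finrank ℚ (TS t') := rfl
    omega
  have htt0 := tt_ne ht'0 ht'ne1
  have hfin := le_rk_add (tt t') htt0
  rw [Fintype.card_sum, Fintype.card_fin] at hfin
  have hlow : t' ∈ LowRank l.length := by
    refine ⟨fun i => hRalg _, fun i => ⟨ht'0 i, ht'ne1 i⟩, relL (tt t') htt0, by omega,
      fun a ha => ?_⟩
    rw [mon_eq]
    exact ha
  have h1 := hf t' hlow
  obtain ⟨h2, h3⟩ := phi_aeval R hRQ φ t htR f
  have h4 : φ ⟨aeval t f, h2⟩ ≠ 0 := hunit _ _ hfR' hft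
  rw [h3] at h4
  exact h4 h1

theorem zilber_of_lineCase (hL : LineCase) : Zilber := by
  classical
  intro n P hP hX hdens
  have hP0 : (P.comap (map (algebraMap ℚ ℂ) : MvPolynomial (Fin n) ℚ →+* _)).IsPrime :=
    Ideal.IsPrime.comap _
  obtain ⟨x, hx⟩ := exists_generic _ hP0
  have hx' : ∀ f : MvPolynomial (Fin n) ℚ, aeval x f = 0 ↔ map (algebraMap ℚ ℂ) f ∈ P :=
    fun f => hx f
  have hx0 : ∀ i, x i ≠ 0 := fun i h => by
    have h1 : aeval x (X i : MvPolynomial (Fin n) ℚ) = 0 := by rw [aeval_X, h]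
    rw [hx', map_X] at h1
    exact hX (P.mem_of_dvd (Finset.dvd_prod_of_mem _ (Finset.mem_univ i)) h1)
  by_contra hcon
  push Not at hcon
  have hrel : ∀ a : Fin n → ℤ, ∏ i, x i ^ a i = 1 → a = 0 := by
    intro a ha
    by_contra ha0
    obtain ⟨s, hs0, hsP, hs⟩ := hcon a ha0
    refine hs (rel_spec hx0 hs0 (fun f hf => ?_) a ha)
    have h1 := hsP _ ((hx' f).1 hf)
    rwa [eval_map] at h1
  obtain ⟨S, J, l, hT⟩ := exists_tuple x hx0 n le_rfl
  set t : Fin l.length → ℂ := fun i => l.get i with ht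
  have ht0 : ∀ i, t i ≠ 0 := fun i => (hT.adm.mem _ (List.get_mem _ _)).2.1
  have ht1 : ∀ i, t i ≠ 1 := fun i => (hT.adm.mem _ (List.get_mem _ _)).2.2
  have hclos : ∀ f ∈ vanishingIdeal ℚ (LowRank l.length), aeval t f = 0 :=
    closure_claim x hx0 hrel hT fun H hH => step_A P hP hX hdens x hx' J hT.jind H hH
  have hPt : (RingHom.ker (aeval t : MvPolynomial (Fin l.length) ℚ →ₐ[ℚ] ℂ)).IsPrime :=
    RingHom.ker_isPrime _
  have hle : vanishingIdeal ℚ (LowRank l.length) ≤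
      RingHom.ker (aeval t : MvPolynomial (Fin l.length) ℚ →ₐ[ℚ] ℂ) := fun f hf => hclos f hf
  obtain ⟨P', hP', hP'le⟩ := Ideal.exists_minimalPrimes_le hle
  obtain ⟨Λ, hΛ1, hΛ2⟩ := hL l.length P' hP'
  let b := Module.finBasis ℤ Λ
  let lam : Fin (Module.finrank ℤ Λ) → (Fin l.length ⊕ Fin l.length → ℤ) := fun j => b j
  have hlam : LinearIndependent ℤ lam :=
    b.linearIndependent.map' Λ.subtype (Submodule.ker_subtype _)
  have htP' : ∀ f ∈ P', aeval t f = 0 := fun f hf => hP'le hf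
  have hrank : rk (tt t) = l.length + (J.card + 2 * n) := by
    have h1 : rk (tt t) = Module.finrank ℚ (TS t) := rfl
    rw [h1, ht, TS_eq_Sp]
    exact hT.adm.rank
  have hgood : ∃ B : Finset ℂ, B.card ≤ J.card + 2 * n ∧ ∀ ℓ : E →ₗ[ℚ] ℂ,
      (∀ i, phi ℓ (t i) = 0) → (∀ b ∈ B, ℓ (e b) = 0) → ∀ i, ℓ (e (t i)) = 0 := by
    obtain ⟨B, hB, hg⟩ := hT.adm.good
    refine ⟨B, hB, fun ℓ h1 h2 i => hg ℓ (fun a ha => ?_) h2 _ (List.get_mem _ _)⟩
    obtain ⟨j, rfl⟩ := List.get_of_mem ha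
    exact h1 j
  have hrows := rows_indep t ht0 ht1 hgood hrank lam hlam (fun j => by
    rw [← mon_eq]
    exact hΛ2 _ (b j).2 t (fun i => ⟨ht0 i, ht1 i⟩) htP')
  have hdim := dim_jac P' hP'.1.1 t ht0 ht1 htP' lam (fun j t' ht' hP't' => by
    rw [← mon_eq]
    exact hΛ2 _ (b j).2 t' ht' hP't') hrows
  exact absurd hΛ1 (not_lt.2 hdim)

end Pool.Agent.E8helper35.ZL
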