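import Mathlib
import Pool.Agent.E8helper35.ZL.Defs
import Pool.Agent.E8helper35.ZL.Dir2

set_option autoImplicit false

namespace Pool.Agent.E8helper35.ZL

open MvPolynomial

theorem vanishing_radical {K : Type*} [Field K] [Algebra K ℂ] {σ : Type*} (W : Set (σ → ℂ)) :
    (vanishingIdeal K W).IsRadical := by
  rintro f ⟨n, hn⟩ z hz
  have h1 := hn z hz
  rw [map_pow] at h1
  have hn0 : n ≠ 0 := by
    rintro rfl
    rw [pow_zero] at h1
    exact one_ne_zero h1
  exact (pow_eq_zero_iff hn0).1 h1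

theorem minz {K : Type*} [Field K] [Algebra K ℂ] {σ : Type*} [Finite σ] (W : Set (σ → ℂ))
    (P : Ideal (MvPolynomial σ K)) (hP : P ∈ (vanishingIdeal K W).minimalPrimes)
    (f : MvPolynomial σ K)
    (hf : ∀ z ∈ W, (∀ p ∈ P, aeval z p = 0) → aeval z f = 0) : f ∈ P := by
  classical
  set J := vanishingIdeal K W with hJ
  have hPp : P.IsPrime := hP.1.1
  have hfin : J.minimalPrimes.Finite := Ideal.finite_minimalPrimes_of_isNoetherianRing _ J
  have hnle : ¬ (hfin.toFinset.erase P).inf id ≤ P := by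
    intro h
    obtain ⟨Q, hQ, hQP⟩ := hPp.inf_le'.1 h
    rw [Finset.mem_erase, Set.Finite.mem_toFinset] at hQ
    exact hQ.1 (le_antisymm hQP (hP.2 hQ.2.1 hQP))
  obtain ⟨g, hg, hgP⟩ := SetLike.not_le_iff_exists.1 hnle
  have hgp : ∀ p ∈ P, g * p ∈ J := by
    intro p hp
    have hrad : J.IsRadical := vanishing_radical W
    rw [← hrad.radical, ← Ideal.sInf_minimalPrimes, Ideal.mem_sInf]
    intro Q hQ
    by_cases hQP : Q = P
    · rw [hQP]; exact P.mul_mem_left _ hp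
    · refine Q.mul_mem_right _ ?_
      have h1 : (hfin.toFinset.erase P).inf id ≤ Q :=
        Finset.inf_le (f := id) (Finset.mem_erase.2 ⟨hQP, hfin.mem_toFinset.2 hQ⟩)
      exact h1 hg
  have hfg : f * g ∈ J := by
    intro z hz
    rw [map_mul]
    by_cases h : ∀ p ∈ P, aeval z p = 0
    · rw [hf z hz h, zero_mul]
    · push Not at h
      obtain ⟨p, hp, hpz⟩ := h
      have h1 := hgp p hp z hz
      rw [map_mul] at h1
      rw [(mul_eq_zero.1 h1).resolve_right hpz, mul_zero]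
  exact (hPp.mem_or_mem (hP.1.2 hfg)).resolve_right hgP

/-- the coordinates of the power of the line -/
noncomputable def pp {k : ℕ} (R : Type*) [CommRing R] : Fin k ⊕ Fin k → MvPolynomial (Fin k) R :=
  Sum.elim X (fun i => 1 - X i)

theorem aeval_pp {k : ℕ} {K : Type*} [Field K] [Algebra K ℂ] (t : Fin k → ℂ)
    (i : Fin k ⊕ Fin k) : aeval t (pp K i) = tt t i := by
  rcases i with i | i
  · exact aeval_X _ _
  · change aeval t (1 - X i : MvPolynomial (Fin k) K) = 1 - t i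
    rw [map_sub, map_one, aeval_X]

theorem map_pp {k : ℕ} (i : Fin k ⊕ Fin k) :
    map (algebraMap ℚ ℂ) (pp ℚ i) = (pp ℂ i : MvPolynomial (Fin k) ℂ) := by
  rcases i with i | i
  · exact map_X _ _
  · change map (algebraMap ℚ ℂ) (1 - X i) = 1 - X i
    rw [map_sub, map_one, map_X]

/-- the polynomial expressing a relation -/
noncomputable def rp {k : ℕ} (a : Fin k ⊕ Fin k → ℤ) : MvPolynomial (Fin k) ℚ :=
  ∏ i, pp ℚ i ^ (a i).toNat - ∏ i, pp ℚ i ^ (-(a i)).toNat

theorem aeval_rp {k : ℕ} (a : Fin k ⊕ Fin k → ℤ) (t : Fin k → ℂ) (ht : ∀ i, t i ≠ 0 ∧ t i ≠ 1) :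
    aeval t (rp a) = 0 ↔ mon t a = 1 := by
  have htt := tt_ne (fun i => (ht i).1) (fun i => (ht i).2)
  have h1 : aeval t (rp a) = ∏ i, tt t i ^ (a i).toNat - ∏ i, tt t i ^ (-(a i)).toNat := by
    rw [rp, map_sub, map_prod, map_prod]
    simp only [map_pow, aeval_pp]
  have h2 : mon t a * ∏ i, tt t i ^ (-(a i)).toNat = ∏ i, tt t i ^ (a i).toNat := by
    rw [mon_eq, ← Finset.prod_mul_distrib]
    exact Finset.prod_congr rfl fun i _ => zpow_toNat (htt i) _
  have h3 : ∏ i, tt t i ^ (-(a i)).toNat ≠ 0 :=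
    Finset.prod_ne_zero_iff.2 fun i _ => pow_ne_zero _ (htt i)
  rw [h1, ← h2, sub_eq_zero]
  constructor
  · intro h
    exact mul_right_cancel₀ h3 (by rw [h, one_mul])
  · intro h
    rw [h, one_mul]

/-- the lattice of relations which hold on the zero set of `P` -/
def LamP {k : ℕ} (P : Ideal (MvPolynomial (Fin k) ℚ)) : Submodule ℤ (Fin k ⊕ Fin k → ℤ) :=
  ⨅ t : {t : Fin k → ℂ // (∀ i, t i ≠ 0 ∧ t i ≠ 1) ∧ ∀ f ∈ P, aeval t f = 0},
    relL (tt t.1) (tt_ne (fun i => (t.2.1 i).1) (fun i => (t.2.1 i).2))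

theorem mem_LamP {k : ℕ} (P : Ideal (MvPolynomial (Fin k) ℚ)) (a : Fin k ⊕ Fin k → ℤ) :
    a ∈ LamP P ↔ ∀ t : Fin k → ℂ, (∀ i, t i ≠ 0 ∧ t i ≠ 1) → (∀ f ∈ P, aeval t f = 0) →
      mon t a = 1 := by
  rw [LamP, Submodule.mem_iInf]
  constructor
  · intro h t ht hP
    rw [mon_eq]
    exact h ⟨t, ht, hP⟩
  · rintro h ⟨t, ht, hP⟩
    have := h t ht hP
    rw [mon_eq] at this
    exact this

/-- a set of coordinates without relations -/
theorem exists_free {ι : Type*} [Fintype ι] (Λ : Submodule ℤ (ι → ℤ)) :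
    ∃ T : Finset ι, (∀ a ∈ Λ, (∀ i, i ∉ T → a i = 0) → a = 0) ∧
      Fintype.card ι ≤ T.card + Module.finrank ℤ Λ := by
  classical
  have hfin : {T : Finset ι | ∀ a ∈ Λ, (∀ i, i ∉ T → a i = 0) → a = 0}.Finite := Set.toFinite _
  obtain ⟨T, hT⟩ := hfin.exists_maximal ⟨∅, fun a _ ha => funext fun i => ha i (by simp)⟩
  obtain ⟨hT1, hmax⟩ := hT
  refine ⟨T, hT1, ?_⟩
  have hex : ∀ j : {j // j ∉ T}, ∃ a ∈ Λ, (∀ i, i ∉ insert (j : ι) T → a i = 0) ∧ a j ≠ 0 := by
    rintro ⟨j, hj⟩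
    by_contra hcon
    push Not at hcon
    have h1 : insert j T ∈ {T : Finset ι | ∀ a ∈ Λ, (∀ i, i ∉ T → a i = 0) → a = 0} := by
      intro a ha hai
      have h2 := hcon a ha hai
      refine hT1 a ha fun i hi => ?_
      by_cases hij : i = j
      · rw [hij]; exact h2
      · exact hai i (by simp [hij, hi])
    exact hj (hmax h1 (Finset.subset_insert _ _) (Finset.mem_insert_self _ _))
  choose lam hlam1 hlam2 hlam3 using hex
  have hli : LinearIndependent ℤ (fun j : {j // j ∉ T} => (⟨lam j, hlam1 j⟩ : Λ)) := by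
    rw [Fintype.linearIndependent_iff]
    intro c hc j
    have h1 := congrArg (fun v : Λ => (v : ι → ℤ) j) hc
    simp only [Submodule.coe_sum, Submodule.coe_smul, Finset.sum_apply, Pi.smul_apply, smul_eq_mul,
      ZeroMemClass.coe_zero, Pi.zero_apply] at h1
    rw [Finset.sum_eq_single j] at h1
    · exact (mul_eq_zero.1 h1).resolve_right (hlam3 j)
    · intro j' _ hj'
      rw [hlam2 j' j (by
        rw [Finset.mem_insert, not_or]
        exact ⟨fun h => hj' (Subtype.ext h.symm), j.2⟩), mul_zero]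
    · intro h
      exact absurd (Finset.mem_univ j) h
  have h1 := hli.fintype_card_le_finrank
  have h2 : Fintype.card {j // j ∉ T} = Fintype.card ι - T.card := by
    rw [Fintype.card_subtype_compl]
    simp
  rw [h2] at h1
  omega

theorem exists_primeC {σ : Type*} [Finite σ] (W : Set (σ → ℂ)) (P : Ideal (MvPolynomial σ ℚ))
    (hP : P ∈ (vanishingIdeal ℚ W).minimalPrimes) :
    ∃ Q ∈ (vanishingIdeal ℂ {z | z ∈ W ∧ ∀ p ∈ P, aeval z p = 0} :
      Ideal (MvPolynomial σ ℂ)).minimalPrimes,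
      ∀ f : MvPolynomial σ ℚ, map (algebraMap ℚ ℂ) f ∈ Q ↔ f ∈ P := by
  classical
  set Z : Set (σ → ℂ) := {z | z ∈ W ∧ ∀ p ∈ P, aeval z p = 0} with hZ
  set J : Ideal (MvPolynomial σ ℂ) := vanishingIdeal ℂ Z with hJ
  have hPp : P.IsPrime := hP.1.1
  have hfin : J.minimalPrimes.Finite := Ideal.finite_minimalPrimes_of_isNoetherianRing _ J
  have hmapz : ∀ (f : MvPolynomial σ ℚ) (z : σ → ℂ),
      aeval z (map (algebraMap ℚ ℂ) f) = aeval z f := by
    intro f z
    rw [aeval_map_algebraMap]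
  have hPQ : ∀ Q ∈ J.minimalPrimes, ∀ f ∈ P, map (algebraMap ℚ ℂ) f ∈ Q := by
    intro Q hQ f hf
    refine hQ.1.2 ?_
    intro z hz
    rw [hmapz]
    exact hz.2 f hf
  by_contra hcon
  push Not at hcon
  have hex : ∀ Q : Ideal (MvPolynomial σ ℂ), ∃ f : MvPolynomial σ ℚ, f ∉ P ∧
      (Q ∈ J.minimalPrimes → map (algebraMap ℚ ℂ) f ∈ Q) := by
    intro Q
    by_cases hQ : Q ∈ J.minimalPrimes
    · obtain ⟨f, hf⟩ := hcon Q hQ
      rcases hf with ⟨h1, h2⟩ | ⟨h1, h2⟩
      · exact ⟨f, h2, fun _ => h1⟩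
      · exact absurd (hPQ Q hQ f h2) h1
    · exact ⟨1, fun h => hPp.ne_top ((Ideal.eq_top_iff_one P).2 h), fun h => absurd h hQ⟩
  choose f hf1 hf2 using hex
  have hprod : ∏ Q ∈ hfin.toFinset, f Q ∉ P := by
    intro h
    obtain ⟨Q, _, hQ⟩ := hPp.prod_mem_iff.1 h
    exact hf1 Q hQ
  refine hprod (minz W P hP _ fun z hz hzP => ?_)
  have hmem : map (algebraMap ℚ ℂ) (∏ Q ∈ hfin.toFinset, f Q) ∈ J := by
    have hrad : J.IsRadical := vanishing_radical Z
    have hle : sInf J.minimalPrimes ≤ J := by rw [Ideal.sInf_minimalPrimes, hrad.radical]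
    refine hle ?_
    rw [Ideal.mem_sInf]
    intro Q hQ
    rw [map_prod]
    exact Q.mem_of_dvd (Finset.dvd_prod_of_mem _ (hfin.mem_toFinset.2 hQ)) (hf2 Q hQ)
  have h1 := hmem z ⟨hz, hzP⟩
  rwa [hmapz] at h1

theorem alg_aevalR {R A : Type*} [Field R] [CommRing A] [IsDomain A] [Algebra R A]
    (B : Subalgebra R A) {σ : Type*} (x : σ → A)
    (h : ∀ i, IsAlgebraic B (x i)) (f : MvPolynomial σ R) : IsAlgebraic B (aeval x f) := by
  induction f using MvPolynomial.induction_on with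
  | C r =>
    rw [algHom_C]
    exact isAlgebraic_algebraMap (algebraMap R B r)
  | add p q hp hq => rw [map_add]; exact hp.add hq
  | mul_X p i hp => rw [map_mul, aeval_X]; exact hp.mul (h i)

theorem aeval_mk {R : Type*} [Field R] {σ τ : Type*} (P : Ideal (MvPolynomial σ R))
    (u : τ → MvPolynomial σ R) (f : MvPolynomial τ R) :
    aeval (fun j => (Ideal.Quotient.mk P (u j) : MvPolynomial σ R ⧸ P)) f =
      Ideal.Quotient.mk P (aeval u f) := by
  induction f using MvPolynomial.induction_on with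
  | C a => rw [algHom_C, algHom_C]; rfl
  | add p q hp hq => rw [map_add, hp, hq, map_add, map_add]
  | mul_X p i hp => rw [map_mul, hp, aeval_X, map_mul, map_mul, aeval_X]

/-- the ideal of the closure of the image -/
noncomputable def pull {k n : ℕ} (τ : Fin n → Fin k ⊕ Fin k)
    (Q : Ideal (MvPolynomial (Fin k) ℂ)) : Ideal (MvPolynomial (Fin n) ℂ) :=
  Q.comap (aeval (fun j => pp ℂ (τ j)) :
    MvPolynomial (Fin n) ℂ →ₐ[ℂ] MvPolynomial (Fin k) ℂ).toRingHom

theorem mem_pull {k n : ℕ} (τ : Fin n → Fin k ⊕ Fin k) (Q : Ideal (MvPolynomial (Fin k) ℂ))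
    (f : MvPolynomial (Fin n) ℂ) : f ∈ pull τ Q ↔ (aeval (fun j => pp ℂ (τ j)) :
    MvPolynomial (Fin n) ℂ →ₐ[ℂ] MvPolynomial (Fin k) ℂ) f ∈ Q := Iff.rfl

theorem pull_prime {k n : ℕ} (τ : Fin n → Fin k ⊕ Fin k) (Q : Ideal (MvPolynomial (Fin k) ℂ))
    (hQ : Q.IsPrime) : (pull τ Q).IsPrime := Ideal.IsPrime.comap _

theorem dim_image {k n : ℕ} (P : Ideal (MvPolynomial (Fin k) ℚ))
    (Q : Ideal (MvPolynomial (Fin k) ℂ)) (hQ : Q.IsPrime)
    (hQP : ∀ f : MvPolynomial (Fin k) ℚ, map (algebraMap ℚ ℂ) f ∈ Q ↔ f ∈ P)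
    (τ : Fin n → Fin k ⊕ Fin k) (d : ℕ)
    (hd : ∀ {ι : Type} [Fintype ι] (w : ι → MvPolynomial (Fin k) ℚ ⧸ P),
      AlgebraicIndependent ℚ w → Fintype.card ι ≤ d) :
    ∃ s : ℕ, s ≤ d ∧ ringKrullDim (MvPolynomial (Fin n) ℂ ⧸ pull τ Q) = s := by
  classical
  let ψ : MvPolynomial (Fin n) ℂ →ₐ[ℂ] MvPolynomial (Fin k) ℂ := aeval fun j => pp ℂ (τ j)
  have hψX : ∀ j, ψ (X j) = pp ℂ (τ j) := fun j => aeval_X _ _
  have hP1m : ∀ f, f ∈ pull τ Q ↔ ψ f ∈ Q := fun f => Iff.rfl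
  have hP1p : (pull τ Q).IsPrime := pull_prime τ Q hQ
  generalize pull τ Q = P1 at hP1m hP1p
  obtain ⟨s, hs, ⟨v, hv⟩, -⟩ := dim_spec ℂ (MvPolynomial (Fin n) ℂ ⧸ P1)
  refine ⟨s, ?_, hs⟩
  obtain ⟨T', -, -, hT'ind, hT'alg⟩ := maxext (R := ℂ)
    (fun j : Fin n => (Ideal.Quotient.mk P1 (X j) : MvPolynomial (Fin n) ℂ ⧸ P1)) ∅ Finset.univ
    (Finset.empty_subset _) (by
      have : IsEmpty ((∅ : Finset (Fin n)) : Set (Fin n)) := by simp
      exact algebraicIndependent_empty_type_iff.2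
        (algebraMap ℂ (MvPolynomial (Fin n) ℂ ⧸ P1)).injective)
  have h1 : s ≤ T'.card := by
    have h2 := steinitz v hv
      (fun j : T' => (Ideal.Quotient.mk P1 (X (j : Fin n)) : MvPolynomial (Fin n) ℂ ⧸ P1)) (by
        intro i
        obtain ⟨f, hf⟩ := Ideal.Quotient.mk_surjective (v i)
        have h3 : v i = aeval (fun j : Fin n =>
            (Ideal.Quotient.mk P1 (X j) : MvPolynomial (Fin n) ℂ ⧸ P1)) f := by
          rw [aeval_mk, ← hf, aeval_X_left_apply]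
        rw [h3]
        refine alg_aevalR _ _ (fun j => ?_) f
        have h4 := hT'alg j (Finset.mem_univ j)
        have h5 : (fun j : Fin n => (Ideal.Quotient.mk P1 (X j) : MvPolynomial (Fin n) ℂ ⧸ P1)) ''
            (T' : Set (Fin n)) = Set.range (fun j : T' =>
              (Ideal.Quotient.mk P1 (X (j : Fin n)) : MvPolynomial (Fin n) ℂ ⧸ P1)) := by
          rw [Set.image_eq_range]
          rfl
        rw [h5] at h4
        exact h4)
    rwa [Fintype.card_fin, Fintype.card_coe] at h2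
  have h2 : AlgebraicIndependent ℚ (fun j : T' =>
      (Ideal.Quotient.mk P (pp ℚ (τ j)) : MvPolynomial (Fin k) ℚ ⧸ P)) := by
    rw [algebraicIndependent_iff]
    intro F hF
    rw [aeval_mk, Ideal.Quotient.eq_zero_iff_mem, ← hQP] at hF
    have h3 : map (algebraMap ℚ ℂ) (aeval (fun j : T' => (pp ℚ (τ j) : MvPolynomial (Fin k) ℚ)) F) =
        ψ (aeval (fun j : T' => (X (j : Fin n) : MvPolynomial (Fin n) ℂ))
          (map (algebraMap ℚ ℂ) F)) := by
      clear hF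
      clear_value ψ
      induction F using MvPolynomial.induction_on with
      | C a =>
        rw [algHom_C, map_C, algHom_C]
        have h4 : ψ (algebraMap ℂ (MvPolynomial (Fin n) ℂ) (algebraMap ℚ ℂ a)) =
            algebraMap ℂ (MvPolynomial (Fin k) ℂ) (algebraMap ℚ ℂ a) := ψ.commutes _
        rw [h4]
        exact map_C _ _
      | add p q hp hq =>
        rw [map_add, map_add, hp, hq, map_add, map_add, map_add]
      | mul_X p i hp =>
        rw [map_mul, map_mul, hp, aeval_X, map_mul, map_mul, map_mul, map_X, aeval_X, map_pp,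
          hψX]
    rw [h3] at hF
    have hF' : aeval (fun j : T' => (X (j : Fin n) : MvPolynomial (Fin n) ℂ))
        (map (algebraMap ℚ ℂ) F) ∈ P1 := (hP1m _).2 hF
    have hind : AlgebraicIndependent ℂ (fun j : T' =>
      (Ideal.Quotient.mk P1 (X (j : Fin n)) : MvPolynomial (Fin n) ℂ ⧸ P1)) := hT'ind
    rw [algebraicIndependent_iff] at hind
    have h4 := hind (map (algebraMap ℚ ℂ) F) (by
      rw [aeval_mk]
      exact Ideal.Quotient.eq_zero_iff_mem.2 hF')
    exact (map_eq_zero_iff _ (map_injective _ (algebraMap ℚ ℂ).injective)).1 h4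
  have h3 := hd _ h2
  rw [Fintype.card_coe] at h3
  omega

end Pool.Agent.E8helper35.ZL
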