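import Mathlib
import Pool.Agent.E8helper35.ZL.Dir1

set_option autoImplicit false

namespace Pool.Agent.E8helper35.ZL

open MvPolynomial

theorem rk_comp_le {ι κ : Type*} [Finite ι] (s : ι → ℂ) (τ : κ → ι) :
    rk (fun j => s (τ j)) ≤ rk s := by
  have hfd : FiniteDimensional ℚ (Submodule.span ℚ (Set.range fun i => e (s i))) :=
    FiniteDimensional.span_of_finite ℚ (Set.finite_range _)
  refine Submodule.finrank_mono (Submodule.span_mono ?_)
  rintro _ ⟨j, rfl⟩
  exact ⟨τ j, rfl⟩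

theorem lineCase_of_zilber (hZ : Zilber) : LineCase := by
  classical
  intro k P hP
  refine ⟨LamP P, ?_, fun a ha t ht hPt => (mem_LamP P a).1 ha t ht hPt⟩
  have hPp : P.IsPrime := hP.1.1
  obtain ⟨dP, hdP, -, hdP3⟩ := dim_spec ℚ (MvPolynomial (Fin k) ℚ ⧸ P)
  by_contra hnot
  rw [not_lt, hdP] at hnot
  have hnot' : dP + Module.finrank ℤ (LamP P) ≤ k := by exact_mod_cast hnot
  obtain ⟨T, hT1, hT2⟩ := exists_free (LamP P)
  rw [Fintype.card_sum, Fintype.card_fin] at hT2
  obtain ⟨Q, hQ, hQP⟩ := exists_primeC (LowRank k) P hP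
  have hQp : Q.IsPrime := hQ.1.1
  have hQz := minz (K := ℂ) {z | z ∈ LowRank k ∧ ∀ p ∈ P, aeval z p = 0} Q hQ
  let τe : Fin T.card ≃ T := T.equivFin.symm
  let τ : Fin T.card → Fin k ⊕ Fin k := fun j => τe j
  have hτ : Function.Injective τ := Subtype.coe_injective.comp τe.injective
  obtain ⟨s, hsd, hs⟩ := dim_image P Q hQp hQP τ dP hdP3
  have hP1p := pull_prime τ Q hQp
  have heval : ∀ (z : Fin k → ℂ) (f : MvPolynomial (Fin T.card) ℂ),
      aeval z ((aeval (fun j => pp ℂ (τ j)) :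
        MvPolynomial (Fin T.card) ℂ →ₐ[ℂ] MvPolynomial (Fin k) ℂ) f) =
      eval (fun j => tt z (τ j)) f := by
    intro z f
    induction f using MvPolynomial.induction_on with
    | C a =>
      rw [algHom_C, eval_C]
      have h1 : aeval z (algebraMap ℂ (MvPolynomial (Fin k) ℂ) a) = algebraMap ℂ ℂ a :=
        (aeval z : MvPolynomial (Fin k) ℂ →ₐ[ℂ] ℂ).commutes a
      rw [h1]
      rfl
    | add p q hp hq => rw [map_add, map_add, hp, hq, map_add]
    | mul_X p i hp => rw [map_mul, map_mul, hp, aeval_X, aeval_pp, map_mul, eval_X]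
  -- the good points
  have hgood : ∀ f : MvPolynomial (Fin T.card) ℂ,
      (∀ z ∈ LowRank k, (∀ q ∈ Q, aeval z q = 0) → eval (fun j => tt z (τ j)) f = 0) →
      f ∈ pull τ Q := by
    intro f hf
    rw [mem_pull]
    refine hQz _ fun z hz hzQ => ?_
    rw [heval]
    exact hf z hz.1 hzQ
  have hX : (∏ i : Fin T.card, (X i : MvPolynomial (Fin T.card) ℂ)) ∉ pull τ Q := by
    intro h
    obtain ⟨j, -, hj⟩ := hP1p.prod_mem_iff.1 h
    have h1 : (1 : MvPolynomial (Fin k) ℂ) ∈ Q := by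
      refine hQz _ fun z hz hzQ => ?_
      have h2 := hzQ _ ((mem_pull _ _ _).1 hj)
      rw [heval, eval_X] at h2
      exact absurd h2 (tt_ne (fun i => (hz.1.2.1 i).1) (fun i => (hz.1.2.1 i).2) _)
    exact hQp.ne_top ((Ideal.eq_top_iff_one Q).2 h1)
  obtain ⟨a, ha0, ha⟩ := hZ T.card (pull τ Q) hP1p hX (by
    intro f hf x _ hxP
    refine hxP f (hgood f fun z hz hzQ => ?_)
    obtain ⟨-, hz1, Λz, hΛz1, hΛz2⟩ := hz
    have htt := tt_ne (fun i => (hz1 i).1) (fun i => (hz1 i).2)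
    have hy0 : ∀ j, tt z (τ j) ≠ 0 := fun j => htt _
    refine hf _ hy0 (fun g hg => ?_) ⟨relL (fun j => tt z (τ j)) hy0, ?_, fun a ha => ha⟩
    · have h1 := hzQ _ ((mem_pull _ _ _).1 hg)
      rwa [heval] at h1
    · rw [hs]
      have h1 := rk_add_le (tt z) htt Λz (fun a ha => by rw [← mon_eq]; exact hΛz2 a ha)
      rw [Fintype.card_sum, Fintype.card_fin] at h1
      have h2 := rk_comp_le (tt z) τ
      have h3 := le_rk_add (fun j => tt z (τ j)) hy0
      rw [Fintype.card_fin] at h3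
      have h4 : s + (T.card - Module.finrank ℤ (relL (fun j => tt z (τ j)) hy0)) + 1 ≤
          T.card := by omega
      exact_mod_cast h4)
  -- the relation
  let b : Fin k ⊕ Fin k → ℤ := fun i => if h : i ∈ T then a (τe.symm ⟨i, h⟩) else 0
  have hbτ : ∀ j, b (τ j) = a j := by
    intro j
    have h1 : τ j ∈ T := (τe j).2
    simp only [b, h1, dif_pos]
    congr 1
    exact τe.symm_apply_apply j
  have hmonb : ∀ z : Fin k → ℂ, mon z b = ∏ j, tt z (τ j) ^ a j := by
    intro z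
    rw [mon_eq]
    have h1 : ∏ j, tt z (τ j) ^ a j = ∏ i ∈ Finset.univ.map ⟨τ, hτ⟩, tt z i ^ b i := by
      rw [Finset.prod_map]
      exact Finset.prod_congr rfl fun j _ => by
        change _ = tt z (τ j) ^ b (τ j)
        rw [hbτ]
    rw [h1]
    symm
    refine Finset.prod_subset (Finset.subset_univ _) fun i _ hi => ?_
    have h2 : i ∉ T := by
      intro hiT
      apply hi
      rw [Finset.mem_map]
      refine ⟨τe.symm ⟨i, hiT⟩, Finset.mem_univ _, ?_⟩
      change ((τe (τe.symm ⟨i, hiT⟩) : T) : Fin k ⊕ Fin k) = i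
      rw [τe.apply_symm_apply]
    simp only [b, h2, not_false_eq_true, dif_neg, zpow_zero]
  have hbΛ : b ∈ LamP P := by
    rw [mem_LamP]
    intro t ht htP
    rw [← aeval_rp b t ht]
    refine htP _ ((hQP _).1 (hQz _ fun z hz hzQ => ?_))
    rw [aeval_map_algebraMap, aeval_rp b z hz.1.2.1, hmonb]
    refine ha _ (fun j => tt_ne (fun i => (hz.1.2.1 i).1) (fun i => (hz.1.2.1 i).2) _) fun g hg => ?_
    have h1 := hzQ _ ((mem_pull _ _ _).1 hg)
    rwa [heval] at h1
  have hb0 := hT1 b hbΛ fun i hi => by simp only [b, hi, not_false_eq_true, dif_neg]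
  apply ha0
  funext j
  rw [← hbτ j, hb0]
  rfl

theorem zilber_iff : Zilber ↔ LineCase := ⟨lineCase_of_zilber, zilber_of_lineCase⟩

end Pool.Agent.E8helper35.ZL
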